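import Pool.Agent.H653R3.Sch

set_option autoImplicit false
set_option linter.unusedSectionVars false
set_option linter.unusedVariables false

/-! Affine groups and derivations. -/

namespace Pool.Agent.H653R3

open Finsupp (single)

section Af
variable {k G U : Type} [CommRing k] [Group G] [AddCommGroup U] [Module k U]

/-- affine group of a representation -/
@[ext] structure Af (ρ : Representation k G U) where
  g : G
  b : U

variable {ρ : Representation k G U}

instance : Mul (Af ρ) := ⟨fun a c => ⟨a.g * c.g, a.b + ρ a.g c.b⟩⟩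
instance : One (Af ρ) := ⟨⟨1, 0⟩⟩
instance : Inv (Af ρ) := ⟨fun a => ⟨a.g⁻¹, -ρ a.g⁻¹ a.b⟩⟩

lemma Af.mul_g (a c : Af ρ) : (a * c).g = a.g * c.g := rfl
lemma Af.mul_b (a c : Af ρ) : (a * c).b = a.b + ρ a.g c.b := rfl
lemma Af.one_g : (1 : Af ρ).g = 1 := rfl
lemma Af.one_b : (1 : Af ρ).b = 0 := rfl
lemma Af.inv_g (a : Af ρ) : (a⁻¹).g = a.g⁻¹ := rfl
lemma Af.inv_b (a : Af ρ) : (a⁻¹).b = -ρ a.g⁻¹ a.b := rfl

instance : Group (Af ρ) :=
  Group.ofLeftAxioms
    (fun a b c => by
      apply Af.ext
      · simp only [Af.mul_g, mul_assoc]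
      · simp only [Af.mul_g, Af.mul_b, map_add, map_mul, Module.End.mul_apply, add_assoc])
    (fun a => by
      apply Af.ext
      · simp only [Af.mul_g, Af.one_g, one_mul]
      · simp only [Af.mul_b, Af.one_g, Af.one_b, map_one, Module.End.one_apply, zero_add])
    (fun a => by
      apply Af.ext
      · simp only [Af.mul_g, Af.inv_g, Af.one_g, inv_mul_cancel]
      · simp only [Af.mul_b, Af.inv_g, Af.inv_b, Af.one_b, neg_add_cancel])

/-- first projection -/
def Af.fst (ρ : Representation k G U) : Af ρ →* G where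
  toFun a := a.g
  map_one' := rfl
  map_mul' _ _ := rfl

lemma Af.fst_apply (a : Af ρ) : Af.fst ρ a = a.g := rfl

lemma deriv {κ H : Type} [Group H] (θ : H →* Af ρ) (σ : Representation k H U)
    (hσ : ∀ h u, σ h u = ρ (θ h).g u) (x : κ → H) (z : CC k H κ) (hz : Phi x z = 0) :
    tm σ (fun i => (θ (x i)).b) z = 0 := by
  have h : tm σ (fun i => (θ (x i)).b) =
      (Finsupp.linearCombination k (fun c : Cell H Unit => (θ c.g).b)) ∘ₗ Phi x := by
    apply CC_ext
    intro g i
    rw [tm_bs, LinearMap.comp_apply, Phi_bs, map_sub]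
    unfold bs
    rw [Finsupp.linearCombination_single, Finsupp.linearCombination_single, one_smul, one_smul,
      map_mul, Af.mul_b, hσ]
    abel
  rw [h, LinearMap.comp_apply, hz, map_zero]

lemma liftQ {κ Q : Type} [Group Q] (y : κ → Q) (hy : Subgroup.closure (Set.range y) = ⊤)
    (σ : Representation k Q U) (j : Q →* G) (hσ : ∀ q u, σ q u = ρ (j q) u) (E : κ → U)
    (hE : ∀ z : CC k Q κ, Phi y z = 0 → tm σ E z = 0) :
    ∃ θ : Q →* Af ρ, (∀ q, (θ q).g = j q) ∧ ∀ i, (θ (y i)).b = E i := by
  choose lam hlam using Phi_surj_aux (k := k) y hy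
  refine ⟨MonoidHom.mk' (fun q => ⟨j q, tm σ E (lam q)⟩) ?_, fun q => rfl, ?_⟩
  · intro p q
    apply Af.ext
    · exact map_mul _ _ _
    · change tm σ E (lam (p * q)) = tm σ E (lam p) + ρ (j p) (tm σ E (lam q))
      rw [← hσ, ← tm_pm, ← map_add, ← sub_eq_zero, ← map_sub]
      apply hE
      rw [map_sub, map_add, Phi_pm, hlam, hlam, hlam, map_sub, pm_bs, pm_bs, mul_one]
      abel
  · intro i
    change tm σ E (lam (y i)) = E i
    have h1 : tm σ E (lam (y i) - bs 1 i) = 0 := by
      apply hE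
      rw [map_sub, hlam, Phi_bs, one_mul, sub_self]
    rw [map_sub, tm_bs, map_one, sub_eq_zero] at h1
    exact h1

end Af

section Free

lemma free_mem {ι G : Type} [Group G] (φ : FreeGroup ι →* G) (H : Subgroup G)
    (h : ∀ i, φ (FreeGroup.of i) ∈ H) (f : FreeGroup ι) : φ f ∈ H := by
  induction f using FreeGroup.induction_on with
  | C1 => rw [map_one]; exact H.one_mem
  | of i => exact h i
  | inv_of i hi => rw [map_inv]; exact H.inv_mem hi
  | mul a b ha hb => rw [map_mul]; exact H.mul_mem ha hb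

lemma closure_of {ι : Type} : Subgroup.closure (Set.range (FreeGroup.of : ι → FreeGroup ι)) = ⊤ := by
  rw [eq_top_iff]
  intro f _
  exact free_mem (MonoidHom.id _) (Subgroup.closure (Set.range (FreeGroup.of : ι → FreeGroup ι)))
    (fun i => Subgroup.subset_closure ⟨i, rfl⟩) f

theorem free_FP2 (ι : Type) [Finite ι] : FP (FreeGroup ι) 2 := by
  apply FP2_of (FreeGroup.of : ι → FreeGroup ι) closure_of ∅ Set.finite_empty (by simp)
  intro z hz
  have key : ∀ z : CC ℤ (FreeGroup ι) ι, Phi FreeGroup.of z = 0 → z = 0 := by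
    intro z hz
    let ρ : Representation ℤ (FreeGroup ι) (CC ℤ (FreeGroup ι) ι) := pm ℤ (FreeGroup ι) _
    let θ : FreeGroup ι →* Af ρ := FreeGroup.lift (fun i => (⟨FreeGroup.of i, bs 1 i⟩ : Af ρ))
    have h1 : ∀ f, (θ f).g = f := by
      intro f
      have : (Af.fst ρ).comp θ = MonoidHom.id _ := by
        apply FreeGroup.ext_hom
        intro i
        simp only [MonoidHom.comp_apply, θ, FreeGroup.lift_apply_of, Af.fst_apply,
          MonoidHom.id_apply]
      exact DFunLike.congr_fun this f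
    have h2 := deriv θ ρ (fun h u => by rw [h1]) FreeGroup.of z hz
    have h3 : tm ρ (fun i => (θ (FreeGroup.of i)).b) = LinearMap.id := by
      apply CC_ext
      intro g i
      rw [tm_bs]
      simp only [θ, FreeGroup.lift_apply_of, ρ, LinearMap.id_apply]
      rw [pm_bs, mul_one]
    rw [h3] at h2
    exact h2
  rw [key z hz]
  exact Submodule.zero_mem _

end Free

end Pool.Agent.H653R3
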