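import Pool.Agent.H653R3.Res

set_option autoImplicit false
set_option linter.unusedSectionVars false
set_option linter.unusedVariables false

/-! Free modules on cells, relation modules, and FP_2. -/

namespace Pool.Agent.H653R3

open CategoryTheory
open Finsupp (single)

/-- cells -/
@[ext] structure Cell (G κ : Type) : Type where
  g : G
  i : κ

instance cellAct {G κ : Type} [Group G] : MulAction G (Cell G κ) where
  smul g c := ⟨g * c.1, c.2⟩
  one_smul c := Cell.ext (one_mul _) rfl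
  mul_smul g h c := Cell.ext (mul_assoc _ _ _) rfl

/-- chains -/
abbrev CC (k G κ : Type) [CommRing k] : Type := Cell G κ →₀ k

variable {k G κ : Type} [CommRing k] [Group G]

/-- basis element -/
noncomputable def bs (g : G) (i : κ) : CC k G κ := single (⟨g, i⟩ : Cell G κ) 1

lemma pm_bs (g h : G) (i : κ) : pm k G (Cell G κ) g (bs h i) = bs (g * h) i := by
  unfold bs; rw [pm_single]; rfl

lemma CC_ext {U : Type} [AddCommGroup U] [Module k U] {f f' : CC k G κ →ₗ[k] U}
    (h : ∀ g i, f (bs g i) = f' (bs g i)) : f = f' := by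
  apply Finsupp.lhom_ext'
  rintro ⟨g, i⟩
  apply LinearMap.ext_ring
  exact h g i

/-- the equivariant map with prescribed values on the basis -/
noncomputable def tm {U : Type} [AddCommGroup U] [Module k U] (ρ : Representation k G U)
    (E : κ → U) : CC k G κ →ₗ[k] U :=
  Finsupp.linearCombination k (fun c : Cell G κ => ρ c.1 (E c.2))

section tm
variable {U : Type} [AddCommGroup U] [Module k U] (ρ : Representation k G U) (E : κ → U)

lemma tm_bs (g : G) (i : κ) : tm ρ E (bs g i) = ρ g (E i) := by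
  unfold tm bs; rw [Finsupp.linearCombination_single, one_smul]

lemma tm_pm (g : G) (z : CC k G κ) : tm ρ E (pm k G (Cell G κ) g z) = ρ g (tm ρ E z) := by
  have h : tm ρ E ∘ₗ pm k G (Cell G κ) g = ρ g ∘ₗ tm ρ E := by
    apply CC_ext
    intro h i
    simp only [LinearMap.comp_apply]
    rw [pm_bs, tm_bs, tm_bs, map_mul]; rfl
  exact LinearMap.congr_fun h z
end tm

variable (k G) in
/-- free representations -/
noncomputable abbrev FR (κ : Type) : Rep.{0} k G := Rep.of (pm k G (Cell G κ))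

lemma FR_proj (κ : Type) : Projective (FR k G κ) := by
  refine pm_projective (k := k) (G := G) (Y := Cell G κ)
    (fun c => (⟨1, c.2⟩ : Cell G κ)) (fun c => c.1) ?_ ?_ ?_
  · rintro ⟨g, i⟩
    exact Cell.ext (mul_one _) rfl
  · rintro g ⟨h, i⟩; rfl
  · rintro g ⟨h, i⟩; rfl

lemma FR_fg (κ : Type) [Finite κ] : FGR (FR ℤ G κ) := by
  refine pm_fg (G := G) (Y := Cell G κ) (Set.range (fun i : κ => (⟨1, i⟩ : Cell G κ)))
    (Set.finite_range _) ?_
  rintro ⟨g, i⟩
  exact ⟨g, _, ⟨i, rfl⟩, Cell.ext (mul_one _) rfl⟩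

/-- morphisms of free representations -/
noncomputable def dm {S T : Type} (v : S → CC k G T) : FR k G S ⟶ FR k G T :=
  Rep.ofHom (ρ := pm k G (Cell G S)) (σ := pm k G (Cell G T))
    ⟨tm (pm k G (Cell G T)) v, fun g => by
      apply LinearMap.ext
      intro x
      exact tm_pm _ _ g x⟩

/-- the differential attached to a tuple of group elements -/
noncomputable def Phi (x : κ → G) : CC k G κ →ₗ[k] CC k G Unit :=
  tm (pm k G (Cell G Unit)) (fun i => bs (x i) () - bs 1 ())

lemma Phi_bs (x : κ → G) (g : G) (i : κ) :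
    Phi (k := k) x (bs g i) = bs (g * x i) () - bs g () := by
  unfold Phi; rw [tm_bs, map_sub, pm_bs, pm_bs, mul_one]

lemma Phi_pm (x : κ → G) (g : G) (z : CC k G κ) :
    Phi x (pm k G (Cell G κ) g z) = pm k G (Cell G Unit) g (Phi x z) := tm_pm _ _ g z

/-- augmentation -/
noncomputable def au : CC k G Unit →ₗ[k] k := Finsupp.linearCombination k (fun _ => (1 : k))

lemma au_bs (g : G) : au (k := k) (bs g ()) = 1 := by
  unfold au bs; rw [Finsupp.linearCombination_single]; simp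

lemma au_pm (g : G) (z : CC k G Unit) : au (pm k G (Cell G Unit) g z) = au z := by
  have h : au ∘ₗ pm k G (Cell G Unit) g = au := by
    apply CC_ext
    rintro h ⟨⟩
    simp only [LinearMap.comp_apply]
    rw [pm_bs, au_bs, au_bs]
  exact LinearMap.congr_fun h z

noncomputable def aur : FR k G Unit ⟶ Rep.trivial k G k :=
  Rep.ofHom (ρ := pm k G (Cell G Unit)) (σ := Representation.trivial k G k)
    ⟨au, fun g => by
      apply LinearMap.ext
      intro x
      exact au_pm g x⟩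

lemma au_Phi (x : κ → G) (z : CC k G κ) : au (Phi x z) = 0 := by
  have h : au ∘ₗ Phi (k := k) x = 0 := by
    apply CC_ext
    intro g i
    simp only [LinearMap.comp_apply, LinearMap.zero_apply]
    rw [Phi_bs, map_sub, au_bs, au_bs, sub_self]
  exact LinearMap.congr_fun h z

lemma Phi_surj_aux (x : κ → G) (hx : Subgroup.closure (Set.range x) = ⊤) (g : G) :
    ∃ z, Phi (k := k) x z = bs g () - bs 1 () := by
  have hg : g ∈ Subgroup.closure (Set.range x) := by rw [hx]; trivial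
  induction hg using Subgroup.closure_induction with
  | mem _ h =>
    obtain ⟨i, rfl⟩ := h
    exact ⟨bs 1 i, by rw [Phi_bs, one_mul]⟩
  | one => exact ⟨0, by simp⟩
  | mul a b _ _ ha hb =>
    obtain ⟨z, hz⟩ := ha
    obtain ⟨w, hw⟩ := hb
    refine ⟨z + pm k G (Cell G κ) a w, ?_⟩
    rw [map_add, hz, Phi_pm, hw, map_sub, pm_bs, pm_bs, mul_one]; abel
  | inv a _ ha =>
    obtain ⟨z, hz⟩ := ha
    refine ⟨-pm k G (Cell G κ) a⁻¹ z, ?_⟩
    rw [map_neg, Phi_pm, hz, map_sub, pm_bs, pm_bs, mul_one, inv_mul_cancel]; abel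

lemma Phi_surj (x : κ → G) (hx : Subgroup.closure (Set.range x) = ⊤) (z : CC k G Unit)
    (hz : au z = 0) : ∃ w, Phi x w = z := by
  have h : ∀ z : CC k G Unit, ∃ w, Phi x w = z - au z • bs 1 () := by
    intro z
    induction z using Finsupp.induction_linear with
    | zero => exact ⟨0, by simp⟩
    | add a b ha hb =>
      obtain ⟨w, hw⟩ := ha
      obtain ⟨w', hw'⟩ := hb
      exact ⟨w + w', by rw [map_add, hw, hw', map_add, add_smul]; abel⟩
    | single y a =>
      obtain ⟨g, ⟨⟩⟩ := y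
      obtain ⟨w, hw⟩ := Phi_surj_aux (k := k) x hx g
      refine ⟨a • w, ?_⟩
      have e : (single (⟨g, ()⟩ : Cell G Unit) a : CC k G Unit) = a • bs g () := by
        unfold bs; rw [Finsupp.smul_single, smul_eq_mul, mul_one]
      rw [map_smul, hw, e, map_smul, au_bs, smul_sub, smul_eq_mul, mul_one]
  obtain ⟨w, hw⟩ := h z
  exact ⟨w, by rw [hw, hz]; simp⟩

/-- span of translates -/
noncomputable def gsp (R : Set (CC k G κ)) : Submodule k (CC k G κ) :=
  Submodule.span k {w | ∃ g : G, ∃ r ∈ R, w = pm k G (Cell G κ) g r}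

lemma gsp_pm {R : Set (CC k G κ)} {z : CC k G κ} (hz : z ∈ gsp R) (g : G) :
    pm k G (Cell G κ) g z ∈ gsp R := by
  have : gsp R ≤ (gsp R).comap (pm k G (Cell G κ) g) := by
    unfold gsp
    rw [Submodule.span_le]
    rintro _ ⟨h, r, hr, rfl⟩
    rw [SetLike.mem_coe, Submodule.mem_comap]
    apply Submodule.subset_span
    exact ⟨g * h, r, hr, by rw [map_mul]; rfl⟩
  exact this hz

lemma mem_gsp {R : Set (CC k G κ)} {r : CC k G κ} (hr : r ∈ R) : r ∈ gsp R :=
  Submodule.subset_span ⟨1, r, hr, by rw [map_one]; rfl⟩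

lemma mem_gsp' {R : Set (CC k G κ)} {r : CC k G κ} (hr : r ∈ R) (g : G) :
    pm k G (Cell G κ) g r ∈ gsp R := gsp_pm (mem_gsp hr) g

/-- state -/
structure St (k G : Type) [CommRing k] where
  A : Type
  B : Type
  v : A → CC k G B

/-- next state -/
def St.next (s : St k G) : St k G := ⟨{z : CC k G s.A // tm (pm k G (Cell G s.B)) s.v z = 0}, s.A,
  Subtype.val⟩

/-- sequence of states -/
def stq (s0 s1 : St k G) : ℕ → St k G
  | 0 => s0
  | 1 => s1
  | (n + 2) => (stq s0 s1 (n + 1)).next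

lemma tm_comp {S T W : Type} (v : S → CC k G T) (w : T → CC k G W)
    (h : ∀ s, tm (pm k G (Cell G W)) w (v s) = 0) (z : CC k G S) :
    tm (pm k G (Cell G W)) w (tm (pm k G (Cell G T)) v z) = 0 := by
  have : tm (pm k G (Cell G W)) w ∘ₗ tm (pm k G (Cell G T)) v = 0 := by
    apply CC_ext
    intro g i
    simp only [LinearMap.comp_apply, LinearMap.zero_apply]
    rw [tm_bs, tm_pm, h, map_zero]
  exact LinearMap.congr_fun this z

/-- the modules -/
noncomputable abbrev stX {κ' R : Type} (v0 : κ → CC k G κ') (v1 : R → CC k G κ) (n : ℕ) :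
    Rep.{0} k G := FR k G (stq ⟨κ, κ', v0⟩ ⟨R, κ, v1⟩ n).B

/-- the differentials -/
noncomputable def stdd {κ' R : Type} (v0 : κ → CC k G κ') (v1 : R → CC k G κ) :
    ∀ n, stX v0 v1 (n + 1) ⟶ stX v0 v1 n
  | 0 => dm v0
  | 1 => dm v1
  | (n + 2) => dm (stq ⟨κ, κ', v0⟩ ⟨R, κ, v1⟩ (n + 2)).v

lemma ex_next {S T : Type} (v : S → CC k G T) (z : CC k G S) (hz : tm (pm k G (Cell G T)) v z = 0) :
    ∃ w : CC k G {z : CC k G S // tm (pm k G (Cell G T)) v z = 0},
      tm (pm k G (Cell G S)) Subtype.val w = z :=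
  ⟨bs 1 ⟨z, hz⟩, by rw [tm_bs, map_one]; rfl⟩

lemma dm_comp {S T W : Type} (v : S → CC k G T) (w : T → CC k G W)
    (h : ∀ s, tm (pm k G (Cell G W)) w (v s) = 0) : dm v ≫ dm w = 0 := by
  apply Rep.hom_ext
  apply Representation.IntertwiningMap.ext
  apply LinearMap.ext
  intro z
  exact tm_comp v w h z

lemma stdd_comp {κ' R : Type} (v0 : κ → CC k G κ') (v1 : R → CC k G κ)
    (h : ∀ s, tm (pm k G (Cell G κ')) v0 (v1 s) = 0) :
    ∀ n, stdd v0 v1 (n + 1) ≫ stdd v0 v1 n = 0
  | 0 => dm_comp v1 v0 h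
  | 1 => dm_comp Subtype.val v1 (fun s => s.2)
  | (n + 2) => dm_comp Subtype.val (stq ⟨κ, κ', v0⟩ ⟨R, κ, v1⟩ (n + 2)).v (fun s => s.2)

lemma stdd_exact {κ' R : Type} (v0 : κ → CC k G κ') (v1 : R → CC k G κ)
    (h : ∀ z, tm (pm k G (Cell G κ')) v0 z = 0 → ∃ w, tm (pm k G (Cell G κ)) v1 w = z) :
    ∀ n (z : (stX v0 v1 (n + 1)).V), (stdd v0 v1 n).hom z = 0 →
      ∃ w, (stdd v0 v1 (n + 1)).hom w = z
  | 0, z, hz => h z hz
  | 1, z, hz => ex_next v1 z hz
  | (n + 2), z, hz => ex_next (stq ⟨κ, κ', v0⟩ ⟨R, κ, v1⟩ (n + 2)).v z hz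

lemma st_res (x : κ → G) (hx : Subgroup.closure (Set.range x) = ⊤) {R : Type}
    (v1 : R → CC k G κ) (h0 : ∀ r, Phi x (v1 r) = 0)
    (h1 : ∀ z, Phi x z = 0 → ∃ w, tm (pm k G (Cell G κ)) v1 w = z) :
    ∃ P : ProjectiveResolution (Rep.trivial k G k), P.complex =
      ChainComplex.of (stX (fun i => bs (x i) () - bs 1 ()) v1)
        (stdd (fun i => bs (x i) () - bs 1 ()) v1) (stdd_comp _ _ h0) := by
  apply rep_res (k := k) (G := G)
    (stX (fun i => bs (x i) () - bs 1 ()) v1)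
    (stdd (fun i => bs (x i) () - bs 1 ()) v1)
    (stdd_comp _ _ h0)
    (Rep.trivial k G k) aur (fun _ => FR_proj _)
  · apply Rep.hom_ext
    apply Representation.IntertwiningMap.ext
    apply LinearMap.ext
    intro z
    exact au_Phi x z
  · intro a
    refine ⟨(a • bs 1 () : CC k G Unit), ?_⟩
    change au (a • bs 1 () : CC k G Unit) = a
    rw [map_smul, au_bs, smul_eq_mul, mul_one]
  · exact fun z hz => Phi_surj x hx z hz
  · exact stdd_exact _ _ h1

theorem FP2_of [Finite κ] (x : κ → G) (hx : Subgroup.closure (Set.range x) = ⊤)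
    (R : Set (CC ℤ G κ)) (hR : R.Finite) (h0 : ∀ r ∈ R, Phi x r = 0)
    (h1 : ∀ z, Phi x z = 0 → z ∈ gsp R) : FP G 2 := by
  have hRf : Finite ↥R := hR
  have hex : ∀ z : CC ℤ G κ, Phi x z = 0 →
      ∃ w : CC ℤ G R, tm (pm ℤ G (Cell G κ)) (Subtype.val : R → CC ℤ G κ) w = z := by
    intro z hz
    have h2 := h1 z hz
    have h3 : gsp R ≤ LinearMap.range (tm (pm ℤ G (Cell G κ)) (Subtype.val : R → CC ℤ G κ)) := by
      unfold gsp
      rw [Submodule.span_le]
      rintro _ ⟨g, r, hr, rfl⟩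
      exact ⟨bs g ⟨r, hr⟩, by rw [tm_bs]⟩
    exact h3 h2
  obtain ⟨P, hP⟩ := st_res x hx (Subtype.val : R → CC ℤ G κ) (fun s => h0 s.1 s.2) hex
  refine ⟨P, fun k hk => ?_⟩
  rw [hP]
  match k with
  | 0 => exact FR_fg Unit
  | 1 => exact FR_fg κ
  | 2 => exact FR_fg R
  | (k + 3) => omega

end Pool.Agent.H653R3
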