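import Pool.Agent.H653R3.Red

set_option autoImplicit false
set_option linter.unusedSectionVars false
set_option linter.unusedVariables false

/-! Certificates for contractions. -/

namespace Pool.Agent.H653R3

open Finsupp (single supported)

variable {V : Type} [Fintype V] [LinearOrder V]

lemma sgn_eq (v : V) (σ : Finset V) (n : ℕ) (h : (σ.filter (· < v)).card = n) :
    sgn v σ = (-1) ^ n := by unfold sgn; rw [h]

lemma dl_nil : dl (single (∅ : Finset V) 1) = 0 := by
  rw [dl_single]; simp

lemma dl_one (a : V) : dl (single ({a} : Finset V) 1) = single ∅ 1 := by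
  rw [dl_single, Finset.sum_singleton]
  have h1 : ({a} : Finset V).erase a = ∅ := by simp
  have h2 : ({a} : Finset V).filter (· < a) = ∅ := by
    ext x; simp only [Finset.mem_filter, Finset.mem_singleton]; constructor
    · rintro ⟨rfl, h⟩; exact absurd h (lt_irrefl _)
    · intro h; simp at h
  rw [h1, sgn_eq a {a} 0 (by rw [h2]; rfl), pow_zero, one_smul]

lemma dl_two {a b : V} (hab : a < b) : dl (single ({a, b} : Finset V) 1) =
    single {b} 1 - single {a} 1 := by
  have hne : a ≠ b := hab.ne
  rw [dl_single, Finset.sum_pair hne]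
  have h1 : ({a, b} : Finset V).erase a = {b} := by
    ext x; simp only [Finset.mem_erase, Finset.mem_insert, Finset.mem_singleton]
    constructor
    · rintro ⟨h, h'⟩; tauto
    · rintro rfl; exact ⟨hne.symm, Or.inr rfl⟩
  have h2 : ({a, b} : Finset V).erase b = {a} := by
    ext x; simp only [Finset.mem_erase, Finset.mem_insert, Finset.mem_singleton]
    constructor
    · rintro ⟨h, h'⟩; tauto
    · rintro rfl; exact ⟨hne, Or.inl rfl⟩
  have h3 : ({a, b} : Finset V).filter (· < a) = ∅ := by
    ext x; simp only [Finset.mem_filter, Finset.mem_insert, Finset.mem_singleton]; constructor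
    · rintro ⟨rfl | rfl, h⟩
      · exact absurd h (lt_irrefl _)
      · exact absurd h hab.not_gt
    · intro h; simp at h
  have h4 : ({a, b} : Finset V).filter (· < b) = {a} := by
    ext x; simp only [Finset.mem_filter, Finset.mem_insert, Finset.mem_singleton]; constructor
    · rintro ⟨rfl | rfl, h⟩
      · rfl
      · exact absurd h (lt_irrefl _)
    · rintro rfl; exact ⟨Or.inl rfl, hab⟩
  rw [h1, h2, sgn_eq a _ 0 (by rw [h3]; rfl), sgn_eq b _ 1 (by rw [h4]; rfl), pow_zero, one_smul,
    pow_one, neg_smul, one_smul, sub_eq_add_neg]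

lemma dl_three {a b c : V} (hab : a < b) (hbc : b < c) :
    dl (single ({a, b, c} : Finset V) 1) =
      single {b, c} 1 - single {a, c} 1 + single {a, b} 1 := by
  have hac : a < c := hab.trans hbc
  have nab : a ≠ b := hab.ne
  have nbc : b ≠ c := hbc.ne
  have nac : a ≠ c := hac.ne
  rw [dl_single, Finset.sum_insert (by simp [nab, nac]), Finset.sum_pair nbc]
  have h1 : ({a, b, c} : Finset V).erase a = {b, c} := by
    ext x; simp only [Finset.mem_erase, Finset.mem_insert, Finset.mem_singleton]
    constructor
    · rintro ⟨h, h'⟩; tauto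
    · rintro (rfl | rfl)
      · exact ⟨nab.symm, by tauto⟩
      · exact ⟨nac.symm, by tauto⟩
  have h2 : ({a, b, c} : Finset V).erase b = {a, c} := by
    ext x; simp only [Finset.mem_erase, Finset.mem_insert, Finset.mem_singleton]
    constructor
    · rintro ⟨h, h'⟩; tauto
    · rintro (rfl | rfl)
      · exact ⟨nab, by tauto⟩
      · exact ⟨nbc.symm, by tauto⟩
  have h3 : ({a, b, c} : Finset V).erase c = {a, b} := by
    ext x; simp only [Finset.mem_erase, Finset.mem_insert, Finset.mem_singleton]
    constructor
    · rintro ⟨h, h'⟩; tauto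
    · rintro (rfl | rfl)
      · exact ⟨nac, by tauto⟩
      · exact ⟨nbc, by tauto⟩
  have h4 : ({a, b, c} : Finset V).filter (· < a) = ∅ := by
    ext x; simp only [Finset.mem_filter, Finset.mem_insert, Finset.mem_singleton]; constructor
    · rintro ⟨rfl | rfl | rfl, h⟩
      · exact absurd h (lt_irrefl _)
      · exact absurd h hab.not_gt
      · exact absurd h hac.not_gt
    · intro h; simp at h
  have h5 : ({a, b, c} : Finset V).filter (· < b) = {a} := by
    ext x; simp only [Finset.mem_filter, Finset.mem_insert, Finset.mem_singleton]; constructor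
    · rintro ⟨rfl | rfl | rfl, h⟩
      · rfl
      · exact absurd h (lt_irrefl _)
      · exact absurd h hbc.not_gt
    · rintro rfl; exact ⟨Or.inl rfl, hab⟩
  have h6 : ({a, b, c} : Finset V).filter (· < c) = {a, b} := by
    ext x; simp only [Finset.mem_filter, Finset.mem_insert, Finset.mem_singleton]; constructor
    · rintro ⟨rfl | rfl | rfl, h⟩
      · exact Or.inl rfl
      · exact Or.inr rfl
      · exact absurd h (lt_irrefl _)
    · rintro (rfl | rfl)
      · exact ⟨Or.inl rfl, hac⟩
      · exact ⟨Or.inr (Or.inl rfl), hbc⟩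
  rw [h1, h2, h3, sgn_eq a _ 0 (by rw [h4]; rfl), sgn_eq b _ 1 (by rw [h5]; rfl),
    sgn_eq c _ 2 (by rw [h6]; exact Finset.card_pair nab)]
  simp only [pow_zero, pow_one, one_smul, neg_smul]
  norm_num
  abel

/-- decode a list of weighted simplices -/
noncomputable def dec (L : List (List V × ℤ)) : Finset V →₀ ℤ :=
  (L.map (fun p => p.2 • (single p.1.toFinset 1 : Finset V →₀ ℤ))).sum

lemma dec_nil : dec ([] : List (List V × ℤ)) = 0 := rfl
lemma dec_cons (p : List V × ℤ) (L : List (List V × ℤ)) :
    dec (p :: L) = p.2 • (single p.1.toFinset 1 : Finset V →₀ ℤ) + dec L := by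
  unfold dec; rw [List.map_cons, List.sum_cons]
lemma dec_append (L M : List (List V × ℤ)) : dec (L ++ M) = dec L + dec M := by
  unfold dec; rw [List.map_append, List.sum_append]

/-- strictly sorted of length at most three -/
def okB (lt : V → V → Bool) : List V → Bool
  | [] => true
  | [_] => true
  | [a, b] => lt a b
  | [a, b, c] => lt a b && lt b c
  | _ => false

/-- boundary of a simplex -/
def dlc1 : List V → List (List V × ℤ)
  | [] => []
  | [_] => [([], 1)]
  | [a, b] => [([b], 1), ([a], -1)]
  | [a, b, c] => [([b, c], 1), ([a, c], -1), ([a, b], 1)]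
  | _ => []

variable (lt : V → V → Bool) (hlt : ∀ a b, lt a b = true ↔ a < b)

include hlt in
lemma dl_dlc1 {l : List V} (h : okB lt l = true) : dl (single l.toFinset 1) = dec (dlc1 l) := by
  match l, h with
  | [], _ => simp only [List.toFinset_nil, dlc1, dec_nil]; exact dl_nil
  | [a], _ =>
    have : ([a] : List V).toFinset = {a} := by simp
    rw [this, dl_one]
    simp [dlc1, dec_cons, dec_nil]
  | [a, b], h =>
    have h1 : a < b := (hlt a b).1 h
    have : ([a, b] : List V).toFinset = {a, b} := by simp
    rw [this, dl_two h1]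
    simp [dlc1, dec_cons, dec_nil, sub_eq_add_neg]
  | [a, b, c], h =>
    have h0 : lt a b = true ∧ lt b c = true := by simpa [okB] using h
    have h1 : a < b := (hlt a b).1 h0.1
    have h2 : b < c := (hlt b c).1 h0.2
    have : ([a, b, c] : List V).toFinset = {a, b, c} := by simp
    rw [this, dl_three h1 h2]
    simp [dlc1, dec_cons, dec_nil, sub_eq_add_neg, add_assoc]
  | (a :: b :: c :: d :: t), h => simp [okB] at h

include hlt in
lemma okB_sorted {l : List V} (h : okB lt l = true) : l.Pairwise (· < ·) := by
  match l, h with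
  | [], _ => simp
  | [a], _ => simp
  | [a, b], h =>
    have h1 : a < b := (hlt a b).1 h
    simp [h1]
  | [a, b, c], h =>
    have h0 : lt a b = true ∧ lt b c = true := by simpa [okB] using h
    have h1 : a < b := (hlt a b).1 h0.1
    have h2 : b < c := (hlt b c).1 h0.2
    simp [h1, h2, h1.trans h2]
  | (a :: b :: c :: d :: t), h => simp [okB] at h

include hlt in
lemma okB_sort {l : List V} (h : okB lt l = true) : l.toFinset.sort (· ≤ ·) = l := by
  have h1 := okB_sorted lt hlt h
  rw [List.toFinset_sort]
  · exact h1.imp (fun h => h.le)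
  · exact h1.imp (fun h => h.ne)

/-- map on chains given by a table -/
noncomputable def Sm (tab : List V → List (List V × ℤ)) : (Finset V →₀ ℤ) →ₗ[ℤ] (Finset V →₀ ℤ) :=
  Finsupp.linearCombination ℤ (fun σ => dec (tab (σ.sort (· ≤ ·))))

variable (tab : List V → List (List V × ℤ))

include hlt in
lemma Sm_single {l : List V} (h : okB lt l = true) : Sm tab (single l.toFinset 1) = dec (tab l) := by
  unfold Sm
  rw [Finsupp.linearCombination_single, one_smul, okB_sort lt hlt h]

/-- extend a map on simplices to weighted lists -/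
def ext1 (f : List V → List (List V × ℤ)) (L : List (List V × ℤ)) : List (List V × ℤ) :=
  L.flatMap (fun p => (f p.1).map (fun q => (q.1, p.2 * q.2)))

lemma dec_map (a : ℤ) (L : List (List V × ℤ)) :
    dec (L.map (fun q => (q.1, a * q.2))) = a • dec L := by
  induction L with
  | nil => simp [dec_nil]
  | cons p L ih =>
    rw [List.map_cons, dec_cons, dec_cons, ih, smul_add, smul_smul]

lemma dec_ext1 (f : List V → List (List V × ℤ)) (F : (Finset V →₀ ℤ) →ₗ[ℤ] (Finset V →₀ ℤ))
    (L : List (List V × ℤ)) (h : ∀ p ∈ L, F (single p.1.toFinset 1) = dec (f p.1)) :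
    F (dec L) = dec (ext1 f L) := by
  induction L with
  | nil => simp [dec_nil, ext1]
  | cons p L ih =>
    have h1 : ext1 f (p :: L) = (f p.1).map (fun q => (q.1, p.2 * q.2)) ++ ext1 f L := by
      simp [ext1]
    rw [h1, dec_append, dec_map, dec_cons, map_add, map_smul, h p (by simp),
      ih (fun q hq => h q (by simp [hq]))]

variable (eqb : List V → List V → Bool) (heq : ∀ l m, eqb l m = true → l = m)

/-- add a term -/
def add1 (k : List V) (a : ℤ) : List (List V × ℤ) → List (List V × ℤ)
  | [] => [(k, a)]
  | (p :: L) => bif eqb k p.1 then (p.1, a + p.2) :: L else p :: add1 k a L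

include heq in
lemma dec_add1 (k : List V) (a : ℤ) (L : List (List V × ℤ)) :
    dec (add1 eqb k a L) = a • (single k.toFinset 1 : Finset V →₀ ℤ) + dec L := by
  induction L with
  | nil => simp [add1, dec_cons, dec_nil]
  | cons p L ih =>
    unfold add1
    cases hk : eqb k p.1 with
    | true =>
      rw [cond_true, dec_cons, dec_cons, heq _ _ hk, add_smul, add_assoc]
    | false =>
      rw [cond_false, dec_cons, dec_cons, ih]
      abel

/-- collect terms -/
def nrm : List (List V × ℤ) → List (List V × ℤ)
  | [] => []
  | (p :: L) => add1 eqb p.1 p.2 (nrm L)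

include heq in
lemma dec_nrm (L : List (List V × ℤ)) : dec (nrm eqb L) = dec L := by
  induction L with
  | nil => rfl
  | cons p L ih => rw [nrm, dec_add1 eqb heq, ih, dec_cons]

/-- all coefficients zero -/
def allZ : List (List V × ℤ) → Bool
  | [] => true
  | (p :: L) => (p.2 == 0) && allZ L

lemma dec_allZ {L : List (List V × ℤ)} (h : allZ L = true) : dec L = 0 := by
  induction L with
  | nil => rfl
  | cons p L ih =>
    have h1 : p.2 = 0 ∧ allZ L = true := by simpa [allZ] using h
    rw [dec_cons, h1.1, ih h1.2, zero_smul, zero_add]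

variable (adj : V → V → Bool)

/-- clique check -/
def clqB (l : List V) : Bool := l.all (fun a => l.all (fun b => (eqb [a] [b]) || adj a b))

/-- check at one simplex -/
def chk (l : List V) : Bool :=
  ((tab l).all (fun p => okB lt p.1 && clqB eqb adj p.1) && (dlc1 l).all (fun p => okB lt p.1)) &&
    allZ (nrm eqb (ext1 dlc1 (tab l) ++ (ext1 tab (dlc1 l) ++ [(l, -1)])))

variable {G : SimpleGraph V} (hadj : ∀ a b, adj a b = true → G.Adj a b)

include heq hadj in
lemma clqB_sound {l : List V} (h : clqB eqb adj l = true) : clq G l.toFinset := by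
  intro u hu v hv huv
  rw [List.mem_toFinset] at hu hv
  unfold clqB at h
  rw [List.all_eq_true] at h
  have h1 := h u hu
  rw [List.all_eq_true] at h1
  have h2 := h1 v hv
  rw [Bool.or_eq_true] at h2
  rcases h2 with h2 | h2
  · have := heq _ _ h2
    exact absurd (by simpa using this) huv
  · exact hadj _ _ h2

include hlt heq hadj in
lemma chk_cl {l : List V} (h : chk lt tab eqb adj l = true) (hl : okB lt l = true) :
    Sm tab (single l.toFinset 1) ∈ supported ℤ ℤ {σ' | clq G σ'} := by
  rw [Sm_single lt hlt tab hl]
  unfold chk at h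
  rw [Bool.and_eq_true, Bool.and_eq_true, List.all_eq_true] at h
  have h1 := h.1.1
  generalize tab l = L at h1
  induction L with
  | nil => rw [dec_nil]; exact Submodule.zero_mem _
  | cons p L ih =>
    rw [dec_cons]
    apply Submodule.add_mem
    · apply Submodule.smul_mem
      apply single_mem
      have h2 := h1 p (by simp)
      rw [Bool.and_eq_true] at h2
      exact clqB_sound eqb heq adj hadj h2.2
    · exact ih (fun q hq => h1 q (by simp [hq]))

include hlt heq in
lemma chk_eq {l : List V} (h : chk lt tab eqb adj l = true) (hl : okB lt l = true) :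
    dl (Sm tab (single l.toFinset 1)) + Sm tab (dl (single l.toFinset 1)) =
      single l.toFinset 1 := by
  unfold chk at h
  rw [Bool.and_eq_true, Bool.and_eq_true, List.all_eq_true, List.all_eq_true] at h
  obtain ⟨⟨h1, h2⟩, h3⟩ := h
  have e1 : dl (dec (tab l)) = dec (ext1 dlc1 (tab l)) := by
    apply dec_ext1
    intro p hp
    have := h1 p hp
    rw [Bool.and_eq_true] at this
    exact dl_dlc1 lt hlt this.1
  have e2 : Sm tab (dec (dlc1 l)) = dec (ext1 tab (dlc1 l)) := by
    apply dec_ext1
    intro p hp
    exact Sm_single lt hlt tab (h2 p hp)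
  have e3 := dec_allZ h3
  rw [dec_nrm eqb heq, dec_append, dec_append, dec_cons, dec_nil] at e3
  simp only [neg_smul, one_smul, add_zero] at e3
  rw [Sm_single lt hlt tab hl, dl_dlc1 lt hlt hl, e1, e2, ← sub_eq_zero]
  rw [← e3]; abel

end Pool.Agent.H653R3
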