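import Mathlib

set_option autoImplicit false

/-! An abstract lemma: pushing chains down a filtration whose level complexes are contractible. -/

namespace Pool.Agent.H653R3

open Finsupp

lemma lin_supp {C N : Type} [AddCommGroup N] (f : (C →₀ ℤ) →ₗ[ℤ] N) (S : Set C)
    (T : Submodule ℤ N) (h : ∀ c ∈ S, f (single c 1) ∈ T) :
    ∀ x ∈ Finsupp.supported ℤ ℤ S, f x ∈ T := by
  intro x hx
  rw [Finsupp.supported_eq_span_single] at hx
  have : Submodule.span ℤ ((fun i => (single i 1 : C →₀ ℤ)) '' S) ≤ T.comap f := by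
    rw [Submodule.span_le]
    rintro _ ⟨c, hc, rfl⟩
    exact h c hc
  exact this hx

lemma lin_eq {C N : Type} [AddCommGroup N] (f g : (C →₀ ℤ) →ₗ[ℤ] N) (S : Set C)
    (h : ∀ c ∈ S, f (single c 1) = g (single c 1)) :
    ∀ x ∈ Finsupp.supported ℤ ℤ S, f x = g x := by
  intro x hx
  have := lin_supp (f - g) S ⊥ (by
    intro c hc
    rw [Submodule.mem_bot, LinearMap.sub_apply, h c hc, sub_self]) x hx
  rw [Submodule.mem_bot, LinearMap.sub_apply] at this
  exact sub_eq_zero.1 this

theorem push_down {C : Type} (bd D h : (C →₀ ℤ) →ₗ[ℤ] (C →₀ ℤ)) (lv : C → ℤ) (K : Set C) (n0 : ℤ)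
    (hsq : ∀ c ∈ K, bd (bd (single c 1)) = 0)
    (hbK : ∀ c ∈ K, bd (single c 1) ∈ supported ℤ ℤ K)
    (hD : ∀ c ∈ K, bd (single c 1) - D (single c 1) ∈ supported ℤ ℤ {c' | lv c' < lv c})
    (hD' : ∀ c ∈ K, D (single c 1) ∈ supported ℤ ℤ {c' | lv c' = lv c})
    (hh : ∀ c ∈ K, n0 < lv c → h (single c 1) ∈ supported ℤ ℤ (K ∩ {c' | lv c' = lv c}))
    (hk : ∀ c ∈ K, n0 < lv c → D (h (single c 1)) + h (D (single c 1)) = single c 1)
    (w : C →₀ ℤ) (hw : w ∈ supported ℤ ℤ K) (hbw : bd w ∈ supported ℤ ℤ {c | lv c ≤ n0}) :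
    ∃ u ∈ supported ℤ ℤ K, w - bd u ∈ supported ℤ ℤ (K ∩ {c | lv c ≤ n0}) := by
  classical
  have key : ∀ (N : ℕ) (w : C →₀ ℤ), w ∈ supported ℤ ℤ K →
      bd w ∈ supported ℤ ℤ {c | lv c ≤ n0} → w ∈ supported ℤ ℤ {c | lv c ≤ n0 + N} →
      ∃ u ∈ supported ℤ ℤ K, w - bd u ∈ supported ℤ ℤ (K ∩ {c | lv c ≤ n0}) := by
    intro N
    induction N with
    | zero =>
      intro w hw _ hN
      refine ⟨0, Submodule.zero_mem _, ?_⟩
      rw [map_zero, sub_zero, Finsupp.supported_inter]
      refine ⟨hw, ?_⟩
      simpa using hN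
    | succ N ih =>
      intro w hw hbw hN
      set n : ℤ := n0 + ((N + 1 : ℕ) : ℤ) with hn
      have hn0 : n0 < n := by rw [hn]; push_cast; omega
      set wn : C →₀ ℤ := w.filter (fun c => lv c = n) with hwn
      set w' : C →₀ ℤ := w.filter (fun c => ¬ lv c = n) with hw'
      have hsum : wn + w' = w := Finsupp.filter_add_filter_not w _
      have hwnS : wn ∈ supported ℤ ℤ (K ∩ {c | lv c = n}) := by
        rw [Finsupp.mem_supported]
        intro c hc
        rw [hwn, Finset.mem_coe, Finsupp.support_filter, Finset.mem_filter] at hc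
        exact ⟨(Finsupp.mem_supported _ _).1 hw hc.1, hc.2⟩
      have hw'S : w' ∈ supported ℤ ℤ (K ∩ {c | lv c < n}) := by
        rw [Finsupp.mem_supported]
        intro c hc
        rw [hw', Finset.mem_coe, Finsupp.support_filter, Finset.mem_filter] at hc
        refine ⟨(Finsupp.mem_supported _ _).1 hw hc.1, ?_⟩
        have h1 : lv c ≤ n := (Finsupp.mem_supported _ _).1 hN hc.1
        exact lt_of_le_of_ne h1 hc.2
      have hb' : bd w' ∈ supported ℤ ℤ {c | lv c < n} := by
        apply lin_supp bd (K ∩ {c | lv c < n}) _ _ _ hw'S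
        rintro c ⟨hcK, hcn⟩
        have e : bd (single c 1) = (bd (single c 1) - D (single c 1)) + D (single c 1) := by abel
        rw [e]
        refine Submodule.add_mem _ ?_ ?_
        · refine Finsupp.supported_mono ?_ (hD c hcK)
          intro c' hc'
          have h1 : lv c' < lv c := hc'
          have h2 : lv c < n := hcn
          change lv c' < n
          omega
        · refine Finsupp.supported_mono ?_ (hD' c hcK)
          intro c' hc'
          have h1 : lv c' = lv c := hc'
          change lv c' < n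
          rw [h1]; exact hcn
      have hbDn : ∀ x ∈ supported ℤ ℤ (K ∩ {c | lv c = n}),
          bd x - D x ∈ supported ℤ ℤ {c | lv c < n} := by
        intro x hx
        have := lin_supp (bd - D) (K ∩ {c | lv c = n}) (supported ℤ ℤ {c | lv c < n}) (by
          rintro c ⟨hcK, hcn⟩
          rw [LinearMap.sub_apply]
          refine Finsupp.supported_mono ?_ (hD c hcK)
          intro c' hc'
          have h1 : lv c = n := hcn
          change lv c' < n
          rw [← h1]; exact hc') x hx
        simpa using this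
      have hDn : D wn = 0 := by
        have h1 : D wn ∈ supported ℤ ℤ {c | lv c = n} := by
          apply lin_supp D (K ∩ {c | lv c = n}) _ _ _ hwnS
          rintro c ⟨hcK, hcn⟩
          have h2 : lv c = n := hcn
          rw [← h2]; exact hD' c hcK
        have h2 : D wn ∈ supported ℤ ℤ {c | lv c < n} := by
          have e : D wn = bd w - bd w' - (bd wn - D wn) := by
            rw [← hsum, map_add]; abel
          rw [e]
          refine Submodule.sub_mem _ (Submodule.sub_mem _ ?_ hb') (hbDn _ hwnS)
          refine Finsupp.supported_mono ?_ hbw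
          intro c hc
          exact lt_of_le_of_lt hc hn0
        have h3 : D wn ∈ supported ℤ ℤ ({c | lv c = n} ∩ {c | lv c < n}) := by
          rw [Finsupp.supported_inter]; exact ⟨h1, h2⟩
        have h4 : ({c | lv c = n} ∩ {c | lv c < n} : Set C) = ∅ := by
          ext c
          constructor
          · rintro ⟨a, b⟩
            have a' : lv c = n := a
            have b' : lv c < n := b
            omega
          · intro hc; exact hc.elim
        rw [h4, Finsupp.supported_empty] at h3
        exact (Submodule.mem_bot ℤ).1 h3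
      have hDh : D (h wn) = wn := by
        have := lin_eq (D ∘ₗ h + h ∘ₗ D) LinearMap.id (K ∩ {c | lv c = n}) (by
          rintro c ⟨hcK, hcn⟩
          have h2 : lv c = n := hcn
          exact hk c hcK (by omega)) wn hwnS
        simp only [LinearMap.add_apply, LinearMap.comp_apply, hDn, map_zero, add_zero,
          LinearMap.id_apply] at this
        exact this
      have hu1 : h wn ∈ supported ℤ ℤ (K ∩ {c | lv c = n}) := by
        apply lin_supp h (K ∩ {c | lv c = n}) _ _ _ hwnS
        rintro c ⟨hcK, hcn⟩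
        have h2 : lv c = n := hcn
        rw [← h2]; exact hh c hcK (by omega)
      have hu1K : h wn ∈ supported ℤ ℤ K := Finsupp.supported_mono Set.inter_subset_left hu1
      have hbbu : bd (bd (h wn)) = 0 := by
        have := lin_eq (bd ∘ₗ bd) 0 K (fun c hc => hsq c hc) (h wn) hu1K
        simpa using this
      have hbu1 : bd (h wn) ∈ supported ℤ ℤ K := lin_supp bd K _ hbK _ hu1K
      have hw1 : w - bd (h wn) ∈ supported ℤ ℤ {c | lv c < n} := by
        have e : w - bd (h wn) = w' - (bd (h wn) - D (h wn)) := by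
          rw [hDh, ← hsum]; abel
        rw [e]
        exact Submodule.sub_mem _ (Finsupp.supported_mono Set.inter_subset_right hw'S)
          (hbDn _ hu1)
      obtain ⟨u2, hu2, hu2'⟩ := ih (w - bd (h wn)) (Submodule.sub_mem _ hw hbu1)
        (by rw [map_sub, hbbu, sub_zero]; exact hbw)
        (Finsupp.supported_mono (fun c hc => by
          have h1 : lv c < n := hc
          change lv c ≤ n0 + N
          push_cast at hn
          omega) hw1)
      refine ⟨h wn + u2, Submodule.add_mem _ hu1K hu2, ?_⟩
      rw [map_add, ← sub_sub]; exact hu2'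
  -- find a bound
  obtain ⟨N, hN⟩ : ∃ N : ℕ, ∀ c ∈ w.support, lv c ≤ n0 + N := by
    obtain ⟨B, hB⟩ : ∃ B : ℤ, ∀ c ∈ w.support, lv c ≤ B := by
      obtain ⟨B, hB⟩ := (w.support.image lv).bddAbove
      exact ⟨B, fun c hc => hB (by exact_mod_cast Finset.mem_image_of_mem lv hc)⟩
    refine ⟨(B - n0).toNat, fun c hc => ?_⟩
    have := hB c hc
    have := Int.self_le_toNat (B - n0)
    omega
  exact key N w hw hbw ((Finsupp.mem_supported _ _).2 (fun c hc => hN c hc))

end Pool.Agent.H653R3
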