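import Pool.Agent.H653R3.Pile2
import Pool.Agent.H653R3.Push

set_option autoImplicit false
set_option linter.unusedSectionVars false
set_option linter.unusedVariables false

/-! The cubical chain complex of a right-angled Artin group and its exactness. -/

namespace Pool.Agent.H653R3

open Finsupp (single supported)

variable {V : Type} [Fintype V] [LinearOrder V] {G : SimpleGraph V} [DecidableRel G.Adj]

/-- sign of `v` in `σ` -/
def sgn (v : V) (σ : Finset V) : ℤ := (-1) ^ (σ.filter (· < v)).card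

lemma sgn_mul_self (v : V) (σ : Finset V) : sgn v σ * sgn v σ = 1 := by
  unfold sgn
  rw [← mul_pow]; norm_num

lemma sgn_erase_aux {σ : Finset V} {u v : V} (hu : u ∈ σ) (hv : v ∈ σ) (huv : v < u) :
    sgn v σ * sgn u (σ.erase v) = -(sgn u σ * sgn v (σ.erase u)) := by
  have h1 : ((σ.erase v).filter (· < u)) = (σ.filter (· < u)).erase v := by
    ext x; simp only [Finset.mem_filter, Finset.mem_erase]; tauto
  have h2 : ((σ.erase u).filter (· < v)) = σ.filter (· < v) := by
    ext x; simp only [Finset.mem_filter, Finset.mem_erase]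
    constructor
    · rintro ⟨⟨_, a⟩, b⟩; exact ⟨a, b⟩
    · rintro ⟨a, b⟩; exact ⟨⟨fun h => by subst h; exact absurd b (not_lt.2 huv.le), a⟩, b⟩
  unfold sgn
  rw [h1, h2]
  have h3 : v ∈ σ.filter (· < u) := by simp [hv, huv]
  have h4 : (σ.filter (· < u)).card = ((σ.filter (· < u)).erase v).card + 1 := by
    rw [Finset.card_erase_of_mem h3]
    have := Finset.card_pos.2 ⟨v, h3⟩
    omega
  rw [h4, pow_succ]
  ring

lemma sgn_erase {σ : Finset V} {u v : V} (hu : u ∈ σ) (hv : v ∈ σ) (huv : v ≠ u) :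
    sgn v σ * sgn u (σ.erase v) = -(sgn u σ * sgn v (σ.erase u)) := by
  rcases lt_or_gt_of_ne huv with h | h
  · exact sgn_erase_aux hu hv h
  · rw [sgn_erase_aux hv hu h, neg_neg]

lemma sgn_insert {σ : Finset V} {t v : V} (ht : t ∉ σ) (hv : v ∈ σ) :
    sgn t (insert t σ) * sgn v (insert t σ) + sgn v σ * sgn t (insert t (σ.erase v)) = 0 := by
  have hne : t ≠ v := by rintro rfl; exact ht hv
  have h1 := sgn_erase (σ := insert t σ) (u := v) (v := t) (Finset.mem_insert_of_mem hv)
    (Finset.mem_insert_self _ _) hne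
  rw [Finset.erase_insert ht, Finset.erase_insert_of_ne hne] at h1
  -- h1 : A * C = -(B * E)
  have hB := sgn_mul_self v (insert t σ)
  have hC := sgn_mul_self v σ
  have h2 : sgn t (insert t σ) * sgn v (insert t σ) =
      (sgn t (insert t σ) * sgn v σ) * (sgn v σ * sgn v (insert t σ)) := by
    calc _ = sgn t (insert t σ) * (sgn v σ * sgn v σ) * sgn v (insert t σ) := by
          rw [hC, mul_one]
      _ = _ := by ring
  rw [h2, h1]
  calc _ = -(sgn v σ * sgn t (insert t (σ.erase v))) * (sgn v (insert t σ) * sgn v (insert t σ)) +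
        sgn v σ * sgn t (insert t (σ.erase v)) := by ring
    _ = 0 := by rw [hB]; ring

variable (G)

/-- cliques -/
def clq (σ : Finset V) : Prop := ∀ u ∈ σ, ∀ v ∈ σ, u ≠ v → G.Adj u v

variable {G}

lemma clq_erase {σ : Finset V} (h : clq G σ) (v : V) : clq G (σ.erase v) :=
  fun a ha b hb hab => h a (Finset.mem_of_mem_erase ha) b (Finset.mem_of_mem_erase hb) hab

lemma clq_insert {σ : Finset V} (h : clq G σ) {t : V} (ht : ∀ v ∈ σ, G.Adj t v) :
    clq G (insert t σ) := by
  intro a ha b hb hab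
  rcases Finset.mem_insert.1 ha with e1 | h1
  · rcases Finset.mem_insert.1 hb with e2 | h2
    · exact absurd (e1.trans e2.symm) hab
    · rw [e1]; exact ht b h2
  · rcases Finset.mem_insert.1 hb with e2 | h2
    · rw [e2]; exact (ht a h1).symm
    · exact h a h1 b h2 hab

lemma sum_erase_antisymm {C : Type} (σ : Finset V) (T : V → V → (C →₀ ℤ))
    (h : ∀ u ∈ σ, ∀ v ∈ σ, u ≠ v → T v u = -T u v) :
    ∑ v ∈ σ, ∑ u ∈ σ.erase v, T v u = 0 := by
  have h1 : ∑ v ∈ σ, ∑ u ∈ σ.erase v, T v u = ∑ u ∈ σ, ∑ v ∈ σ.erase u, T v u := by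
    apply Finset.sum_comm'
    intro x y
    simp only [Finset.mem_erase]
    tauto
  have h2 : ∑ u ∈ σ, ∑ v ∈ σ.erase u, T v u = -∑ v ∈ σ, ∑ u ∈ σ.erase v, T v u := by
    rw [← Finset.sum_neg_distrib]
    apply Finset.sum_congr rfl
    intro u hu
    rw [← Finset.sum_neg_distrib]
    apply Finset.sum_congr rfl
    intro v hv
    rw [Finset.mem_erase] at hv
    exact h u hu v hv.2 (Ne.symm hv.1)
  rw [h2] at h1
  ext c
  have := DFunLike.congr_fun h1 c
  rw [Finsupp.neg_apply] at this
  rw [Finsupp.zero_apply]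
  omega

variable (G)

/-- chains -/
abbrev Ch := (RA G × Finset V) →₀ ℤ

/-- boundary -/
noncomputable def bd : Ch G →ₗ[ℤ] Ch G :=
  Finsupp.linearCombination ℤ (fun c : RA G × Finset V =>
    ∑ v ∈ c.2, sgn v c.2 • ((single (c.1, c.2.erase v) 1 : Ch G) -
      single (c.1 * gen G v, c.2.erase v) 1))

variable {G}

lemma bd_single (g : RA G) (σ : Finset V) :
    bd G (single (g, σ) 1) = ∑ v ∈ σ, sgn v σ • ((single (g, σ.erase v) 1 : Ch G) -
      single (g * gen G v, σ.erase v) 1) := by
  unfold bd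
  rw [Finsupp.linearCombination_single, one_smul]

lemma bd_bd {g : RA G} {σ : Finset V} (h : clq G σ) : bd G (bd G (single (g, σ) 1)) = 0 := by
  rw [bd_single, map_sum]
  have h1 : ∀ v ∈ σ, bd G (sgn v σ • ((single (g, σ.erase v) 1 : Ch G) -
      single (g * gen G v, σ.erase v) 1)) = ∑ u ∈ σ.erase v,
        (sgn v σ * sgn u (σ.erase v)) • (((single (g, (σ.erase v).erase u) 1 : Ch G) -
        single (g * gen G u, (σ.erase v).erase u) 1) -
        (single (g * gen G v, (σ.erase v).erase u) 1 -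
        single (g * gen G v * gen G u, (σ.erase v).erase u) 1)) := by
    intro v hv
    rw [map_smul, map_sub, bd_single, bd_single, ← Finset.sum_sub_distrib, Finset.smul_sum]
    apply Finset.sum_congr rfl
    intro u hu
    rw [← smul_sub, smul_smul]
  rw [Finset.sum_congr rfl h1]
  apply sum_erase_antisymm
  intro u hu v hv huv
  rw [Finset.erase_right_comm, mul_assoc g (gen G v) (gen G u), mul_assoc g (gen G u) (gen G v),
    gen_comm (h u hu v hv huv), sgn_erase hu hv (Ne.symm huv), neg_smul]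
  congr 2
  abel

/-- augmentation -/
noncomputable def augC (G : SimpleGraph V) : Ch G →ₗ[ℤ] ℤ :=
  Finsupp.linearCombination ℤ (fun c : RA G × Finset V => if c.2 = ∅ then (1 : ℤ) else 0)

lemma augC_single (g : RA G) (σ : Finset V) :
    augC G (single (g, σ) 1) = if σ = ∅ then (1 : ℤ) else 0 := by
  unfold augC
  rw [Finsupp.linearCombination_single, one_smul]

lemma augC_bd_single (g : RA G) (σ : Finset V) : augC G (bd G (single (g, σ) 1)) = 0 := by
  rw [bd_single, map_sum]
  apply Finset.sum_eq_zero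
  intro v hv
  rw [map_smul, map_sub, augC_single, augC_single, sub_self, smul_zero]

lemma augC_bd (x : Ch G) : augC G (bd G x) = 0 := by
  have := lin_eq (augC G ∘ₗ bd G) 0 Set.univ (fun c _ => augC_bd_single c.1 c.2) x (by simp)
  simpa using this

/-! ### The size filtration -/

/-- level of a cube: size of the far corner -/
noncomputable def lvs (c : RA G × Finset V) : ℤ :=
  sz (stt c.1).1 + ((c.2.filter (fun v => hd (stt c.1).1 v ≠ -1)).card : ℤ)

/-- the level-preserving face -/
noncomputable def fc (g : RA G) (σ : Finset V) (v : V) : RA G × Finset V :=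
  if hd (stt g).1 v = -1 then (g, σ.erase v) else (g * gen G v, σ.erase v)

noncomputable def sg (g : RA G) (v : V) : ℤ := if hd (stt g).1 v = -1 then 1 else -1

/-- coface -/
noncomputable def cf (g : RA G) (σ : Finset V) (t : V) : RA G × Finset V :=
  if hd (stt g).1 t = -1 then (g, insert t σ) else (g * (gen G t)⁻¹, insert t σ)

noncomputable def Dsz : Ch G →ₗ[ℤ] Ch G :=
  Finsupp.linearCombination ℤ (fun c : RA G × Finset V =>
    ∑ v ∈ c.2, (sg c.1 v * sgn v c.2) • (single (fc c.1 c.2 v) 1 : Ch G))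

lemma Dsz_single (g : RA G) (σ : Finset V) :
    Dsz (single (g, σ) 1) = ∑ v ∈ σ, (sg g v * sgn v σ) • (single (fc g σ v) 1 : Ch G) := by
  unfold Dsz
  rw [Finsupp.linearCombination_single, one_smul]

/-- top letters of the far corner -/
noncomputable def Tset (g : RA G) (σ : Finset V) : Finset V :=
  Finset.univ.filter (fun u => u ∈ σ ∨ (hd (stt g).1 u ≠ 0 ∧ ∀ v ∈ σ, G.Adj u v))

noncomputable def tau (g : RA G) (σ : Finset V) : Option V :=
  if h : (Tset g σ).Nonempty then some ((Tset g σ).min' h) else none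

noncomputable def hfun (c : RA G × Finset V) : Ch G :=
  match tau c.1 c.2 with
  | none => 0
  | some t => if t ∈ c.2 then 0 else
      (sg c.1 t * sgn t (insert t c.2)) • (single (cf c.1 c.2 t) 1 : Ch G)

noncomputable def hsz : Ch G →ₗ[ℤ] Ch G := Finsupp.linearCombination ℤ hfun

lemma hsz_single (g : RA G) (σ : Finset V) : hsz (single (g, σ) 1) = hfun (g, σ) := by
  unfold hsz
  rw [Finsupp.linearCombination_single, one_smul]

lemma hsz_in {g : RA G} {σ : Finset V} {t : V} (h : tau g σ = some t) (ht : t ∈ σ) :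
    hsz (single (g, σ) 1) = 0 := by
  rw [hsz_single]; unfold hfun; simp only [h]; rw [if_pos ht]

lemma hsz_out {g : RA G} {σ : Finset V} {t : V} (h : tau g σ = some t) (ht : t ∉ σ) :
    hsz (single (g, σ) 1) = (sg g t * sgn t (insert t σ)) • (single (cf g σ t) 1 : Ch G) := by
  rw [hsz_single]; unfold hfun; simp only [h]; rw [if_neg ht]

lemma tau_congr {g g' : RA G} {σ σ' : Finset V} (h : Tset g σ = Tset g' σ') :
    tau g σ = tau g' σ' := by
  unfold tau; simp only [h]

lemma tau_mem {g : RA G} {σ : Finset V} {t : V} (h : tau g σ = some t) : t ∈ Tset g σ := by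
  unfold tau at h
  split_ifs at h with h1
  simp only [Option.some.injEq] at h
  rw [← h]; exact Finset.min'_mem _ _

lemma sg_mul_self (g : RA G) (v : V) : sg g v * sg g v = 1 := by
  unfold sg; split_ifs <;> norm_num

/-- heads of the far-face vertex -/
lemma hd_mulgen_adj {g : RA G} {u v : V} (h : G.Adj u v) :
    hd (stt (g * gen G u)).1 v = hd (stt g).1 v := by
  rw [stt_mul_gen, hd_mv_adj h]

lemma hd_mulgeninv_adj {g : RA G} {u v : V} (h : G.Adj u v) :
    hd (stt (g * (gen G u)⁻¹)).1 v = hd (stt g).1 v := by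
  rw [stt_mul_gen_inv, hd_mv_inv_adj h]

lemma hd_fc_adj {g : RA G} {σ : Finset V} {u v : V} (h : G.Adj u v) :
    hd (stt (fc g σ u).1).1 v = hd (stt g).1 v := by
  unfold fc
  split_ifs
  · rfl
  · exact hd_mulgen_adj h

lemma hd_cf_adj {g : RA G} {σ : Finset V} {u v : V} (h : G.Adj u v) :
    hd (stt (cf g σ u).1).1 v = hd (stt g).1 v := by
  unfold cf
  split_ifs
  · rfl
  · exact hd_mulgeninv_adj h

lemma fc_snd (g : RA G) (σ : Finset V) (v : V) : (fc g σ v).2 = σ.erase v := by
  unfold fc; split_ifs <;> rfl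

lemma cf_snd (g : RA G) (σ : Finset V) (v : V) : (cf g σ v).2 = insert v σ := by
  unfold cf; split_ifs <;> rfl

lemma sg_fc_adj {g : RA G} {σ : Finset V} {u v : V} (h : G.Adj u v) :
    sg (fc g σ u).1 v = sg g v := by
  unfold sg; rw [hd_fc_adj h]

lemma sg_cf_adj {g : RA G} {σ : Finset V} {u v : V} (h : G.Adj u v) :
    sg (cf g σ u).1 v = sg g v := by
  unfold sg; rw [hd_cf_adj h]

/-- `T` is unchanged on level-preserving faces -/
lemma Tset_fc {g : RA G} {σ : Finset V} (hσ : clq G σ) {v : V} (hv : v ∈ σ) :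
    Tset (fc g σ v).1 (fc g σ v).2 = Tset g σ := by
  ext u
  rw [fc_snd]
  simp only [Tset, Finset.mem_filter, Finset.mem_univ, true_and, Finset.mem_erase]
  by_cases huv : u = v
  · subst huv
    simp only [hv, true_or, iff_true, ne_eq, not_true_eq_false, false_and, false_or]
    refine ⟨?_, fun w hw => hσ u hv w hw.2 (Ne.symm hw.1)⟩
    unfold fc
    split_ifs with h
    · change ¬ hd (stt g).1 u = 0
      rw [h]; decide
    · change ¬ hd (stt (g * gen G u)).1 u = 0
      rw [stt_mul_gen, hd_mv_self h]; decide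
  · by_cases huσ : u ∈ σ
    · simp [huv, huσ]
    · simp only [huσ, and_false, false_or]
      by_cases hadj : G.Adj v u
      · rw [hd_fc_adj hadj]
        constructor
        · rintro ⟨a, b⟩
          refine ⟨a, fun w hw => ?_⟩
          by_cases hwv : w = v
          · subst hwv; exact hadj.symm
          · exact b w ⟨hwv, hw⟩
        · rintro ⟨a, b⟩
          exact ⟨a, fun w hw => b w hw.2⟩
      · constructor
        · rintro ⟨a, b⟩
          exfalso
          apply a
          unfold fc
          split_ifs with h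
          · change hd (stt g).1 u = 0
            by_contra h0
            exact hadj ((stt g).2.adj_of_hd (by rw [h]; decide) h0 (Ne.symm huv))
          · change hd (stt (g * gen G v)).1 u = 0
            rw [stt_mul_gen]
            exact hd_mv_nonadj h hadj huv
        · rintro ⟨a, b⟩
          exact absurd (b v hv).symm hadj

/-- `fc` of `cf` in the new direction -/
lemma fc_cf_self {g : RA G} {σ : Finset V} {t : V} (ht : t ∉ σ) (h0 : hd (stt g).1 t ≠ 0) :
    fc (cf g σ t).1 (cf g σ t).2 t = (g, σ) ∧ sg (cf g σ t).1 t = sg g t := by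
  rw [cf_snd]
  have h1 : hd (stt g).1 t = 1 ∨ hd (stt g).1 t = -1 := ((stt g).2.top h0).1
  rcases h1 with h1 | h1
  · have hn : ¬ (hd (stt g).1 t = -1) := by rw [h1]; decide
    have e1 : (cf g σ t).1 = g * (gen G t)⁻¹ := by unfold cf; rw [if_neg hn]
    have h2 : ¬ hd (stt (g * (gen G t)⁻¹)).1 t = -1 := by
      rw [stt_mul_gen_inv]; exact hd_mv_inv_self h1
    rw [e1]
    unfold fc sg
    rw [if_neg h2, if_neg h2, if_neg hn, Finset.erase_insert ht, inv_mul_cancel_right]
    exact ⟨rfl, rfl⟩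
  · have e1 : (cf g σ t).1 = g := by unfold cf; rw [if_pos h1]
    rw [e1]
    unfold fc sg
    rw [if_pos h1, if_pos h1, Finset.erase_insert ht]
    exact ⟨rfl, rfl⟩

/-- `cf` of `fc` in the removed direction -/
lemma cf_fc_self {g : RA G} {σ : Finset V} {t : V} (ht : t ∈ σ) :
    cf (fc g σ t).1 (fc g σ t).2 t = (g, σ) ∧ sg (fc g σ t).1 t = sg g t := by
  rw [fc_snd]
  by_cases h1 : hd (stt g).1 t = -1
  · have e1 : (fc g σ t).1 = g := by unfold fc; rw [if_pos h1]
    rw [e1]
    unfold cf sg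
    rw [if_pos h1, if_pos h1, Finset.insert_erase ht]
    exact ⟨rfl, rfl⟩
  · have e1 : (fc g σ t).1 = g * gen G t := by unfold fc; rw [if_neg h1]
    have h2 : ¬ hd (stt (g * gen G t)).1 t = -1 := by
      rw [stt_mul_gen, hd_mv_self h1]; decide
    rw [e1]
    unfold cf sg
    rw [if_neg h2, if_neg h2, if_neg h1, Finset.insert_erase ht, mul_inv_cancel_right]
    exact ⟨rfl, rfl⟩

lemma fc_cf_comm {g : RA G} {σ : Finset V} {t v : V} (ht : t ∉ σ) (hv : v ∈ σ)
    (hadj : G.Adj t v) :
    fc (cf g σ t).1 (cf g σ t).2 v = cf (fc g σ v).1 (fc g σ v).2 t := by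
  have hne : t ≠ v := hadj.ne
  rw [cf_snd, fc_snd]
  have e0 : (insert t σ).erase v = insert t (σ.erase v) := Finset.erase_insert_of_ne hne
  have hc : gen G t * gen G v = gen G v * gen G t := gen_comm hadj
  have hc' : (gen G t)⁻¹ * gen G v = gen G v * (gen G t)⁻¹ := by
    rw [inv_mul_eq_iff_eq_mul, ← mul_assoc, hc, mul_inv_cancel_right]
  by_cases h1 : hd (stt g).1 t = -1 <;> by_cases h2 : hd (stt g).1 v = -1
  · have e1 : (cf g σ t).1 = g := by unfold cf; rw [if_pos h1]
    have e2 : (fc g σ v).1 = g := by unfold fc; rw [if_pos h2]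
    rw [e1, e2]; unfold fc cf; rw [if_pos h1, if_pos h2, e0]
  · have e1 : (cf g σ t).1 = g := by unfold cf; rw [if_pos h1]
    have e2 : (fc g σ v).1 = g * gen G v := by unfold fc; rw [if_neg h2]
    have h3 : hd (stt (g * gen G v)).1 t = -1 := by rw [hd_mulgen_adj hadj.symm, h1]
    rw [e1, e2]; unfold fc cf; rw [if_neg h2, if_pos h3, e0]
  · have e1 : (cf g σ t).1 = g * (gen G t)⁻¹ := by unfold cf; rw [if_neg h1]
    have e2 : (fc g σ v).1 = g := by unfold fc; rw [if_pos h2]
    have h3 : hd (stt (g * (gen G t)⁻¹)).1 v = -1 := by rw [hd_mulgeninv_adj hadj, h2]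
    rw [e1, e2]; unfold fc cf; rw [if_pos h3, if_neg h1, e0]
  · have e1 : (cf g σ t).1 = g * (gen G t)⁻¹ := by unfold cf; rw [if_neg h1]
    have e2 : (fc g σ v).1 = g * gen G v := by unfold fc; rw [if_neg h2]
    have h3 : ¬ hd (stt (g * (gen G t)⁻¹)).1 v = -1 := by rw [hd_mulgeninv_adj hadj]; exact h2
    have h4 : ¬ hd (stt (g * gen G v)).1 t = -1 := by rw [hd_mulgen_adj hadj.symm]; exact h1
    rw [e1, e2]; unfold fc cf; rw [if_neg h3, if_neg h4, e0, mul_assoc, hc', mul_assoc]

lemma Dh_hD {g : RA G} {σ : Finset V} (hσ : clq G σ) {t : V} (ht : tau g σ = some t) :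
    Dsz (hsz (single (g, σ) 1)) + hsz (Dsz (single (g, σ) 1)) = (single (g, σ) 1 : Ch G) := by
  by_cases htσ : t ∈ σ
  · rw [hsz_in ht htσ, map_zero, zero_add, Dsz_single, map_sum, Finset.sum_eq_single t]
    · obtain ⟨e1, e2⟩ := cf_fc_self (g := g) htσ
      have h3 : tau (fc g σ t).1 (fc g σ t).2 = some t := by rw [tau_congr (Tset_fc hσ htσ)]; exact ht
      have h4 : t ∉ (fc g σ t).2 := by rw [fc_snd]; simp
      have h5 := hsz_out h3 h4
      rw [Prod.mk.eta] at h5
      rw [map_smul, h5, e1, e2, smul_smul, fc_snd, Finset.insert_erase htσ]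
      have : sg g t * sgn t σ * (sg g t * sgn t σ) = 1 := by
        calc _ = (sg g t * sg g t) * (sgn t σ * sgn t σ) := by ring
          _ = 1 := by rw [sg_mul_self, sgn_mul_self, one_mul]
      rw [this, one_smul]
    · intro v hv hvt
      have h3 : tau (fc g σ v).1 (fc g σ v).2 = some t := by rw [tau_congr (Tset_fc hσ hv)]; exact ht
      have h4 : t ∈ (fc g σ v).2 := by rw [fc_snd]; exact Finset.mem_erase.2 ⟨Ne.symm hvt, htσ⟩
      have h5 := hsz_in h3 h4
      rw [Prod.mk.eta] at h5
      rw [map_smul, h5, smul_zero]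
    · intro h; exact absurd htσ h
  · have hT := tau_mem ht
    simp only [Tset, Finset.mem_filter, Finset.mem_univ, true_and, htσ, false_or] at hT
    obtain ⟨h0, hadj⟩ := hT
    rw [hsz_out ht htσ, map_smul]
    have e3 := Dsz_single (cf g σ t).1 (cf g σ t).2
    rw [Prod.mk.eta] at e3
    rw [e3, cf_snd, Finset.sum_insert htσ]
    obtain ⟨e1, e2⟩ := fc_cf_self (g := g) htσ h0
    rw [cf_snd] at e1
    rw [e1, e2, smul_add, smul_smul]
    have h1 : sg g t * sgn t (insert t σ) * (sg g t * sgn t (insert t σ)) = 1 := by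
      calc _ = (sg g t * sg g t) * (sgn t (insert t σ) * sgn t (insert t σ)) := by ring
        _ = 1 := by rw [sg_mul_self, sgn_mul_self, one_mul]
    rw [h1, one_smul, Dsz_single, map_sum, add_assoc, Finset.smul_sum, ← Finset.sum_add_distrib]
    rw [Finset.sum_eq_zero, add_zero]
    intro v hv
    have h3 : tau (fc g σ v).1 (fc g σ v).2 = some t := by rw [tau_congr (Tset_fc hσ hv)]; exact ht
    have h4 : t ∉ (fc g σ v).2 := by rw [fc_snd]; intro h; exact htσ (Finset.mem_of_mem_erase h)
    have h5 := hsz_out h3 h4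
    rw [Prod.mk.eta] at h5
    rw [map_smul, h5, smul_smul, smul_smul, ← fc_cf_comm htσ hv (hadj v hv), cf_snd, fc_snd,
      ← add_smul]
    have hadjv := hadj v hv
    rw [sg_cf_adj hadjv, sg_fc_adj hadjv.symm]
    have : sg g t * sgn t (insert t σ) * (sg g v * sgn v (insert t σ)) +
        sg g v * sgn v σ * (sg g t * sgn t (insert t (σ.erase v))) = 0 := by
      calc _ = (sg g t * sg g v) * (sgn t (insert t σ) * sgn v (insert t σ) +
            sgn v σ * sgn t (insert t (σ.erase v))) := by ring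
        _ = 0 := by rw [sgn_insert htσ hv, mul_zero]
    rw [this, zero_smul]

end Pool.Agent.H653R3
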