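import Pool.Agent.H653R3.Chk

set_option autoImplicit false
set_option linter.unusedSectionVars false
set_option linter.unusedVariables false

/-! The 21-vertex acyclic flag complex with a nontrivial local system. -/

namespace Pool.Agent.H653R3

open Finsupp (single supported)

/-- adjacency masks -/
def adjT : List ℕ := [2064864, 2068000, 2077248, 2086016, 2091264, 229379, 819205, 1376265, 1703953, 1441798, 1605642, 851986, 720908, 1146900, 426008, 25727, 14527, 21311, 19167, 7519, 10143]

/-- weighted paths -/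
def S0T : List (List ℕ) := [[], [75, 10], [141, 12], [207, 14], [273, 16], [10], [12], [14], [16], [611, 34], [671, 30], [737, 32], [801, 32], [863, 30], [927, 30], [30], [32], [34], [36], [38], [40]]

def S1T0 : List (List ℕ) := [
  [],
  [],
  [],
  [],
  [],
  [],
  [],
  [],
  [],
  [],
  [],
  [],
  [],
  [],
  [],
  [],
  [],
  [],
  [],
  [],
  []]

def S1T1 : List (List ℕ) := [
  [],
  [],
  [],
  [],
  [],
  [],
  [],
  [],
  [],
  [354, 2403, 2658],
  [350, 2399, 2718],
  [352, 2401, 2784],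
  [],
  [],
  [],
  [350, 2399],
  [352, 2401],
  [354, 2403],
  [352, 420, 423, 481, 488, 550, 553, 2401, 2661, 2664, 2726, 2729, 2784, 2791, 4517, 4518, 4708, 4713, 4896, 4903, 4961, 4968, 6624, 6633, 6823, 6824, 6945, 6950, 8743, 8744, 8929, 8934, 9056, 9065],
  [350, 415, 420, 485, 488, 550, 553, 2399, 2661, 2664, 2718, 2729, 2788, 2791, 4510, 4517, 4708, 4713, 4959, 4968, 6628, 6633, 6815, 6824, 7070, 7077, 8743, 8744, 8933, 8934, 9054, 9065, 9119, 9124],
  [354, 420, 423, 485, 488, 547, 550, 2403, 2658, 2661, 2726, 2729, 2788, 2791, 4517, 4518, 4707, 4708, 4898, 4903, 6628, 6633, 6823, 6824, 6947, 6950, 7074, 7077, 8738, 8743, 8933, 8934, 9123, 9124]]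

def S1T2 : List (List ℕ) := [
  [],
  [],
  [],
  [],
  [],
  [],
  [],
  [],
  [],
  [353, 354, 422, 480, 489, 551, 552, 2400, 2403, 2658, 2665, 2727, 2728, 2785, 2790, 4519, 4712, 4897, 4902, 4960, 4969, 6625, 6632, 6822, 6825, 6944, 6951, 8742, 8745, 8928, 8935, 9057, 9064],
  [],
  [],
  [351, 354, 414, 480, 489, 547, 552, 2398, 2403, 2658, 2665, 2719, 2728, 4511, 4707, 4712, 4898, 4958, 4969, 6625, 6632, 6814, 6825, 6944, 6947, 7071, 7074, 8738, 8745, 9055, 9064, 9118, 9123],
  [414, 4511, 4958],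
  [],
  [414, 4511],
  [351, 354, 414, 480, 489, 547, 552, 2398, 2403, 2658, 2665, 2719, 2728, 4511, 4707, 4712, 4897, 4898, 4958, 4969, 6625, 6632, 6814, 6825, 6944, 6947, 7071, 7074, 8738, 8745, 9055, 9064, 9118, 9123],
  [353, 354, 422, 480, 489, 551, 552, 2400, 2403, 2658, 2665, 2727, 2728, 2785, 2790, 4519, 4707, 4712, 4897, 4902, 4960, 4969, 6625, 6632, 6822, 6825, 6944, 6951, 8742, 8745, 8928, 8935, 9057, 9064],
  [420, 4517],
  [422, 4519],
  [353, 354, 420, 480, 485, 547, 552, 2400, 2403, 2658, 2661, 2785, 2788, 4517, 4707, 4708, 4897, 4898, 4960, 4969, 6625, 6628, 6944, 6947, 7074, 7077, 8738, 8745, 8928, 8933, 9057, 9064, 9123, 9124]]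

def S1T3 : List (List ℕ) := [
  [],
  [],
  [],
  [],
  [],
  [],
  [],
  [],
  [],
  [],
  [350, 355, 421, 422, 484, 546, 551, 2399, 2402, 2659, 2660, 2718, 2727, 2789, 2790, 4516, 4519, 4706, 4709, 4899, 4902, 6629, 6822, 6946, 6951, 7075, 7076, 8739, 8742, 8932, 8935, 9122, 9125],
  [],
  [480, 6625, 6944],
  [],
  [350, 355, 421, 422, 484, 546, 551, 2399, 2402, 2659, 2660, 2718, 2727, 2789, 2790, 4516, 4519, 4706, 4709, 4899, 4902, 6629, 6815, 6822, 6946, 6951, 7070, 7075, 7076, 8739, 8742, 8932, 8935, 9122, 9125],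
  [350, 355, 421, 422, 484, 546, 551, 2399, 2402, 2659, 2660, 2718, 2727, 2789, 2790, 4516, 4519, 4706, 4709, 4899, 4902, 6629, 6815, 6822, 6946, 6951, 7075, 7076, 8739, 8742, 8932, 8935, 9122, 9125],
  [480, 6625],
  [350, 353, 415, 422, 480, 546, 551, 2399, 2400, 2718, 2727, 2785, 2790, 4510, 4519, 4897, 4902, 4959, 4960, 6625, 6815, 6822, 6944, 6951, 7070, 7075, 8739, 8742, 8928, 8935, 9054, 9057, 9119, 9122],
  [484, 6629],
  [350, 355, 415, 422, 488, 546, 553, 2399, 2402, 2659, 2664, 2718, 2729, 4510, 4519, 4706, 4713, 4899, 4902, 4959, 4968, 6633, 6815, 6824, 6946, 6951, 7070, 7075, 8739, 8744, 9054, 9065, 9119, 9122],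
  [488, 6633]]

def S1T4 : List (List ℕ) := [
  [],
  [],
  [],
  [],
  [],
  [],
  [],
  [],
  [],
  [],
  [],
  [351, 352, 414, 421, 484, 489, 552, 2398, 2401, 2660, 2665, 2719, 2728, 2784, 2789, 4511, 4516, 4709, 4712, 4958, 4969, 6629, 6632, 6814, 6825, 7071, 7076, 8745, 8932, 9055, 9064, 9118, 9125],
  [],
  [352, 355, 414, 421, 481, 484, 546, 2401, 2402, 2659, 2660, 2784, 2789, 4511, 4516, 4706, 4709, 4896, 4899, 4958, 4961, 6624, 6629, 6945, 6946, 7075, 7076, 8739, 8929, 8932, 9056, 9122, 9125],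
  [352, 355, 414, 421, 481, 484, 546, 2401, 2402, 2659, 2660, 2784, 2789, 4511, 4516, 4706, 4709, 4896, 4899, 4958, 4961, 6624, 6629, 6945, 6946, 7075, 7076, 8739, 8929, 8932, 9055, 9056, 9118, 9122, 9125],
  [352, 355, 414, 421, 481, 484, 546, 2401, 2402, 2659, 2660, 2784, 2789, 4511, 4516, 4706, 4709, 4896, 4899, 4958, 4961, 6624, 6629, 6945, 6946, 7075, 7076, 8739, 8929, 8932, 9055, 9056, 9122, 9125],
  [351, 352, 414, 421, 484, 489, 552, 2398, 2401, 2660, 2665, 2719, 2728, 2784, 2789, 4511, 4516, 4709, 4712, 4958, 4969, 6629, 6632, 6814, 6825, 7071, 7076, 8745, 8929, 8932, 9055, 9064, 9118, 9125],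
  [546, 8739],
  [351, 352, 414, 423, 481, 484, 550, 2398, 2401, 2719, 2726, 2784, 2791, 4511, 4518, 4896, 4903, 4958, 4961, 6624, 6629, 6814, 6823, 6945, 6950, 7071, 7076, 8743, 8929, 8934, 9055, 9056, 9118, 9125],
  [550, 8743],
  [552, 8745]]

def S1T5 : List (List ℕ) := [
  [],
  [],
  [],
  [],
  [],
  [],
  [],
  [],
  [],
  [],
  [],
  [],
  [],
  [],
  [],
  [350],
  [352],
  [354],
  [],
  [],
  []]

def S1T6 : List (List ℕ) := [
  [],
  [],
  [],
  [],
  [],
  [],
  [],
  [],
  [],
  [],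
  [],
  [],
  [],
  [],
  [],
  [414],
  [],
  [],
  [420],
  [422],
  []]

def S1T7 : List (List ℕ) := [
  [],
  [],
  [],
  [],
  [],
  [],
  [],
  [],
  [],
  [],
  [],
  [],
  [],
  [],
  [],
  [],
  [480],
  [],
  [484],
  [],
  [488]]

def S1T8 : List (List ℕ) := [
  [],
  [],
  [],
  [],
  [],
  [],
  [],
  [],
  [],
  [],
  [],
  [],
  [],
  [],
  [],
  [],
  [],
  [546],
  [],
  [550],
  [552]]

def S1T9 : List (List ℕ) := [
  [],
  [],
  [],
  [],
  [],
  [],
  [],
  [],
  [],
  [],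
  [],
  [],
  [],
  [],
  [],
  [],
  [],
  [],
  [352, 355, 420, 423, 481, 488, 550, 553, 2401, 2402, 2659, 2664, 2726, 2729, 2784, 2791, 4517, 4518, 4708, 4713, 4896, 4903, 4961, 4968, 6624, 6633, 6823, 6824, 6945, 6950, 8743, 8744, 8929, 8934, 9056, 9065],
  [],
  [420, 423, 485, 488, 547, 550, 2661, 2664, 2726, 2729, 2788, 2791, 4517, 4518, 4707, 4708, 4898, 4903, 6628, 6633, 6823, 6824, 6947, 6950, 7074, 7077, 8738, 8743, 8933, 8934, 9123, 9124]]

def S1T10 : List (List ℕ) := [
  [],
  [],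
  [],
  [],
  [],
  [],
  [],
  [],
  [],
  [],
  [],
  [],
  [],
  [],
  [],
  [],
  [],
  [],
  [],
  [415, 420, 485, 488, 550, 553, 2661, 2664, 2726, 2729, 2788, 2791, 4510, 4517, 4708, 4713, 4959, 4968, 6628, 6633, 6815, 6824, 7070, 7077, 8743, 8744, 8933, 8934, 9054, 9065, 9119, 9124],
  [351, 354, 420, 423, 485, 488, 547, 550, 2398, 2403, 2658, 2661, 2719, 2726, 2788, 2791, 4517, 4518, 4707, 4708, 4898, 4903, 6628, 6633, 6823, 6824, 6947, 6950, 7074, 7077, 8738, 8743, 8933, 8934, 9123, 9124]]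

def S1T11 : List (List ℕ) := [
  [],
  [],
  [],
  [],
  [],
  [],
  [],
  [],
  [],
  [],
  [],
  [],
  [],
  [],
  [],
  [],
  [],
  [],
  [420, 423, 481, 488, 550, 553, 2661, 2664, 2726, 2729, 2788, 2791, 4517, 4518, 4708, 4713, 4896, 4903, 4961, 4968, 6624, 6633, 6823, 6824, 6945, 6950, 8743, 8744, 8929, 8934, 9056, 9065],
  [350, 353, 415, 420, 485, 488, 550, 553, 2399, 2400, 2661, 2664, 2718, 2729, 2785, 2788, 4510, 4517, 4708, 4713, 4959, 4968, 6628, 6633, 6815, 6824, 7070, 7077, 8743, 8744, 8933, 8934, 9054, 9065, 9119, 9124],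
  []]

def S1T12 : List (List ℕ) := [
  [],
  [],
  [],
  [],
  [],
  [],
  [],
  [],
  [],
  [],
  [],
  [],
  [],
  [],
  [],
  [],
  [],
  [350, 353, 415, 422, 546, 551, 2399, 2400, 2718, 2727, 2785, 2790, 4510, 4519, 4897, 4902, 4959, 4960, 6815, 6822, 6946, 6951, 7070, 7075, 8739, 8742, 8928, 8935, 9054, 9057, 9119, 9122],
  [],
  [350, 355, 415, 422, 481, 488, 546, 553, 2399, 2402, 2659, 2664, 2718, 2729, 4510, 4519, 4706, 4713, 4899, 4902, 4959, 4968, 6624, 6633, 6815, 6824, 6945, 6946, 7070, 7075, 8739, 8744, 9054, 9065, 9119, 9122],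
  []]

def S1T13 : List (List ℕ) := [
  [],
  [],
  [],
  [],
  [],
  [],
  [],
  [],
  [],
  [],
  [],
  [],
  [],
  [],
  [],
  [],
  [351, 354, 480, 489, 547, 552, 2398, 2403, 2658, 2665, 2719, 2728, 4707, 4712, 4897, 4898, 4960, 4969, 6625, 6632, 6814, 6825, 6944, 6947, 7071, 7074, 8738, 8745, 9055, 9064, 9118, 9123],
  [],
  [],
  [],
  [353, 354, 415, 420, 480, 485, 547, 552, 2400, 2403, 2658, 2661, 2785, 2788, 4510, 4517, 4707, 4708, 4897, 4898, 4959, 4960, 6625, 6628, 6944, 6947, 7074, 7077, 8738, 8745, 8928, 8933, 9057, 9064, 9123, 9124]]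

def S1T14 : List (List ℕ) := [
  [],
  [],
  [],
  [],
  [],
  [],
  [],
  [],
  [],
  [],
  [],
  [],
  [],
  [],
  [],
  [],
  [],
  [353, 354, 415, 420, 480, 485, 2400, 2403, 2658, 2661, 2785, 2788, 4510, 4517, 4707, 4708, 4897, 4898, 4959, 4960, 6625, 6628, 6944, 6947, 7074, 7077, 8928, 8933, 9054, 9057, 9119, 9124],
  [351, 354, 420, 423, 547, 550, 2398, 2403, 2658, 2661, 2719, 2726, 2788, 2791, 4517, 4518, 4707, 4708, 4898, 4903, 6814, 6823, 6947, 6950, 7071, 7074, 8738, 8743, 8933, 8934, 9123, 9124],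
  [],
  []]

/-- weighted discs -/
def S1T : List (List (List ℕ)) := [S1T0, S1T1, S1T2, S1T3, S1T4, S1T5, S1T6, S1T7, S1T8, S1T9, S1T10, S1T11, S1T12, S1T13, S1T14]

/-- transports -/
def cT : List (List ℕ) := [
  [18056, 18056, 18056, 18056, 18056, 18056, 18056, 18056, 18056, 18056, 18056, 18056, 18056, 18056, 18056, 18056, 18056, 18056, 18056, 18056, 18056],
  [18056, 18056, 18056, 18056, 18056, 18056, 18056, 18056, 18056, 18056, 18056, 18056, 18056, 18056, 18056, 18056, 18056, 18056, 2257, 8284, 5379],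
  [18056, 18056, 18056, 18056, 18056, 18056, 18056, 18056, 18056, 13380, 18056, 18056, 18056, 18056, 18056, 18056, 10265, 13380, 18056, 18056, 738],
  [18056, 18056, 18056, 18056, 18056, 18056, 18056, 18056, 18056, 18056, 8417, 18056, 13058, 18056, 18056, 8417, 18056, 6163, 18056, 13058, 18056],
  [18056, 18056, 18056, 18056, 18056, 18056, 18056, 18056, 18056, 18056, 18056, 787, 18056, 5148, 12386, 5148, 787, 18056, 12386, 18056, 18056],
  [18056, 18056, 18056, 18056, 18056, 18056, 18056, 18056, 18056, 18056, 18056, 18056, 18056, 18056, 18056, 18056, 18056, 18056, 18056, 18056, 18056],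
  [18056, 18056, 18056, 18056, 18056, 18056, 18056, 18056, 18056, 18056, 18056, 18056, 18056, 18056, 18056, 18056, 18056, 18056, 18056, 18056, 18056],
  [18056, 18056, 18056, 18056, 18056, 18056, 18056, 18056, 18056, 18056, 18056, 18056, 18056, 18056, 18056, 18056, 18056, 18056, 18056, 18056, 18056],
  [18056, 18056, 18056, 18056, 18056, 18056, 18056, 18056, 18056, 18056, 18056, 18056, 18056, 18056, 18056, 18056, 18056, 18056, 18056, 18056, 18056],
  [18056, 18056, 2257, 18056, 18056, 18056, 18056, 18056, 18056, 18056, 18056, 18056, 18056, 18056, 18056, 18056, 18056, 18056, 2257, 18056, 5379],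
  [18056, 18056, 18056, 5379, 18056, 18056, 18056, 18056, 18056, 18056, 18056, 18056, 18056, 18056, 18056, 18056, 18056, 18056, 18056, 8284, 5379],
  [18056, 18056, 18056, 18056, 8284, 18056, 18056, 18056, 18056, 18056, 18056, 18056, 18056, 18056, 18056, 18056, 18056, 18056, 2257, 8284, 18056],
  [18056, 18056, 18056, 10265, 18056, 18056, 18056, 18056, 18056, 18056, 18056, 18056, 18056, 18056, 18056, 18056, 10265, 13380, 18056, 18056, 18056],
  [18056, 18056, 18056, 18056, 738, 18056, 18056, 18056, 18056, 18056, 18056, 18056, 18056, 18056, 18056, 18056, 10265, 18056, 18056, 18056, 738],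
  [18056, 18056, 18056, 18056, 6163, 18056, 18056, 18056, 18056, 18056, 18056, 18056, 18056, 18056, 18056, 8417, 18056, 6163, 18056, 18056, 18056],
  [18056, 18056, 18056, 5379, 738, 18056, 18056, 18056, 18056, 18056, 18056, 18056, 18056, 18056, 5379, 18056, 18056, 18056, 18056, 18056, 18056],
  [18056, 18056, 13058, 18056, 8284, 18056, 18056, 18056, 18056, 18056, 18056, 18056, 13058, 13058, 18056, 18056, 18056, 18056, 18056, 18056, 18056],
  [18056, 18056, 2257, 12386, 18056, 18056, 18056, 18056, 18056, 18056, 18056, 18056, 2257, 18056, 12386, 18056, 18056, 18056, 18056, 18056, 18056],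
  [18056, 13380, 18056, 18056, 6163, 18056, 18056, 18056, 18056, 13380, 18056, 13380, 18056, 18056, 18056, 18056, 18056, 18056, 18056, 18056, 18056],
  [18056, 787, 18056, 10265, 18056, 18056, 18056, 18056, 18056, 18056, 787, 787, 18056, 18056, 18056, 18056, 18056, 18056, 18056, 18056, 18056],
  [18056, 8417, 5148, 18056, 18056, 18056, 18056, 18056, 18056, 8417, 8417, 18056, 18056, 5148, 18056, 18056, 18056, 18056, 18056, 18056, 18056]]

def adjB (a b : Fin 21) : Bool := (adjT.getD a.val 0).testBit b.val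

def ltB (a b : Fin 21) : Bool := Nat.blt a.val b.val

def eqL : List (Fin 21) → List (Fin 21) → Bool
  | [], [] => true
  | [], (_ :: _) => false
  | (_ :: _), [] => false
  | (a :: l), (b :: m) => Nat.beq a.val b.val && eqL l m

lemma ltB_iff (a b : Fin 21) : ltB a b = true ↔ a < b := by
  unfold ltB; rw [Nat.blt_eq]; rfl

lemma eqL_sound : ∀ l m, eqL l m = true → l = m
  | [], [], _ => rfl
  | [], (_ :: _), h => by simp [eqL] at h
  | (_ :: _), [], h => by simp [eqL] at h
  | (a :: l), (b :: m), h => by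
    unfold eqL at h
    rw [Bool.and_eq_true] at h
    have h1 : a = b := Fin.ext (Nat.eq_of_beq_eq_true h.1)
    rw [h1, eqL_sound l m h.2]

/-- the graph -/
def G21 : SimpleGraph (Fin 21) where
  Adj a b := adjB a b = true
  symm := ⟨by decide +kernel⟩
  loopless := ⟨by decide +kernel⟩

instance : DecidableRel G21.Adj := fun a b => inferInstanceAs (Decidable (adjB a b = true))

def sgx (n : ℕ) : ℤ := bif Nat.beq (n % 2) 0 then 1 else -1

def fn (n : ℕ) : Fin 21 := Fin.ofNat 21 n

def d0 (n : ℕ) : List (Fin 21) × ℤ := ([fn (n / 64), fn (n / 2 % 32)], sgx n)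

def d1 (n : ℕ) : List (Fin 21) × ℤ := ([fn (n / 2048), fn (n / 64 % 32), fn (n / 2 % 32)], sgx n)

def tab : List (Fin 21) → List (List (Fin 21) × ℤ)
  | [] => [([fn 0], 1)]
  | [a] => (S0T.getD a.val []).map d0
  | [a, b] => ((S1T.getD a.val []).getD b.val []).map d1
  | _ => []

/-- check -/
def ck (l : List (Fin 21)) : Bool := chk ltB tab eqL adjB l

lemma ck_nil : ck [] = true := by decide +kernel

lemma ck_all : ((List.finRange 21).all fun a => ck [a] && (List.finRange 21).all fun b =>
    !(ltB a b && adjB a b) || (ck [a, b] && (List.finRange 21).all fun c =>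
      !(ltB b c && (adjB a c && adjB b c)) || ck [a, b, c])) = true := by decide +kernel

lemma ck_one (a : Fin 21) : ck [a] = true := by
  have h := ck_all
  rw [List.all_eq_true] at h
  have h1 := h a (List.mem_finRange a)
  rw [Bool.and_eq_true] at h1
  exact h1.1

lemma ck_two_aux (a b : Fin 21) (hab : ltB a b = true) (h : adjB a b = true) :
    (ck [a, b] && (List.finRange 21).all fun c =>
      !(ltB b c && (adjB a c && adjB b c)) || ck [a, b, c]) = true := by
  have h0 := ck_all
  rw [List.all_eq_true] at h0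
  have h1 := h0 a (List.mem_finRange a)
  rw [Bool.and_eq_true] at h1
  have h2 := h1.2
  rw [List.all_eq_true] at h2
  have h3 := h2 b (List.mem_finRange b)
  rw [hab, h] at h3
  exact h3

lemma ck_two (a b : Fin 21) (hab : ltB a b = true) (h : adjB a b = true) : ck [a, b] = true := by
  have h1 := ck_two_aux a b hab h
  rw [Bool.and_eq_true] at h1
  exact h1.1

lemma ck_three (a b c : Fin 21) (hab : ltB a b = true) (h : adjB a b = true)
    (hbc : ltB b c = true) (h' : adjB b c = true) (h'' : adjB a c = true) :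
    ck [a, b, c] = true := by
  have h1 := ck_two_aux a b hab h
  rw [Bool.and_eq_true] at h1
  have h2 := h1.2
  rw [List.all_eq_true] at h2
  have h3 := h2 c (List.mem_finRange c)
  rw [hbc, h', h''] at h3
  exact h3

/-- type of a vertex -/
def ty (a : Fin 21) : ℕ := if a.val < 5 then 0 else if a.val < 15 then 1 else 2

lemma ty_lt : ∀ a b : Fin 21, a < b → adjB a b = true → ty a < ty b := by decide +kernel

lemma ty_le (a : Fin 21) : ty a ≤ 2 := by unfold ty; split_ifs <;> omega

lemma good {σ : Finset (Fin 21)} (h : clq G21 σ) :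
    okB ltB (σ.sort (· ≤ ·)) = true ∧ ck (σ.sort (· ≤ ·)) = true ∧
      (σ.sort (· ≤ ·)).length ≤ 3 := by
  have h1 : (σ.sort (· ≤ ·)).Pairwise (· < ·) := (Finset.sortedLT_sort σ).pairwise
  have h2 : (σ.sort (· ≤ ·)).Pairwise (fun a b => adjB a b = true) := by
    apply List.Pairwise.imp_of_mem _ h1
    intro a b ha hb hab
    rw [Finset.mem_sort] at ha hb
    exact h a ha b hb hab.ne
  generalize σ.sort (· ≤ ·) = l at h1 h2
  match l, h1, h2 with
  | [], _, _ => exact ⟨rfl, ck_nil, by simp⟩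
  | [a], _, _ => exact ⟨rfl, ck_one a, by simp⟩
  | [a, b], h1, h2 =>
    have h3 : a < b := by simpa using h1
    have h4 : adjB a b = true := by simpa using h2
    have h5 := (ltB_iff a b).2 h3
    exact ⟨h5, ck_two a b h5 h4, by simp⟩
  | [a, b, c], h1, h2 =>
    have h3 : (a < b ∧ a < c) ∧ b < c := by simpa using h1
    have h4 : (adjB a b = true ∧ adjB a c = true) ∧ adjB b c = true := by simpa using h2
    have h5 := (ltB_iff a b).2 h3.1.1
    have h6 := (ltB_iff b c).2 h3.2
    refine ⟨?_, ck_three a b c h5 h4.1.1 h6 h4.2 h4.1.2, by simp⟩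
    change (ltB a b && ltB b c) = true
    rw [h5, h6]; rfl
  | (a :: b :: c :: d :: t), h1, h2 =>
    exfalso
    have h3 : a < b := by
      rw [List.pairwise_cons] at h1; exact h1.1 b (by simp)
    have h4 : adjB a b = true := by
      rw [List.pairwise_cons] at h2; exact h2.1 b (by simp)
    have h1' := (List.pairwise_cons.1 h1).2
    have h2' := (List.pairwise_cons.1 h2).2
    have h5 : b < c := (List.pairwise_cons.1 h1').1 c (by simp)
    have h6 : adjB b c = true := (List.pairwise_cons.1 h2').1 c (by simp)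
    have h1'' := (List.pairwise_cons.1 h1').2
    have h2'' := (List.pairwise_cons.1 h2').2
    have h7 : c < d := (List.pairwise_cons.1 h1'').1 d (by simp)
    have h8 : adjB c d = true := (List.pairwise_cons.1 h2'').1 d (by simp)
    have e1 := ty_lt a b h3 h4
    have e2 := ty_lt b c h5 h6
    have e3 := ty_lt c d h7 h8
    have e4 := ty_le d
    omega

/-- the contraction -/
noncomputable def C21 : Contr G21 where
  S := Sm tab
  cl σ h := by
    obtain ⟨h1, h2, h3⟩ := good h
    have := chk_cl ltB ltB_iff tab eqL eqL_sound adjB (G := G21) (fun a b h => h) h2 h1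
    rwa [Finset.sort_toFinset] at this
  eq σ h := by
    obtain ⟨h1, h2, h3⟩ := good h
    have := chk_eq ltB ltB_iff tab eqL eqL_sound adjB h2 h1
    rwa [Finset.sort_toFinset] at this

lemma card_le {σ : Finset (Fin 21)} (h : clq G21 σ) : σ.card ≤ 2 + 1 := by
  have := (good h).2.2
  rwa [Finset.length_sort] at this

/-- transports -/
def tf (x y : Fin 21) (i : Fin 5) : Fin 5 :=
  Fin.ofNat 5 ((((cT.getD x.val []).getD y.val 0) / 8 ^ i.val) % 8)

lemma tf_inv : ((List.finRange 21).all fun x => (List.finRange 21).all fun y =>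
    (List.finRange 5).all fun i => Nat.beq (tf y x (tf x y i)).val i.val) = true := by decide +kernel

lemma tf_inv' (x y : Fin 21) (i : Fin 5) : tf y x (tf x y i) = i := by
  have h := tf_inv
  simp only [List.all_eq_true, List.mem_finRange, forall_true_left] at h
  exact Fin.ext (Nat.eq_of_beq_eq_true (h x y i))

/-- related vertices -/
def rl (x y : Fin 21) : Bool := Nat.beq x.val y.val || adjB x y

lemma tf_mul : ((List.finRange 21).all fun x => (List.finRange 21).all fun y =>
    !(rl x y) || (List.finRange 21).all fun z =>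
    !(rl y z && rl x z) ||
    (List.finRange 5).all fun i => Nat.beq (tf x y (tf y z i)).val (tf x z i).val) = true := by
  decide +kernel

lemma rl_of {x y : Fin 21} (h : x = y ∨ G21.Adj x y) : rl x y = true := by
  unfold rl
  rw [Bool.or_eq_true]
  rcases h with h | h
  · left; rw [h]; exact Nat.beq_refl _
  · right; exact h

lemma tf_mul' (x y z : Fin 21) (h1 : rl x y = true) (h2 : rl y z = true) (h3 : rl x z = true)
    (i : Fin 5) : tf x y (tf y z i) = tf x z i := by
  have h := tf_mul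
  rw [List.all_eq_true] at h
  have a1 := h x (List.mem_finRange x)
  rw [List.all_eq_true] at a1
  have a2 := a1 y (List.mem_finRange y)
  rw [h1] at a2
  simp only [Bool.not_true, Bool.false_or] at a2
  rw [List.all_eq_true] at a2
  have a3 := a2 z (List.mem_finRange z)
  rw [h2, h3] at a3
  simp only [Bool.and_self, Bool.not_true, Bool.false_or] at a3
  rw [List.all_eq_true] at a3
  exact Fin.ext (Nat.eq_of_beq_eq_true (a3 i (List.mem_finRange i)))

/-- the local system -/
def L21 : LocSys G21 (Fin 5) where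
  c x y := ⟨tf x y, tf y x, fun i => tf_inv' x y i, fun i => tf_inv' y x i⟩
  mul x y z h1 h2 h3 := by
    ext i
    exact congrArg Fin.val (tf_mul' x y z (rl_of h1) (rl_of h2) (rl_of h3) i)

lemma a1 : G21.Adj 0 15 := by decide +kernel
lemma a2 : G21.Adj 15 2 := by decide +kernel
lemma a3 : G21.Adj 2 16 := by decide +kernel
lemma a4 : G21.Adj 16 0 := by decide +kernel

/-- the loop -/
def loop : G21.Walk 0 0 := .cons a1 (.cons a2 (.cons a3 (.cons a4 .nil)))

lemma loop_ne : holW L21 loop ≠ 1 := by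
  intro h
  have h1 : holW L21 loop 0 = 0 := by rw [h]; rfl
  have h2 : tf 0 16 (tf 16 2 (tf 2 15 (tf 15 0 0))) = 0 := h1
  revert h2
  decide +kernel

lemma conn : G21.Preconnected := by
  have h : ∀ v : Fin 21, G21.Reachable 0 v := by
    have h15 : G21.Reachable 0 15 := a1.reachable
    have h16 : G21.Reachable 0 16 := a4.symm.reachable
    have h17 : G21.Reachable 0 17 := (show G21.Adj 0 17 by decide +kernel).reachable
    have hp : ∀ v : Fin 21, v = 0 ∨ adjB 0 v = true ∨ (adjB 15 v = true) ∨ (adjB 16 v = true) ∨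
        (adjB 17 v = true) := by
      decide +kernel
    intro v
    rcases hp v with rfl | h | h | h | h
    · exact SimpleGraph.Reachable.refl _
    · exact SimpleGraph.Adj.reachable h
    · exact h15.trans (SimpleGraph.Adj.reachable h)
    · exact h16.trans (SimpleGraph.Adj.reachable h)
    · exact h17.trans (SimpleGraph.Adj.reachable h)
  intro u v
  exact (h u).symm.trans (h v)

theorem not_Stm : ¬ Stm := final_red conn C21 2 (fun σ h => card_le h) L21 loop loop_ne

end Pool.Agent.H653R3
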