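import Pool.Agent.H653R3.Cube

set_option autoImplicit false
set_option linter.unusedSectionVars false
set_option linter.unusedVariables false

/-! Exactness of the cubical complex, and of the slabs. -/

namespace Pool.Agent.H653R3

open Finsupp (single supported)

variable {V : Type} [Fintype V] [LinearOrder V] {G : SimpleGraph V} [DecidableRel G.Adj]

/-- the other face -/
noncomputable def oc (g : RA G) (σ : Finset V) (v : V) : RA G × Finset V :=
  if hd (stt g).1 v = -1 then (g * gen G v, σ.erase v) else (g, σ.erase v)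

lemma bd_sub_D (g : RA G) (σ : Finset V) :
    bd G (single (g, σ) 1) - Dsz (single (g, σ) 1) =
      ∑ v ∈ σ, (-(sg g v * sgn v σ)) • (single (oc g σ v) 1 : Ch G) := by
  rw [bd_single, Dsz_single, ← Finset.sum_sub_distrib]
  apply Finset.sum_congr rfl
  intro v hv
  unfold sg fc oc
  split_ifs with h
  · rw [one_mul, smul_sub, neg_smul]; abel
  · rw [neg_one_mul, smul_sub, neg_smul, neg_neg]; abel

lemma filter_mulgen {g : RA G} {σ : Finset V} (hσ : clq G σ) {v : V} (hv : v ∈ σ) :
    ((σ.erase v).filter (fun u => hd (stt (g * gen G v)).1 u ≠ -1)) =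
      (σ.erase v).filter (fun u => hd (stt g).1 u ≠ -1) := by
  apply Finset.filter_congr
  intro u hu
  rw [Finset.mem_erase] at hu
  rw [hd_mulgen_adj (hσ v hv u hu.2 (Ne.symm hu.1))]

lemma card_filter_pop {g : RA G} {σ : Finset V} {v : V} (h : hd (stt g).1 v = -1) :
    ((σ.erase v).filter (fun u => hd (stt g).1 u ≠ -1)).card =
      (σ.filter (fun u => hd (stt g).1 u ≠ -1)).card := by
  congr 1
  ext u
  simp only [Finset.mem_filter, Finset.mem_erase]
  constructor
  · rintro ⟨⟨_, a⟩, b⟩; exact ⟨a, b⟩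
  · rintro ⟨a, b⟩; exact ⟨⟨fun e => b (e ▸ h), a⟩, b⟩

lemma card_filter_push {g : RA G} {σ : Finset V} {v : V} (hv : v ∈ σ) (h : hd (stt g).1 v ≠ -1) :
    ((σ.erase v).filter (fun u => hd (stt g).1 u ≠ -1)).card + 1 =
      (σ.filter (fun u => hd (stt g).1 u ≠ -1)).card := by
  have e : (σ.erase v).filter (fun u => hd (stt g).1 u ≠ -1) =
      (σ.filter (fun u => hd (stt g).1 u ≠ -1)).erase v := by
    ext u; simp only [Finset.mem_filter, Finset.mem_erase]; tauto
  have hm : v ∈ σ.filter (fun u => hd (stt g).1 u ≠ -1) := by simp [hv, h]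
  rw [e, Finset.card_erase_of_mem hm]
  have := Finset.card_pos.2 ⟨v, hm⟩
  omega

lemma lvs_fc {g : RA G} {σ : Finset V} (hσ : clq G σ) {v : V} (hv : v ∈ σ) :
    lvs (fc g σ v) = lvs (g, σ) := by
  unfold fc lvs
  split_ifs with h
  · simp only
    rw [card_filter_pop h]
  · simp only
    rw [filter_mulgen hσ hv, stt_mul_gen, sz_mv_push h]
    have := card_filter_push hv h
    omega

lemma lvs_oc {g : RA G} {σ : Finset V} (hσ : clq G σ) {v : V} (hv : v ∈ σ) :
    lvs (oc g σ v) = lvs (g, σ) - 1 := by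
  unfold oc lvs
  split_ifs with h
  · simp only
    rw [filter_mulgen hσ hv, stt_mul_gen, sz_mv_pop h, card_filter_pop h]
    omega
  · simp only
    have := card_filter_push hv h
    omega

/-- the set of cells -/
def KK (G : SimpleGraph V) : Set (RA G × Finset V) := {c | clq G c.2}

lemma single_mem {C : Type} {S : Set C} {c : C} (h : c ∈ S) :
    (single c 1 : C →₀ ℤ) ∈ supported ℤ ℤ S := Finsupp.single_mem_supported ℤ 1 h

lemma bd_mem_KK {g : RA G} {σ : Finset V} (hσ : clq G σ) :
    bd G (single (g, σ) 1) ∈ supported ℤ ℤ (KK G) := by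
  rw [bd_single]
  apply Submodule.sum_mem
  intro v hv
  apply Submodule.smul_mem
  exact Submodule.sub_mem _ (single_mem (clq_erase hσ v)) (single_mem (clq_erase hσ v))

lemma exists_hd {s : V → List ℤ} (h2 : Valid G s) (h1 : 0 < sz s) : ∃ u, hd s u ≠ 0 := by
  cases h2 with
  | nil => simp [sz] at h1
  | push s u e hs he hne =>
    exact ⟨u, by rw [hd_push_self]; rcases he with rfl | rfl <;> decide⟩

lemma exists_tau {g : RA G} {σ : Finset V} (h : 0 < lvs (g, σ)) : ∃ t, tau g σ = some t := by
  have hT : (Tset g σ).Nonempty := by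
    by_cases hσ : σ.Nonempty
    · obtain ⟨v, hv⟩ := hσ
      exact ⟨v, by simp [Tset, hv]⟩
    · rw [Finset.not_nonempty_iff_eq_empty] at hσ
      subst hσ
      have h1 : 0 < sz (stt g).1 := by simpa [lvs] using h
      obtain ⟨u, hu⟩ := exists_hd (stt g).2 h1
      exact ⟨u, by simp [Tset, hu]⟩
  refine ⟨(Tset g σ).min' hT, ?_⟩
  unfold tau
  rw [dif_pos hT]

theorem exact_C (z : Ch G) (hz : z ∈ supported ℤ ℤ (KK G)) (hb : bd G z = 0)
    (ha : augC G z = 0) : ∃ u ∈ supported ℤ ℤ (KK G), bd G u = z := by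
  obtain ⟨u, hu, hu'⟩ := push_down (bd G) Dsz hsz lvs (KK G) 0
    (fun c hc => bd_bd hc)
    (fun c hc => bd_mem_KK hc)
    (fun c hc => by
      have := bd_sub_D c.1 c.2
      rw [Prod.mk.eta] at this
      rw [this]
      apply Submodule.sum_mem
      intro v hv
      apply Submodule.smul_mem
      apply single_mem
      change lvs (oc c.1 c.2 v) < lvs c
      rw [lvs_oc hc hv]; change lvs c - 1 < lvs c; omega)
    (fun c hc => by
      have := Dsz_single c.1 c.2
      rw [Prod.mk.eta] at this
      rw [this]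
      apply Submodule.sum_mem
      intro v hv
      apply Submodule.smul_mem
      apply single_mem
      exact lvs_fc hc hv)
    (fun c hc h0 => by
      obtain ⟨g, σ⟩ := c
      obtain ⟨t, ht⟩ := exists_tau h0
      by_cases htσ : t ∈ σ
      · rw [hsz_in ht htσ]; exact Submodule.zero_mem _
      · have hT := tau_mem ht
        simp only [Tset, Finset.mem_filter, Finset.mem_univ, true_and, htσ, false_or] at hT
        rw [hsz_out ht htσ]
        apply Submodule.smul_mem
        apply single_mem
        have hcl : clq G (cf g σ t).2 := by rw [cf_snd]; exact clq_insert hc hT.2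
        refine ⟨hcl, ?_⟩
        obtain ⟨e1, e2⟩ := fc_cf_self (g := g) htσ hT.1
        have h3 : t ∈ (cf g σ t).2 := by rw [cf_snd]; exact Finset.mem_insert_self _ _
        have := lvs_fc (g := (cf g σ t).1) hcl h3
        rw [e1] at this
        exact this.symm)
    (fun c hc h0 => by
      obtain ⟨g, σ⟩ := c
      obtain ⟨t, ht⟩ := exists_tau h0
      exact Dh_hD hc ht)
    z hz (by rw [hb]; exact Submodule.zero_mem _)
  have h1 : KK G ∩ {c | lvs c ≤ 0} ⊆ {((1 : RA G), (∅ : Finset V))} := by
    rintro ⟨g, σ⟩ ⟨hc, hl⟩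
    have hl' : sz (stt g).1 + ((σ.filter (fun v => hd (stt g).1 v ≠ -1)).card : ℤ) ≤ 0 := hl
    have h2 := sz_nonneg (stt g).1
    have h3 : sz (stt g).1 = 0 := by omega
    have h4 : (σ.filter (fun v => hd (stt g).1 v ≠ -1)).card = 0 := by omega
    have h5 : stt g = st0 := Subtype.ext ((stt g).2.eq_nil_of_sz h3)
    have h6 : g = 1 := eq_one_of_stt h5
    have h7 : σ = ∅ := by
      rw [Finset.card_eq_zero, Finset.filter_eq_empty_iff] at h4
      apply Finset.eq_empty_of_forall_notMem
      intro v hv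
      apply h4 hv
      rw [h5]; simp [st0, hd]
    rw [h6, h7]; rfl
  have h2 := Finsupp.supported_mono h1 hu'
  have h3 : z - bd G u = single ((1 : RA G), (∅ : Finset V)) ((z - bd G u) ((1 : RA G), ∅)) := by
    apply Finsupp.ext
    intro c
    by_cases hc : c = ((1 : RA G), (∅ : Finset V))
    · subst hc; simp
    · have : (z - bd G u) c = 0 := by
        by_contra h4
        exact hc ((Finsupp.mem_supported _ _).1 h2 (Finsupp.mem_support_iff.2 h4))
      rw [this, Finsupp.single_eq_of_ne hc]
  have h4 : augC G (z - bd G u) = 0 := by rw [map_sub, ha, augC_bd, sub_zero]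
  rw [h3] at h4
  have h5 : (single ((1 : RA G), (∅ : Finset V)) ((z - bd G u) ((1 : RA G), ∅)) : Ch G) =
      ((z - bd G u) ((1 : RA G), ∅)) • single ((1 : RA G), (∅ : Finset V)) 1 := by
    rw [Finsupp.smul_single, smul_eq_mul, mul_one]
  rw [h5, map_smul, augC_single, if_pos rfl, smul_eq_mul, mul_one] at h4
  rw [h4, Finsupp.single_zero] at h3
  exact ⟨u, hu, (sub_eq_zero.1 h3).symm⟩

end Pool.Agent.H653R3
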