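import Pool.Agent.H653R3.Hnn

set_option autoImplicit false
set_option linter.unusedSectionVars false
set_option linter.unusedVariables false

/-! The fibre product is not of type FP_2. -/

namespace Pool.Agent.H653R3

open Finsupp (single)

section general
variable {k P : Type} [CommRing k] [Group P]

lemma kerfg {Y : Type} (m : P → Y) (E : Subgroup P) (hm : ∀ p p', m p = m p' → p⁻¹ * p' ∈ E)
    (T : Set (P →₀ k)) (hT : T.Finite) (h : ∀ z ∈ T, Finsupp.mapDomain m z = 0) :
    ∃ E' ≤ E, E'.FG ∧ ∀ z ∈ T, Finsupp.mapDomain (QuotientGroup.mk : P → P ⧸ E') z = 0 := by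
  let s : Y → P := Function.invFun m
  have hs : ∀ p, m (s (m p)) = m p := fun p => Function.invFun_eq ⟨p, rfl⟩
  let S : Set P := ⋃ z ∈ T, (z.support : Set P)
  have hS : S.Finite := hT.biUnion (fun z _ => z.support.finite_toSet)
  let E' : Subgroup P := Subgroup.closure ((fun p => (s (m p))⁻¹ * p) '' S)
  refine ⟨E', ?_, ?_, ?_⟩
  · rw [Subgroup.closure_le]
    rintro _ ⟨p, _, rfl⟩
    exact hm _ _ (hs p)
  · rw [Subgroup.fg_iff]
    exact ⟨_, rfl, hS.image _⟩
  · intro z hz
    have h1 : Finsupp.mapDomain (QuotientGroup.mk : P → P ⧸ E') z =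
        Finsupp.mapDomain ((QuotientGroup.mk : P → P ⧸ E') ∘ s ∘ m) z := by
      apply Finsupp.mapDomain_congr
      intro p hp
      simp only [Function.comp_apply]
      symm
      rw [QuotientGroup.eq]
      apply Subgroup.subset_closure
      exact ⟨p, Set.mem_biUnion hz hp, rfl⟩
    rw [h1, ← Function.comp_assoc, Finsupp.mapDomain_comp, h z hz, Finsupp.mapDomain_zero]

lemma Phi_surj_cl {κ : Type} (x : κ → P) (g : P) (hg : g ∈ Subgroup.closure (Set.range x)) :
    ∃ z, Phi (k := k) x z = bs g () - bs 1 () := by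
  induction hg using Subgroup.closure_induction with
  | mem _ h =>
    obtain ⟨i, rfl⟩ := h
    exact ⟨bs 1 i, by rw [Phi_bs, one_mul]⟩
  | one => exact ⟨0, by simp⟩
  | mul a b _ _ ha hb =>
    obtain ⟨z, hz⟩ := ha
    obtain ⟨w, hw⟩ := hb
    refine ⟨z + pm k P (Cell P κ) a w, ?_⟩
    rw [map_add, hz, Phi_pm, hw, map_sub, pm_bs, pm_bs, mul_one]; abel
  | inv a _ ha =>
    obtain ⟨z, hz⟩ := ha
    refine ⟨-pm k P (Cell P κ) a⁻¹ z, ?_⟩
    rw [map_neg, Phi_pm, hz, map_sub, pm_bs, pm_bs, mul_one, inv_mul_cancel]; abel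

/-- the values of the test functional -/
noncomputable def E2 {ι : Type} (k : Type) [CommRing k] (E' : Subgroup P) : Ix ι → (P ⧸ E' →₀ k) :=
  Sum.elim (fun _ => 0) (fun _ => single (QuotientGroup.mk 1) 1)

/-- the component at the stable letter -/
noncomputable def ctt {ι : Type} : CC k P (Ix ι) →ₗ[k] (P →₀ k) :=
  Finsupp.linearCombination k (fun c : Cell P (Ix ι) =>
    (Sum.elim (fun _ => 0) (fun _ => single c.g 1) c.i : P →₀ k))

lemma ctt_inl {ι : Type} (g : P) (i : ι ⊕ ι) : ctt (k := k) (bs g (Sum.inl i)) = 0 := by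
  unfold ctt bs; rw [Finsupp.linearCombination_single]; simp

lemma ctt_inr {ι : Type} (g : P) (u : Unit) :
    ctt (k := k) (ι := ι) (bs g (Sum.inr u)) = single g 1 := by
  unfold ctt bs; rw [Finsupp.linearCombination_single]; simp

lemma test_eq {ι : Type} (E' : Subgroup P) (z : CC k P (Ix ι)) :
    tm (pm k P (P ⧸ E')) (E2 k E') z =
      Finsupp.mapDomain (QuotientGroup.mk : P → P ⧸ E') (ctt z) := by
  have h : tm (pm k P (P ⧸ E')) (E2 k E') =
      Finsupp.lmapDomain k k (QuotientGroup.mk : P → P ⧸ E') ∘ₗ ctt (ι := ι) := by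
    apply CC_ext
    intro g i
    rw [tm_bs, LinearMap.comp_apply]
    rcases i with i | i
    · rw [ctt_inl]; simp [E2]
    · rw [ctt_inr, Finsupp.lmapDomain_apply, Finsupp.mapDomain_single]
      simp only [E2, Sum.elim_inr]
      rw [pm_single]
      congr 1
      change QuotientGroup.mk (g * 1) = _
      rw [mul_one]
  exact LinearMap.congr_fun h z

/-- The key lemma: a subgroup `E` commuting with the stable letter is finitely generated. -/
lemma key_fg {ι : Type} (x : Ix ι → P) (E : Subgroup P)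
    (R : Set (CC ℤ P (Ix ι))) (hR : R.Finite)
    (hker : ∀ z, Phi x z = 0 → z ∈ gsp R)
    {Y : Type} (m : P → Y) (hm : ∀ p p', m p = m p' → p⁻¹ * p' ∈ E)
    (hRm : ∀ z ∈ R, Finsupp.mapDomain m (ctt z) = 0)
    (hcomm : ∀ e ∈ E, e * x tI = x tI * e)
    (hgen : ∀ e ∈ E, e ∈ Subgroup.closure (Set.range (fun i : ι ⊕ ι => x (Sum.inl i)))) :
    E.FG := by
  obtain ⟨E', hle, hfg, hz⟩ := kerfg m E hm (ctt '' R) (hR.image _) (by
    rintro _ ⟨z, hz, rfl⟩; exact hRm z hz)
  have hEE : E ≤ E' := by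
    intro e he
    obtain ⟨μ0, hμ0⟩ := Phi_surj_cl (k := ℤ) (fun i : ι ⊕ ι => x (Sum.inl i)) e (hgen e he)
    let inc : CC ℤ P (ι ⊕ ι) →ₗ[ℤ] CC ℤ P (Ix ι) :=
      tm (pm ℤ P (Cell P (Ix ι))) (fun i => bs 1 (Sum.inl i))
    have hinc : ∀ g i, inc (bs g i) = bs g (Sum.inl i) := by
      intro g i; simp only [inc]; rw [tm_bs, pm_bs, mul_one]
    have h1 : Phi x ∘ₗ inc = Phi (fun i : ι ⊕ ι => x (Sum.inl i)) := by
      apply CC_ext
      intro g i
      rw [LinearMap.comp_apply, hinc, Phi_bs, Phi_bs]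
    have h2 : ctt (k := ℤ) ∘ₗ inc = 0 := by
      apply CC_ext
      intro g i
      rw [LinearMap.comp_apply, hinc, ctt_inl]; rfl
    set μ := inc μ0 with hμ
    have h3 : Phi x μ = bs e () - bs 1 () := by
      rw [← hμ0, ← h1]; rfl
    have h4 : ctt μ = 0 := LinearMap.congr_fun h2 μ0
    set T := tm (pm ℤ P (P ⧸ E')) (E2 (ι := ι) ℤ E') with hT
    have hT0 : ∀ z, z ∈ gsp R → T z = 0 := by
      intro z hz'
      have h5 : gsp R ≤ LinearMap.ker T := by
        unfold gsp
        rw [Submodule.span_le]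
        rintro _ ⟨g, r, hr, rfl⟩
        rw [SetLike.mem_coe, LinearMap.mem_ker, hT, tm_pm, test_eq, hz _ ⟨r, hr, rfl⟩, map_zero]
      exact h5 hz'
    set lam : CC ℤ P (Ix ι) := (bs e tI - bs 1 tI) - (pm ℤ P (Cell P (Ix ι)) (x tI) μ - μ) with hlam
    have h6 : Phi x lam = 0 := by
      rw [hlam, map_sub, map_sub, map_sub, Phi_bs, Phi_bs, Phi_pm, h3, map_sub, pm_bs, pm_bs,
        hcomm e he, mul_one, one_mul]
      abel
    have h7 : T lam = 0 := hT0 _ (hker _ h6)
    have h8 : T μ = 0 := by rw [hT, test_eq, h4, Finsupp.mapDomain_zero]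
    have h9 : ∀ g : P, T (bs g tI) = single (QuotientGroup.mk g) 1 := by
      intro g
      rw [hT, test_eq, ctt_inr, Finsupp.mapDomain_single]
    rw [hlam, map_sub, map_sub, map_sub, h9, h9, hT, tm_pm, ← hT, h8, map_zero, sub_zero, sub_zero,
      sub_eq_zero] at h7
    have h10 := Finsupp.single_left_injective (one_ne_zero (α := ℤ)) h7
    have h11 := QuotientGroup.eq.1 h10.symm
    rwa [inv_one, one_mul] at h11
  have : E = E' := le_antisymm hEE hle
  rw [this]; exact hfg

end general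

section main
variable {ι Q : Type} [Group Q] {π : FreeGroup ι →* Q}

/-- constant section into the affine group -/
def Af.inj {k G U : Type} [CommRing k] [Group G] [AddCommGroup U] [Module k U]
    (ρ : Representation k G U) : G →* Af ρ where
  toFun g := ⟨g, 0⟩
  map_one' := rfl
  map_mul' g h := by
    apply Af.ext
    · rfl
    · rw [Af.mul_b, map_zero, add_zero]

/-- the graph inside the HNN extension -/
def gh (π : FreeGroup ι →* Q) : FreeGroup ι →* G1 π :=
  HNNExtension.of.comp ((MonoidHom.id (FreeGroup ι)).prod π)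

lemma gh_eq (f : FreeGroup ι) : gh π f = jF π f * jQ π (π f) := of_eq π f (π f)

theorem fib_FG [Finite ι] (hπ : Function.Surjective π) (p : G1 π →* Q) (h1 : ∀ f, p (jF π f) = 1)
    (h2 : ∀ q, p (jQ π q) = q) (h3 : p (sl π) = 1)
    (hP : FP ↥((p.comp (MonoidHom.fst (G1 π) (FreeGroup ι))).eqLocus
      (π.comp (MonoidHom.snd (G1 π) (FreeGroup ι)))) 2) :
    ((π.comp (MonoidHom.fst (FreeGroup ι) (FreeGroup ι))).eqLocus
      (π.comp (MonoidHom.snd (FreeGroup ι) (FreeGroup ι)))).FG := by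
  set P := (p.comp (MonoidHom.fst (G1 π) (FreeGroup ι))).eqLocus
      (π.comp (MonoidHom.snd (G1 π) (FreeGroup ι))) with hPdef
  have memP : ∀ g f, (g, f) ∈ P ↔ p g = π f := fun g f => Iff.rfl
  -- generators
  let kF : FreeGroup ι →* ↥P := ((jF π).prod 1).codRestrict P (fun f => by
    change p (jF π f) = π 1; rw [h1, map_one])
  let kQ : FreeGroup ι →* ↥P := (((jQ π).comp π).prod (MonoidHom.id _)).codRestrict P (fun f => by
    change p (jQ π (π f)) = π f; rw [h2])
  let bt : ↥P := ⟨(sl π, 1), by change p (sl π) = π 1; rw [h3, map_one]⟩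
  let x : Ix ι → ↥P := Sum.elim (Sum.elim (fun i => kF (FreeGroup.of i))
    (fun i => kQ (FreeGroup.of i))) (fun _ => bt)
  have kFv : ∀ f, (kF f : G1 π × FreeGroup ι) = (jF π f, 1) := fun f => rfl
  have kQv : ∀ f, (kQ f : G1 π × FreeGroup ι) = (jQ π (π f), f) := fun f => rfl
  have kF_mem : ∀ f, kF f ∈ Subgroup.closure (Set.range (fun i : ι ⊕ ι => x (Sum.inl i))) := by
    intro f
    refine free_mem kF _ (fun i => ?_) f
    exact Subgroup.subset_closure ⟨Sum.inl i, rfl⟩
  have kQ_mem : ∀ f, kQ f ∈ Subgroup.closure (Set.range (fun i : ι ⊕ ι => x (Sum.inl i))) := by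
    intro f
    refine free_mem kQ _ (fun i => ?_) f
    exact Subgroup.subset_closure ⟨Sum.inr i, rfl⟩
  have hsub : Subgroup.closure (Set.range (fun i : ι ⊕ ι => x (Sum.inl i))) ≤
      Subgroup.closure (Set.range x) := by
    apply Subgroup.closure_mono
    rintro _ ⟨i, rfl⟩
    exact ⟨Sum.inl i, rfl⟩
  have hx : Subgroup.closure (Set.range x) = ⊤ := by
    rw [eq_top_iff]
    rintro ⟨⟨g, f⟩, hgf⟩ _
    have hKS : KS π ≤ ((Subgroup.closure (Set.range x)).map P.subtype).comap
        (MonoidHom.inl (G1 π) (FreeGroup ι)) := by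
      refine (Subgroup.closure_le _).2 ?_
      rintro c (⟨i, rfl⟩ | hc)
      · exact ⟨kF (FreeGroup.of i), hsub (kF_mem _), rfl⟩
      · rw [Set.mem_singleton_iff] at hc
        subst hc
        exact ⟨bt, Subgroup.subset_closure ⟨tI, rfl⟩, rfl⟩
    have h4 : g * (jQ π (π f))⁻¹ ∈ p.ker := by
      have h5 : p g = π f := hgf
      rw [MonoidHom.mem_ker, map_mul, map_inv, h2, h5, mul_inv_cancel]
    rw [ker_p1 hπ p h1 h2 h3] at h4
    obtain ⟨c, hc, hc'⟩ := hKS h4
    have h6 : (⟨(g, f), hgf⟩ : ↥P) = c * kQ f := by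
      apply Subtype.ext
      have h7 : (c : G1 π × FreeGroup ι) = (g * (jQ π (π f))⁻¹, 1) := hc'
      rw [Subgroup.coe_mul, h7, kQv, Prod.mk_mul_mk, inv_mul_cancel_right, one_mul]
    rw [h6]
    exact Subgroup.mul_mem _ hc (hsub (kQ_mem f))
  obtain ⟨R, hR1, hR2, hR3⟩ := FP2_to x hx hP
  -- the derivation
  let Gr : Subgroup (G1 π) := (gh π).range
  let ρ : Representation ℤ (G1 π) (G1 π ⧸ Gr →₀ ℤ) := pm ℤ (G1 π) (G1 π ⧸ Gr)
  obtain ⟨θ, hθ1, hθ2, hθ3⟩ := G1_lift hπ ((Af.inj ρ).comp (jF π)) ((Af.inj ρ).comp (jQ π))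
    (⟨sl π, single (QuotientGroup.mk 1) 1⟩ : Af ρ)
    (by
      intro i j
      rw [MonoidHom.comp_apply, MonoidHom.comp_apply, ← map_mul, ← map_mul, j_comm])
    (by
      intro i
      rw [MonoidHom.comp_apply, MonoidHom.comp_apply, ← map_mul, ← gh_eq]
      apply Af.ext
      · change sl π * gh π (FreeGroup.of i) = gh π (FreeGroup.of i) * sl π
        rw [gh_eq, sl_comm]
      · change single (QuotientGroup.mk 1) 1 + ρ (sl π) 0 =
          0 + ρ (gh π (FreeGroup.of i)) (single (QuotientGroup.mk 1) 1)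
        rw [map_zero, add_zero, zero_add]
        change _ = pm ℤ (G1 π) (G1 π ⧸ Gr) _ _
        rw [pm_single]
        congr 1
        change QuotientGroup.mk 1 = QuotientGroup.mk (gh π (FreeGroup.of i) * 1)
        rw [mul_one, QuotientGroup.eq, inv_one, one_mul]
        exact ⟨_, rfl⟩)
  have hθg : ∀ g, (θ g).g = g := by
    intro g
    have : (Af.fst ρ).comp θ = MonoidHom.id _ := by
      apply G1_hom_ext
      · intro i
        rw [MonoidHom.comp_apply, hθ1]; rfl
      · intro q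
        rw [MonoidHom.comp_apply, hθ2]; rfl
      · rw [MonoidHom.comp_apply, hθ3]; rfl
    exact DFunLike.congr_fun this g
  let pr1 : ↥P →* G1 π := (MonoidHom.fst _ _).comp P.subtype
  have hder : ∀ z, Phi x z = 0 → tm (ρ.comp pr1) (fun i => (θ (pr1 (x i))).b) z = 0 := by
    intro z hz
    exact deriv (θ.comp pr1) (ρ.comp pr1) (fun h u => by
      change ρ (pr1 h) u = ρ (θ (pr1 h)).g u
      rw [hθg]) x z hz
  let E : Subgroup ↥P := Gr.comap pr1
  have hE : E.FG := by
    apply key_fg x E R hR1 hR3 (fun q : ↥P => (QuotientGroup.mk (pr1 q) : G1 π ⧸ Gr))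
    · intro q q' h
      have h4 := QuotientGroup.eq.1 h
      change pr1 (q⁻¹ * q') ∈ Gr
      rw [map_mul, map_inv]
      exact h4
    · intro z hz
      have h4 := hder z (hR2 z hz)
      have h5 : tm (ρ.comp pr1) (fun i => (θ (pr1 (x i))).b) =
          Finsupp.lmapDomain ℤ ℤ (fun q : ↥P => (QuotientGroup.mk (pr1 q) : G1 π ⧸ Gr)) ∘ₗ
            ctt (ι := ι) := by
        apply CC_ext
        intro g i
        rw [tm_bs, LinearMap.comp_apply]
        rcases i with (i | i) | i
        · rw [ctt_inl, map_zero]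
          change ρ (pr1 g) (θ (jF π (FreeGroup.of i))).b = 0
          rw [hθ1]
          change ρ (pr1 g) 0 = 0
          rw [map_zero]
        · rw [ctt_inl, map_zero]
          change ρ (pr1 g) (θ (jQ π (π (FreeGroup.of i)))).b = 0
          rw [hθ2]
          change ρ (pr1 g) 0 = 0
          rw [map_zero]
        · rw [ctt_inr, Finsupp.lmapDomain_apply, Finsupp.mapDomain_single]
          change ρ (pr1 g) (θ (sl π)).b = _
          rw [hθ3]
          change pm ℤ (G1 π) (G1 π ⧸ Gr) _ _ = _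
          rw [pm_single]
          congr 1
          change QuotientGroup.mk (pr1 g * 1) = _
          rw [mul_one]
      rw [h5] at h4
      exact h4
    · rintro e ⟨f, hf⟩
      apply Subtype.ext
      change e.1 * (sl π, 1) = (sl π, 1) * e.1
      have h4 : gh π f = e.1.1 := hf
      apply Prod.ext
      · change e.1.1 * sl π = sl π * e.1.1
        rw [← h4, gh_eq, sl_comm]
      · change e.1.2 * 1 = 1 * e.1.2
        rw [mul_one, one_mul]
    · rintro e ⟨f, hf⟩
      have h4 : gh π f = e.1.1 := hf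
      have h5 : p e.1.1 = π e.1.2 := e.2
      rw [← h4, gh_eq, map_mul, h1, h2, one_mul] at h5
      have h6 : e = kF f * kQ e.1.2 := by
        apply Subtype.ext
        rw [Subgroup.coe_mul, kFv, kQv, Prod.mk_mul_mk, one_mul, ← h5, ← gh_eq, h4]
      rw [h6]
      exact Subgroup.mul_mem _ (kF_mem _) (kQ_mem _)
  -- transfer
  obtain ⟨s, hs1, hs2, hs3⟩ := exists_ret hπ
  let ψ : ↥P →* FreeGroup ι × FreeGroup ι :=
    ((s.comp (MonoidHom.fst _ _)).prod (MonoidHom.snd _ _)).comp P.subtype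
  have hmap : E.map ψ = (π.comp (MonoidHom.fst (FreeGroup ι) (FreeGroup ι))).eqLocus
      (π.comp (MonoidHom.snd (FreeGroup ι) (FreeGroup ι))) := by
    ext ⟨f, f'⟩
    constructor
    · rintro ⟨e, ⟨f0, hf0⟩, he⟩
      have h4 : gh π f0 = e.1.1 := hf0
      have h5 : p e.1.1 = π e.1.2 := e.2
      have h6 : s e.1.1 = f := congrArg Prod.fst he
      have h7 : e.1.2 = f' := congrArg Prod.snd he
      rw [← h4, gh_eq, map_mul, hs1, hs2, mul_one] at h6
      rw [← h4, gh_eq, map_mul, h1, h2, one_mul, h6, h7] at h5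
      exact h5
    · intro h
      have h4 : π f = π f' := h
      refine ⟨⟨(gh π f, f'), ?_⟩, ⟨f, rfl⟩, ?_⟩
      · change p (gh π f) = π f'
        rw [gh_eq, map_mul, h1, h2, one_mul, h4]
      · change (s (gh π f), f') = (f, f')
        rw [gh_eq, map_mul, hs1, hs2, mul_one]
  rw [← hmap]
  rw [Subgroup.fg_iff] at hE ⊢
  obtain ⟨S, hS, hSf⟩ := hE
  exact ⟨ψ '' S, by rw [← hS, MonoidHom.map_closure], hSf.image _⟩

end main

end Pool.Agent.H653R3
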