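import Pool.Agent.H653R3.Aff

set_option autoImplicit false
set_option linter.unusedSectionVars false
set_option linter.unusedVariables false

/-! The HNN extension of `F × Q` along the graph of `F → Q`. -/

namespace Pool.Agent.H653R3

open Finsupp (single)

variable {ι Q : Type} [Group Q] (π : FreeGroup ι →* Q)

/-- graph -/
def grf : Subgroup (FreeGroup ι × Q) := ((MonoidHom.id (FreeGroup ι)).prod π).range

/-- the HNN extension -/
abbrev G1 : Type := HNNExtension (FreeGroup ι × Q) (grf π) (grf π) (MulEquiv.refl _)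

def jF : FreeGroup ι →* G1 π := HNNExtension.of.comp (MonoidHom.inl _ _)
def jQ : Q →* G1 π := HNNExtension.of.comp (MonoidHom.inr _ _)
def sl : G1 π := HNNExtension.t

lemma of_eq (f : FreeGroup ι) (q : Q) : (HNNExtension.of (f, q) : G1 π) = jF π f * jQ π q := by
  unfold jF jQ
  rw [MonoidHom.comp_apply, MonoidHom.comp_apply, ← map_mul]
  congr 1
  ext <;> simp

lemma of_eq' (f : FreeGroup ι) (q : Q) : (HNNExtension.of (f, q) : G1 π) = jQ π q * jF π f := by
  unfold jF jQ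
  rw [MonoidHom.comp_apply, MonoidHom.comp_apply, ← map_mul]
  congr 1
  ext <;> simp

lemma j_comm (f : FreeGroup ι) (q : Q) : jF π f * jQ π q = jQ π q * jF π f := by
  rw [← of_eq, of_eq']

lemma sl_comm (f : FreeGroup ι) : sl π * (jF π f * jQ π (π f)) = (jF π f * jQ π (π f)) * sl π := by
  rw [← of_eq]
  exact HNNExtension.t_mul_of (A := grf π) (B := grf π) (φ := MulEquiv.refl _) ⟨(f, π f), ⟨f, rfl⟩⟩

variable {π} in
lemma G1_hom_ext {H : Type} [Group H] {θ θ' : G1 π →* H}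
    (h1 : ∀ i, θ (jF π (FreeGroup.of i)) = θ' (jF π (FreeGroup.of i)))
    (h2 : ∀ q, θ (jQ π q) = θ' (jQ π q)) (h3 : θ (sl π) = θ' (sl π)) : θ = θ' := by
  apply HNNExtension.hom_ext
  · apply MonoidHom.ext
    rintro ⟨f, q⟩
    rw [MonoidHom.comp_apply, MonoidHom.comp_apply, of_eq, map_mul, map_mul, h2]
    congr 1
    have : θ.comp (jF π) = θ'.comp (jF π) := FreeGroup.ext_hom _ _ h1
    exact DFunLike.congr_fun this f
  · exact h3

lemma comm_free {ι H : Type} [Group H] (m : FreeGroup ι →* H) (c : H)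
    (h : ∀ i, Commute c (m (FreeGroup.of i))) (f : FreeGroup ι) : Commute c (m f) := by
  induction f using FreeGroup.induction_on with
  | C1 => rw [map_one]; exact Commute.one_right _
  | of i => exact h i
  | inv_of i hi => rw [map_inv]; exact hi.inv_right
  | mul a b ha hb => rw [map_mul]; exact ha.mul_right hb

variable {π} in
lemma G1_lift (hπ : Function.Surjective π) {H : Type} [Group H] (a : FreeGroup ι →* H)
    (b : Q →* H) (c : H)
    (hab : ∀ i j, a (FreeGroup.of i) * b (π (FreeGroup.of j)) =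
      b (π (FreeGroup.of j)) * a (FreeGroup.of i))
    (hc : ∀ i, c * (a (FreeGroup.of i) * b (π (FreeGroup.of i))) =
      (a (FreeGroup.of i) * b (π (FreeGroup.of i))) * c) :
    ∃ θ : G1 π →* H, (∀ f, θ (jF π f) = a f) ∧ (∀ q, θ (jQ π q) = b q) ∧ θ (sl π) = c := by
  have comm : ∀ f q, Commute (a f) (b q) := by
    intro f q
    obtain ⟨f', rfl⟩ := hπ q
    have h1 : ∀ i, Commute (b (π f')) (a (FreeGroup.of i)) := fun i =>
      (comm_free (b.comp π) (a (FreeGroup.of i)) (fun j => hab i j) f').symm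
    exact (comm_free a (b (π f')) h1 f).symm
  let n : FreeGroup ι × Q →* H := MonoidHom.noncommCoprod a b comm
  have hn : ∀ f q, n (f, q) = a f * b q := fun f q => rfl
  have hcc : ∀ x : grf π, c * n x = n (MulEquiv.refl _ x : grf π) * c := by
    rintro ⟨x, ⟨f, rfl⟩⟩
    change c * (a f * b (π f)) = (a f * b (π f)) * c
    exact comm_free (n.comp ((MonoidHom.id (FreeGroup ι)).prod π)) c (fun i => hc i) f
  refine ⟨HNNExtension.lift n c hcc, ?_, ?_, ?_⟩
  · intro f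
    change HNNExtension.lift n c hcc (HNNExtension.of (f, 1)) = _
    rw [HNNExtension.lift_of, hn, map_one, mul_one]
  · intro q
    change HNNExtension.lift n c hcc (HNNExtension.of (1, q)) = _
    rw [HNNExtension.lift_of, hn, map_one, one_mul]
  · exact HNNExtension.lift_t _ _ _

/-! ### Generators -/

/-- index type of the generators -/
abbrev Ix (ι : Type) : Type := (ι ⊕ ι) ⊕ Unit

abbrev fI (i : ι) : Ix ι := Sum.inl (Sum.inl i)
abbrev qI (i : ι) : Ix ι := Sum.inl (Sum.inr i)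
abbrev tI : Ix ι := Sum.inr ()

/-- generators -/
def xx : Ix ι → G1 π := Sum.elim (Sum.elim (fun i => jF π (FreeGroup.of i))
  (fun i => jQ π (π (FreeGroup.of i)))) (fun _ => sl π)

lemma xx_f (i : ι) : xx π (fI i) = jF π (FreeGroup.of i) := rfl
lemma xx_q (i : ι) : xx π (qI i) = jQ π (π (FreeGroup.of i)) := rfl
lemma xx_t : xx π tI = sl π := rfl

variable {π} in
lemma xx_closure (hπ : Function.Surjective π) : Subgroup.closure (Set.range (xx π)) = ⊤ := by
  rw [eq_top_iff]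
  intro g _
  induction g using HNNExtension.induction_on with
  | of p =>
    obtain ⟨f, q⟩ := p
    rw [of_eq]
    apply Subgroup.mul_mem
    · refine free_mem (jF π) _ (fun i => ?_) f
      exact Subgroup.subset_closure ⟨fI i, rfl⟩
    · obtain ⟨f', rfl⟩ := hπ q
      refine free_mem ((jQ π).comp π) _ (fun i => ?_) f'
      exact Subgroup.subset_closure ⟨qI i, rfl⟩
  | t => exact Subgroup.subset_closure ⟨tI, rfl⟩
  | mul a b ha hb => exact Subgroup.mul_mem _ (ha trivial) (hb trivial)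
  | inv a ha => exact Subgroup.inv_mem _ (ha trivial)

/-! ### Relations -/

variable {k : Type} [CommRing k]

/-- inclusion of chains of `Q` -/
noncomputable def icl : CC k Q ι →ₗ[k] CC k (G1 π) (Ix ι) :=
  tm ((pm k (G1 π) (Cell (G1 π) (Ix ι))).comp (jQ π)) (fun i => bs 1 (qI i))

lemma icl_bs (q : Q) (i : ι) : icl (k := k) π (bs q i) = bs (jQ π q) (qI i) := by
  unfold icl
  rw [tm_bs]
  change pm k (G1 π) (Cell (G1 π) (Ix ι)) (jQ π q) (bs 1 (qI i)) = _
  rw [pm_bs, mul_one]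

lemma icl_pm (q : Q) (z : CC k Q ι) : icl π (pm k Q (Cell Q ι) q z) =
    pm k (G1 π) (Cell (G1 π) (Ix ι)) (jQ π q) (icl π z) := tm_pm _ _ q z

/-- `x_i y_i` chain -/
noncomputable def mch (i : ι) : CC k (G1 π) (Ix ι) :=
  bs 1 (fI i) + bs (jF π (FreeGroup.of i)) (qI i)

/-- first kind of relations -/
noncomputable def r1 (p : ι × ι) : CC k (G1 π) (Ix ι) :=
  (bs 1 (fI p.1) + bs (jF π (FreeGroup.of p.1)) (qI p.2)) -
    (bs 1 (qI p.2) + bs (jQ π (π (FreeGroup.of p.2))) (fI p.1))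

/-- third kind of relations -/
noncomputable def r3 (i : ι) : CC k (G1 π) (Ix ι) :=
  (bs 1 tI + pm k (G1 π) (Cell (G1 π) (Ix ι)) (sl π) (mch π i)) -
    (mch π i + bs (jF π (FreeGroup.of i) * jQ π (π (FreeGroup.of i))) tI)

/-- all relations -/
noncomputable def RR (RQ : Set (CC k Q ι)) : Set (CC k (G1 π) (Ix ι)) :=
  (Set.range (r1 π) ∪ (icl π '' RQ)) ∪ Set.range (r3 π)

lemma Phi_icl (z : CC k Q ι) : Phi (xx π) (icl π z) =
    tm ((pm k (G1 π) (Cell (G1 π) Unit)).comp (jQ π)) (fun _ => bs 1 ())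
      (Phi (fun i => π (FreeGroup.of i)) z) := by
  have h : Phi (xx π) ∘ₗ icl (k := k) π =
      tm ((pm k (G1 π) (Cell (G1 π) Unit)).comp (jQ π)) (fun _ => bs 1 ()) ∘ₗ
      (Phi (fun i => π (FreeGroup.of i))) := by
    apply CC_ext
    intro g i
    rw [LinearMap.comp_apply, LinearMap.comp_apply, icl_bs, Phi_bs, Phi_bs, map_sub, tm_bs, tm_bs]
    change _ = pm k (G1 π) (Cell (G1 π) Unit) (jQ π _) (bs 1 ()) -
      pm k (G1 π) (Cell (G1 π) Unit) (jQ π _) (bs 1 ())
    rw [pm_bs, pm_bs, mul_one, mul_one, xx_q, map_mul]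
  exact LinearMap.congr_fun h z

lemma Phi_mch (i : ι) : Phi (k := k) (xx π) (mch π i) =
    bs (jF π (FreeGroup.of i) * jQ π (π (FreeGroup.of i))) () - bs 1 () := by
  unfold mch
  rw [map_add, Phi_bs, Phi_bs, one_mul, xx_f, xx_q]
  abel

lemma RR_Phi (RQ : Set (CC k Q ι)) (hRQ : ∀ r ∈ RQ, Phi (fun i => π (FreeGroup.of i)) r = 0) :
    ∀ r ∈ RR π RQ, Phi (xx π) r = 0 := by
  rintro r ((⟨⟨i, j⟩, rfl⟩ | ⟨w, hw, rfl⟩) | ⟨i, rfl⟩)
  · unfold r1
    rw [map_sub, map_add, map_add, Phi_bs, Phi_bs, Phi_bs, Phi_bs, one_mul, one_mul, xx_f, xx_q,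
      j_comm]
    abel
  · rw [Phi_icl, hRQ w hw, map_zero]
  · unfold r3
    rw [map_sub, map_add, map_add, Phi_pm, Phi_mch, Phi_bs, Phi_bs, map_sub, pm_bs, pm_bs, xx_t,
      sl_comm, one_mul, mul_one]
    abel

variable {π} in
lemma RR_ker (hπ : Function.Surjective π) (RQ : Set (CC k Q ι))
    (hRQ : ∀ z, Phi (fun i => π (FreeGroup.of i)) z = 0 → z ∈ gsp RQ)
    (z : CC k (G1 π) (Ix ι)) (hz : Phi (xx π) z = 0) : z ∈ gsp (RR π RQ) := by
  set W : Submodule k (CC k (G1 π) (Ix ι)) := gsp (RR π RQ) with hW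
  have hWc : ∀ g, W ≤ W.comap (pm k (G1 π) (Cell (G1 π) (Ix ι)) g) := fun g z hz => gsp_pm hz g
  let ρ : Representation k (G1 π) (CC k (G1 π) (Ix ι) ⧸ W) :=
    (pm k (G1 π) (Cell (G1 π) (Ix ι))).quotient W hWc
  have hρ : ∀ g (z : CC k (G1 π) (Ix ι)), ρ g (W.mkQ z) =
      W.mkQ (pm k (G1 π) (Cell (G1 π) (Ix ι)) g z) := fun g z => rfl
  have hmk : ∀ g i, ρ g (W.mkQ (bs 1 i)) = W.mkQ (bs g i) := by
    intro g i; rw [hρ, pm_bs, mul_one]
  have hy : Subgroup.closure (Set.range (fun i => π (FreeGroup.of i))) = ⊤ := by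
    rw [eq_top_iff]
    intro q _
    obtain ⟨f, rfl⟩ := hπ q
    refine free_mem π _ (fun i => ?_) f
    exact Subgroup.subset_closure ⟨i, rfl⟩
  obtain ⟨b, hb1, hb2⟩ := liftQ (ρ := ρ) (fun i => π (FreeGroup.of i)) hy (ρ.comp (jQ π)) (jQ π)
    (fun q u => rfl) (fun i => W.mkQ (bs 1 (qI i))) (by
      intro z hz
      have h1 : tm (ρ.comp (jQ π)) (fun i => W.mkQ (bs 1 (qI i))) = W.mkQ ∘ₗ icl π := by
        apply CC_ext
        intro q i
        rw [tm_bs, LinearMap.comp_apply, icl_bs]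
        change ρ (jQ π q) (W.mkQ (bs 1 (qI i))) = _
        rw [hmk]
      rw [h1, LinearMap.comp_apply, Submodule.mkQ_apply, Submodule.Quotient.mk_eq_zero]
      have h2 : gsp RQ ≤ W.comap (icl π) := by
        unfold gsp
        rw [Submodule.span_le]
        rintro _ ⟨q, r, hr, rfl⟩
        rw [SetLike.mem_coe, Submodule.mem_comap, icl_pm]
        apply gsp_pm
        exact mem_gsp (Or.inl (Or.inr ⟨r, hr, rfl⟩))
      exact h2 (hRQ z hz))
  let a : FreeGroup ι →* Af ρ :=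
    FreeGroup.lift (fun i => (⟨jF π (FreeGroup.of i), W.mkQ (bs 1 (fI i))⟩ : Af ρ))
  have ha : ∀ i, a (FreeGroup.of i) = ⟨jF π (FreeGroup.of i), W.mkQ (bs 1 (fI i))⟩ := by
    intro i; simp only [a, FreeGroup.lift_apply_of]
  have hb : ∀ i, b (π (FreeGroup.of i)) = ⟨jQ π (π (FreeGroup.of i)), W.mkQ (bs 1 (qI i))⟩ := by
    intro i; exact Af.ext (hb1 _) (hb2 i)
  obtain ⟨θ, hθ1, hθ2, hθ3⟩ := G1_lift hπ a b (⟨sl π, W.mkQ (bs 1 tI)⟩ : Af ρ)
    (by
      intro i j
      rw [ha, hb]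
      apply Af.ext
      · simp only [Af.mul_g, j_comm]
      · simp only [Af.mul_b]
        rw [hmk, hmk, ← map_add, ← map_add, ← sub_eq_zero, ← map_sub, Submodule.mkQ_apply,
          Submodule.Quotient.mk_eq_zero]
        exact mem_gsp (Or.inl (Or.inl ⟨(i, j), rfl⟩)))
    (by
      intro i
      rw [ha, hb]
      apply Af.ext
      · simp only [Af.mul_g, sl_comm]
      · simp only [Af.mul_b, Af.mul_g]
        rw [hmk, hmk, ← map_add, hρ, ← map_add, ← map_add, ← sub_eq_zero, ← map_sub,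
          Submodule.mkQ_apply, Submodule.Quotient.mk_eq_zero]
        exact mem_gsp (Or.inr ⟨i, rfl⟩))
  have hθg : ∀ g, (θ g).g = g := by
    intro g
    have : (Af.fst ρ).comp θ = MonoidHom.id _ := by
      apply G1_hom_ext
      · intro i
        rw [MonoidHom.comp_apply, hθ1, ha]; rfl
      · intro q
        rw [MonoidHom.comp_apply, hθ2, Af.fst_apply, hb1]; rfl
      · rw [MonoidHom.comp_apply, hθ3]; rfl
    exact DFunLike.congr_fun this g
  have h2 := deriv θ ρ (fun h u => by rw [hθg]) (xx π) z hz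
  have h3 : tm ρ (fun i => (θ (xx π i)).b) = W.mkQ := by
    apply CC_ext
    intro g i
    rw [tm_bs]
    rcases i with (i | i) | i
    · rw [xx_f, hθ1, ha, hmk]
    · rw [xx_q, hθ2, hb, hmk]
    · rw [show (Sum.inr i : Ix ι) = tI from rfl, xx_t, hθ3, hmk]
  rw [h3, Submodule.mkQ_apply, Submodule.Quotient.mk_eq_zero] at h2
  exact h2

theorem G1_FP2 [Finite ι] (hπ : Function.Surjective π) (hQ : FP Q 2) : FP (G1 π) 2 := by
  have hy : Subgroup.closure (Set.range (fun i => π (FreeGroup.of i))) = ⊤ := by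
    rw [eq_top_iff]
    intro q _
    obtain ⟨f, rfl⟩ := hπ q
    refine free_mem π _ (fun i => ?_) f
    exact Subgroup.subset_closure ⟨i, rfl⟩
  obtain ⟨RQ, h1, h2, h3⟩ := FP2_to (fun i => π (FreeGroup.of i)) hy hQ
  refine FP2_of (xx π) (xx_closure hπ) (RR π RQ) ?_ (RR_Phi π RQ h2)
    (fun z hz => RR_ker hπ RQ h3 z hz)
  exact ((Set.finite_range _).union (h1.image _)).union (Set.finite_range _)

/-! ### The projection to `Q` -/

variable {π} in
lemma exists_p1 (hπ : Function.Surjective π) : ∃ p : G1 π →* Q, (∀ f, p (jF π f) = 1) ∧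
    (∀ q, p (jQ π q) = q) ∧ p (sl π) = 1 := by
  obtain ⟨θ, h1, h2, h3⟩ := G1_lift hπ (1 : FreeGroup ι →* Q) (MonoidHom.id Q) 1
    (by intro i j; simp) (by intro i; simp)
  exact ⟨θ, fun f => by rw [h1]; rfl, fun q => by rw [h2]; rfl, h3⟩

variable {π} in
lemma exists_ret (hπ : Function.Surjective π) : ∃ s : G1 π →* FreeGroup ι,
    (∀ f, s (jF π f) = f) ∧ (∀ q, s (jQ π q) = 1) ∧ s (sl π) = 1 := by
  obtain ⟨θ, h1, h2, h3⟩ := G1_lift hπ (MonoidHom.id (FreeGroup ι)) (1 : Q →* FreeGroup ι) 1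
    (by intro i j; simp) (by intro i; simp)
  exact ⟨θ, fun f => by rw [h1]; rfl, fun q => by rw [h2]; rfl, h3⟩

/-- the kernel -/
def KS : Subgroup (G1 π) :=
  Subgroup.closure (Set.range (fun i => jF π (FreeGroup.of i)) ∪ {sl π})

lemma jF_KS (f : FreeGroup ι) : jF π f ∈ KS π :=
  free_mem (jF π) (KS π) (fun i => Subgroup.subset_closure (Or.inl ⟨i, rfl⟩)) f

lemma sl_KS : sl π ∈ KS π := Subgroup.subset_closure (Or.inr rfl)

variable {π} in
lemma KS_conj (hπ : Function.Surjective π) (q : Q) {g : G1 π} (hg : g ∈ KS π) :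
    jQ π q * g * (jQ π q)⁻¹ ∈ KS π := by
  have : KS π ≤ (KS π).comap (MulAut.conj (jQ π q)).toMonoidHom := by
    refine (Subgroup.closure_le _).2 ?_
    rintro g (⟨i, rfl⟩ | hg)
    · change jQ π q * jF π (FreeGroup.of i) * (jQ π q)⁻¹ ∈ KS π
      rw [← j_comm, mul_inv_cancel_right]
      exact Subgroup.subset_closure (Or.inl ⟨i, rfl⟩)
    · rw [Set.mem_singleton_iff] at hg
      subst hg
      change jQ π q * sl π * (jQ π q)⁻¹ ∈ KS π
      obtain ⟨f, rfl⟩ := hπ q
      have h1 := sl_comm π f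
      have h2 : jQ π (π f) * sl π * (jQ π (π f))⁻¹ = (jF π f)⁻¹ * sl π * jF π f := by
        rw [mul_inv_eq_iff_eq_mul, mul_assoc, mul_assoc, h1, mul_assoc, inv_mul_cancel_left]
      rw [h2]
      exact Subgroup.mul_mem _ (Subgroup.mul_mem _ (Subgroup.inv_mem _ (jF_KS π f)) (sl_KS π))
        (jF_KS π f)
  exact this hg

variable {π} in
lemma KS_dec (hπ : Function.Surjective π) (g : G1 π) : ∃ c ∈ KS π, ∃ q, g = c * jQ π q := by
  induction g using HNNExtension.induction_on with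
  | of p =>
    obtain ⟨f, q⟩ := p
    exact ⟨jF π f, jF_KS π f, q, of_eq π f q⟩
  | t => exact ⟨sl π, sl_KS π, 1, by rw [map_one, mul_one]; rfl⟩
  | mul a b ha hb =>
    obtain ⟨c, hc, q, rfl⟩ := ha
    obtain ⟨c', hc', q', rfl⟩ := hb
    refine ⟨c * (jQ π q * c' * (jQ π q)⁻¹), Subgroup.mul_mem _ hc (KS_conj hπ q hc'), q * q', ?_⟩
    rw [map_mul]; group
  | inv a ha =>
    obtain ⟨c, hc, q, rfl⟩ := ha
    refine ⟨jQ π q⁻¹ * c⁻¹ * (jQ π q⁻¹)⁻¹, KS_conj hπ q⁻¹ (Subgroup.inv_mem _ hc), q⁻¹, ?_⟩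
    rw [map_inv]; group

variable {π} in
lemma ker_p1 (hπ : Function.Surjective π) (p : G1 π →* Q) (h1 : ∀ f, p (jF π f) = 1)
    (h2 : ∀ q, p (jQ π q) = q) (h3 : p (sl π) = 1) : p.ker = KS π := by
  have h4 : KS π ≤ p.ker := by
    unfold KS
    rw [Subgroup.closure_le]
    rintro g (⟨i, rfl⟩ | hg)
    · exact h1 _
    · rw [Set.mem_singleton_iff] at hg
      subst hg; exact h3
  apply le_antisymm _ h4
  intro g hg
  obtain ⟨c, hc, q, rfl⟩ := KS_dec hπ g
  have h5 : p c = 1 := h4 hc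
  have h6 : p (c * jQ π q) = 1 := hg
  rw [map_mul, h5, h2, one_mul] at h6
  rw [h6, map_one, mul_one]
  exact hc

lemma KS_fg [Finite ι] : (KS π).FG := by
  unfold KS
  rw [Subgroup.fg_iff]
  exact ⟨_, rfl, (Set.finite_range _).union (Set.finite_singleton _)⟩

end Pool.Agent.H653R3
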