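import Pool.Agent.H653R3.Slab

set_option autoImplicit false
set_option linter.unusedSectionVars false
set_option linter.unusedVariables false

/-! Holonomy: the fibre square of a Bestvina-Brady group need not be finitely generated. -/

namespace Pool.Agent.H653R3

variable {V : Type} [Fintype V] [LinearOrder V] {G : SimpleGraph V} [DecidableRel G.Adj]

variable (G) in
/-- A local system on the flag complex with fibre `B`. -/
structure LocSys (B : Type) where
  c : V → V → Equiv.Perm B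
  mul : ∀ x y z, (x = y ∨ G.Adj x y) → (y = z ∨ G.Adj y z) → (x = z ∨ G.Adj x z) →
    c x y * c y z = c x z

variable {B : Type} (L : LocSys G B)

lemma LocSys.self (x : V) : L.c x x = 1 := by
  have := L.mul x x x (Or.inl rfl) (Or.inl rfl) (Or.inl rfl)
  simpa using this

/-- a bottom letter -/
noncomputable def pp' [Nonempty V] (s : VS G) : V := by
  classical
  exact if h : ∃ v, bt s.1 v ≠ 0 then h.choose else Classical.arbitrary V

variable [Nonempty V]

lemma pp'_spec {s : VS G} (h : s ≠ st0) : bt s.1 (pp' s) ≠ 0 := by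
  have h1 : ∃ v, bt s.1 v ≠ 0 := s.2.exists_bt (fun e => h (Subtype.ext e))
  unfold pp'
  rw [dif_pos h1]
  exact h1.choose_spec

noncomputable def wp (v : V) : Equiv.Perm (VS G × B) :=
  Equiv.prodShear (mv G v) (fun s => L.c (pp' (mv G v s)) (pp' s))

lemma wp_apply (v : V) (s : VS G) (b : B) :
    wp L v (s, b) = (mv G v s, L.c (pp' (mv G v s)) (pp' s) b) := rfl

noncomputable def WW : FreeGroup V →* Equiv.Perm (VS G × B) := FreeGroup.lift (wp L)

lemma WW_of (v : V) (x : VS G × B) : WW L (FreeGroup.of v) x = wp L v x := by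
  unfold WW; rw [FreeGroup.lift_apply_of]

lemma ht_wp (v : V) (x : VS G × B) : ht (wp L v x).1.1 = ht x.1.1 + 1 := by
  obtain ⟨s, b⟩ := x
  rw [wp_apply]; exact ht_mv s v

lemma ht_wp_inv (v : V) (x : VS G × B) : ht ((wp L v)⁻¹ x).1.1 = ht x.1.1 - 1 := by
  have := ht_wp L v ((wp L v)⁻¹ x)
  have h2 : wp L v ((wp L v)⁻¹ x) = x := (wp L v).apply_symm_apply x
  rw [h2] at this; omega

/-- degree -/
def dg : FreeGroup V →* Multiplicative ℤ := FreeGroup.lift (fun _ => Multiplicative.ofAdd 1)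

lemma ht_WW (f : FreeGroup V) : ∀ x : VS G × B,
    ht (WW L f x).1.1 = ht x.1.1 + Multiplicative.toAdd (dg f) := by
  induction f using FreeGroup.induction_on with
  | C1 => intro x; simp
  | of v => intro x; rw [WW_of, ht_wp]; simp [dg]
  | inv_of v _ =>
    intro x
    have : WW L (FreeGroup.of v)⁻¹ x = (wp L v)⁻¹ x := by
      rw [map_inv]; unfold WW; rw [FreeGroup.lift_apply_of]
    rw [this, ht_wp_inv]; simp [dg]; ring
  | mul a b ha hb =>
    intro x
    rw [map_mul, Equiv.Perm.mul_apply, ha, hb, map_mul, toAdd_mul]; ring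

/-- germ-trivial elements -/
def NN : Subgroup (FreeGroup V) where
  carrier := {f | ∃ M : ℤ, ∀ x : VS G × B, M ≤ ht x.1.1 → WW L f x = x}
  one_mem' := ⟨0, fun x _ => by simp⟩
  mul_mem' := by
    rintro a b ⟨M, hM⟩ ⟨M', hM'⟩
    refine ⟨max M M', fun x hx => ?_⟩
    rw [map_mul, Equiv.Perm.mul_apply, hM' x (le_trans (le_max_right _ _) hx),
      hM x (le_trans (le_max_left _ _) hx)]
  inv_mem' := by
    rintro a ⟨M, hM⟩
    refine ⟨M, fun x hx => ?_⟩
    rw [map_inv, Equiv.Perm.inv_eq_iff_eq]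
    exact (hM x hx).symm

instance : (NN L).Normal := ⟨by
  rintro a ⟨M, hM⟩ g
  refine ⟨M + Multiplicative.toAdd (dg g), fun x hx => ?_⟩
  rw [map_mul, map_mul, Equiv.Perm.mul_apply, Equiv.Perm.mul_apply]
  have h1 : ht (WW L g⁻¹ x).1.1 = ht x.1.1 - Multiplicative.toAdd (dg g) := by
    rw [ht_WW, map_inv, toAdd_inv]; ring
  rw [hM (WW L g⁻¹ x) (by omega), map_inv]
  exact (WW L g).apply_symm_apply x⟩

/-- containment of bottoms -/
def Sub (s t : VS G) : Prop := ∀ x, bt s.1 x ≠ 0 → bt t.1 x ≠ 0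

lemma Sub.trans {s t u : VS G} (h : Sub s t) (h' : Sub t u) : Sub s u := fun x hx => h' x (h x hx)

lemma sub_push {s : VS G} {u : V} (h : hd s.1 u ≠ -1) : Sub s (mv G u s) := by
  intro x hx
  rw [mv_push h]; exact bt_psh_mono hx u 1

lemma sub_pop {s : VS G} {u : V} (h : hd s.1 u = -1) : Sub (mv G u s) s := by
  intro x hx
  rw [mv_pop' h]; exact bt_psh_mono hx u (-1)

lemma mv_mv {u v : V} (h : G.Adj u v) (s : VS G) : mv G u (mv G v s) = mv G v (mv G u s) := by
  have := mv_comm G h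
  exact congrArg (fun f : Equiv.Perm (VS G) => f s) this

lemma sq_top {u v : V} (h : G.Adj u v) (s : VS G) : ∃ T : VS G, Sub s T ∧ Sub (mv G u s) T ∧
    Sub (mv G v s) T ∧ Sub (mv G u (mv G v s)) T := by
  have hu : hd (mv G v s).1 u = hd s.1 u := hd_mv_adj h.symm
  have hv : hd (mv G u s).1 v = hd s.1 v := hd_mv_adj h
  by_cases h1 : hd s.1 u = -1 <;> by_cases h2 : hd s.1 v = -1
  · refine ⟨s, fun x hx => hx, sub_pop h1, sub_pop h2, ?_⟩
    exact (sub_pop (hu.trans h1)).trans (sub_pop h2)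
  · refine ⟨mv G v s, sub_push h2, (sub_pop h1).trans (sub_push h2), fun x hx => hx, ?_⟩
    exact sub_pop (hu.trans h1)
  · refine ⟨mv G u s, sub_push h1, fun x hx => hx, (sub_pop h2).trans (sub_push h1), ?_⟩
    rw [mv_mv h]
    exact sub_pop (hv.trans h2)
  · refine ⟨mv G u (mv G v s), ?_, ?_, sub_push (by rw [hu]; exact h1), fun x hx => hx⟩
    · exact (sub_push h2).trans (sub_push (by rw [hu]; exact h1))
    · rw [mv_mv h]; exact sub_push (by rw [hv]; exact h2)

lemma ne_st0_of_ht {s : VS G} (h : 1 ≤ ht s.1) : s ≠ st0 := by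
  rintro rfl
  simp [st0, ht] at h

lemma wp_comm {u v : V} (h : G.Adj u v) (s : VS G) (b : B) (hs : 1 ≤ ht s.1) :
    wp L u (wp L v (s, b)) = wp L v (wp L u (s, b)) := by
  rw [wp_apply, wp_apply, wp_apply, wp_apply, mv_mv h]
  congr 1
  obtain ⟨T, t1, t2, t3, t4⟩ := sq_top h s
  rw [mv_mv h] at t4
  have n1 : s ≠ st0 := ne_st0_of_ht hs
  have n2 : mv G u s ≠ st0 := ne_st0_of_ht (by rw [ht_mv]; omega)
  have n3 : mv G v s ≠ st0 := ne_st0_of_ht (by rw [ht_mv]; omega)
  have n4 : mv G v (mv G u s) ≠ st0 := ne_st0_of_ht (by rw [ht_mv, ht_mv]; omega)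
  have b1 := t1 _ (pp'_spec n1)
  have b2 := t2 _ (pp'_spec n2)
  have b3 := t3 _ (pp'_spec n3)
  have b4 := t4 _ (pp'_spec n4)
  have key : ∀ x y, bt T.1 x ≠ 0 → bt T.1 y ≠ 0 → (x = y ∨ G.Adj x y) := by
    intro x y hx hy
    by_cases hxy : x = y
    · exact Or.inl hxy
    · exact Or.inr (T.2.adj_of_bt hx hy hxy)
  have e1 := L.mul (pp' (mv G v (mv G u s))) (pp' (mv G v s)) (pp' s) (key _ _ b4 b3)
    (key _ _ b3 b1) (key _ _ b4 b1)
  have e2 := L.mul (pp' (mv G v (mv G u s))) (pp' (mv G u s)) (pp' s) (key _ _ b4 b2)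
    (key _ _ b2 b1) (key _ _ b4 b1)
  exact (DFunLike.congr_fun e1 b).trans (DFunLike.congr_fun e2 b).symm

lemma rels_le : Subgroup.normalClosure (rels G) ≤ NN L := by
  apply Subgroup.normalClosure_le_normal
  rintro r ⟨u, v, h, rfl⟩
  refine ⟨3, fun x hx => ?_⟩
  rw [map_mul, map_mul, map_mul, map_inv, map_inv, Equiv.Perm.mul_apply, Equiv.Perm.mul_apply,
    Equiv.Perm.mul_apply]
  have e1 : WW L (FreeGroup.of u) = wp L u := by unfold WW; rw [FreeGroup.lift_apply_of]
  have e2 : WW L (FreeGroup.of v) = wp L v := by unfold WW; rw [FreeGroup.lift_apply_of]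
  rw [e1, e2]
  have h1 : ht ((wp L u)⁻¹ ((wp L v)⁻¹ x)).1.1 = ht x.1.1 - 2 := by
    rw [ht_wp_inv, ht_wp_inv]; ring
  have h2 := wp_comm L h ((wp L u)⁻¹ ((wp L v)⁻¹ x)).1 ((wp L u)⁻¹ ((wp L v)⁻¹ x)).2 (by omega)
  rw [Prod.mk.eta] at h2
  rw [h2]
  have h3 : wp L u ((wp L u)⁻¹ ((wp L v)⁻¹ x)) = (wp L v)⁻¹ x := (wp L u).apply_symm_apply _
  rw [h3]
  exact (wp L v).apply_symm_apply x

/-! ### The generators of the Bestvina-Brady group -/

/-- `(u, v) ↦ u v⁻¹` -/
def lam : FreeGroup (V × V) →* FreeGroup V :=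
  FreeGroup.lift (fun p => FreeGroup.of p.1 * (FreeGroup.of p.2)⁻¹)

lemma dg_lam (f : FreeGroup (V × V)) : dg (lam f) = 1 := by
  have : (dg.comp lam : FreeGroup (V × V) →* Multiplicative ℤ) = 1 := by
    ext p
    simp [dg, lam]
  exact congrArg (fun h : FreeGroup (V × V) →* Multiplicative ℤ => h f) this

variable (G) in
/-- projection to the Artin group -/
def piA : FreeGroup (V × V) →* RA G := (PresentedGroup.mk (rels G)).comp lam

lemma mk_of (v : V) : (PresentedGroup.mk (rels G)) (FreeGroup.of v) = gen G v := rfl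

lemma piA_of (u v : V) : piA G (FreeGroup.of (u, v)) = gen G u * (gen G v)⁻¹ := by
  simp only [piA, MonoidHom.comp_apply, lam, FreeGroup.lift_apply_of, map_mul, map_inv, mk_of]

/-- the fibre square of `piA` -/
def EE (G : SimpleGraph V) : Subgroup (FreeGroup (V × V) × FreeGroup (V × V)) :=
  ((piA G).comp (MonoidHom.fst _ _)).eqLocus ((piA G).comp (MonoidHom.snd _ _))

/-- only letters `u`, `v` -/
def Only (u v : V) (s : V → List ℤ) : Prop := ∀ x, x ≠ u → x ≠ v → ∀ y ∈ s x, y = 0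

lemma Only.psh {u v : V} {s : V → List ℤ} (h : Only u v s) {w : V} (hw : w = u ∨ w = v) (e : ℤ) :
    Only u v (psh G w e s) := by
  intro x hx hx' y hy
  unfold H653R3.psh at hy
  split_ifs at hy with h1 h2
  · exact h x hx hx' y hy
  · exfalso; rcases hw with rfl | rfl
    · exact hx h2
    · exact hx' h2
  · rcases List.mem_cons.1 hy with h3 | h3
    · exact h3
    · exact h x hx hx' y h3

lemma Only.pp {u v : V} {s : V → List ℤ} (h : Only u v s) {w : V} :
    Only u v (pp G w s) := by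
  intro x hx hx' y hy
  unfold H653R3.pp at hy
  split_ifs at hy with h1
  · exact h x hx hx' y hy
  · exact h x hx hx' y (List.mem_of_mem_tail hy)

lemma Only.act {u v : V} {s : V → List ℤ} (h : Only u v s) {w : V} (hw : w = u ∨ w = v) (e : ℤ) :
    Only u v (act G w e s) := by
  unfold H653R3.act
  split_ifs
  · exact h.pp
  · exact h.psh hw e

lemma Only.bt {u v : V} {s : V → List ℤ} (h : Only u v s) {x : V} (hx : bt s x ≠ 0) :
    x = u ∨ x = v := by
  by_contra hcon
  push Not at hcon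
  obtain ⟨y, hy, hy0⟩ := occ_of_bt hx
  exact hy0 (h x hcon.1 hcon.2 y hy)

lemma step_gauge {u v : V} (h : u = v ∨ G.Adj u v) {w : V} (hw : w = u ∨ w = v) (s : VS G) (b : B)
    (hs : Only u v s.1) (hs1 : 1 ≤ ht s.1) :
    wp L w (s, L.c (pp' s) u b) = (mv G w s, L.c (pp' (mv G w s)) u b) := by
  rw [wp_apply]
  congr 1
  have n1 : s ≠ st0 := ne_st0_of_ht hs1
  have n2 : mv G w s ≠ st0 := ne_st0_of_ht (by rw [ht_mv]; omega)
  have b1 := hs.bt (pp'_spec n1)
  have b2 := (hs.act (G := G) hw 1).bt (pp'_spec n2)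
  have key : ∀ x y, (x = u ∨ x = v) → (y = u ∨ y = v) → (x = y ∨ G.Adj x y) := by
    rintro x y (rfl | rfl) (rfl | rfl)
    · exact Or.inl rfl
    · exact h
    · rcases h with h | h
      · exact Or.inl h.symm
      · exact Or.inr h.symm
    · exact Or.inl rfl
  rw [← Equiv.Perm.mul_apply, L.mul _ _ _ (key _ _ b2 b1) (key _ _ b1 (Or.inl rfl))
    (key _ _ b2 (Or.inl rfl))]

lemma lam_of_apply (v u : V) (x : VS G × B) :
    WW L (lam (FreeGroup.of (v, u))) x = wp L v ((wp L u)⁻¹ x) := by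
  unfold lam
  rw [FreeGroup.lift_apply_of, map_mul, map_inv, Equiv.Perm.mul_apply]
  have e1 : WW L (FreeGroup.of u) = wp L u := by unfold WW; rw [FreeGroup.lift_apply_of]
  have e2 : WW L (FreeGroup.of v) = wp L v := by unfold WW; rw [FreeGroup.lift_apply_of]
  rw [e1, e2]

lemma Only.mvinv {u v : V} {s : VS G} (h : Only u v s.1) {w : V} (hw : w = u ∨ w = v) :
    Only u v ((mv G w)⁻¹ s).1 := h.act hw (-1)

lemma run_gauge {u v : V} (h : u = v ∨ G.Adj u v) (s : VS G) (b : B)
    (hs : Only u v s.1) (hs1 : 2 ≤ ht s.1) :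
    WW L (lam (FreeGroup.of (v, u))) (s, L.c (pp' s) u b) =
      (mv G v ((mv G u)⁻¹ s), L.c (pp' (mv G v ((mv G u)⁻¹ s))) u b) := by
  rw [lam_of_apply]
  have hinv : (wp L u)⁻¹ (s, L.c (pp' s) u b) = ((mv G u)⁻¹ s, L.c (pp' ((mv G u)⁻¹ s)) u b) := by
    rw [Equiv.Perm.inv_eq_iff_eq]
    have h2 : mv G u ((mv G u)⁻¹ s) = s := (mv G u).apply_symm_apply s
    have h3 := step_gauge L h (w := u) (Or.inl rfl) ((mv G u)⁻¹ s) b (hs.mvinv (Or.inl rfl))
      (by rw [ht_mv_inv]; omega)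
    rw [h2] at h3
    exact h3.symm
  rw [hinv]
  exact step_gauge L h (w := v) (Or.inr rfl) ((mv G u)⁻¹ s) b (hs.mvinv (Or.inl rfl))
      (by rw [ht_mv_inv]; omega)

lemma run_pow {u v : V} (h : u = v ∨ G.Adj u v) (j : ℕ) : ∀ (s : VS G) (b : B),
    Only u v s.1 → 2 ≤ ht s.1 →
    WW L (lam ((FreeGroup.of (v, u)) ^ j)) (s, L.c (pp' s) u b) =
      (((mv G v * (mv G u)⁻¹) ^ j) s, L.c (pp' (((mv G v * (mv G u)⁻¹) ^ j) s)) u b) := by
  induction j with
  | zero => intro s b _ _; simp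
  | succ j ih =>
    intro s b hs hs1
    rw [pow_succ, map_mul, map_mul, Equiv.Perm.mul_apply, run_gauge L h s b hs hs1]
    have h1 : Only u v (mv G v ((mv G u)⁻¹ s)).1 := (hs.mvinv (Or.inl rfl)).act (Or.inr rfl) 1
    have h2 : 2 ≤ ht (mv G v ((mv G u)⁻¹ s)).1 := by rw [ht_mv, ht_mv_inv]; omega
    rw [ih _ b h1 h2, pow_succ, Equiv.Perm.mul_apply, Equiv.Perm.mul_apply]

/-- stack of `m` letters `u` -/
def SS (G : SimpleGraph V) [DecidableRel G.Adj] (u : V) (m : ℕ) : VS G := ((mv G u) ^ m) st0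

lemma ht_SS (u : V) (m : ℕ) : ht (SS G u m).1 = m := by
  induction m with
  | zero => simp [SS, st0, ht]
  | succ m ih =>
    have : SS G u (m + 1) = mv G u (SS G u m) := by
      unfold SS; rw [pow_succ', Equiv.Perm.mul_apply]
    rw [this, ht_mv, ih]; push_cast; ring

lemma only_SS (u v : V) (m : ℕ) : Only u v (SS G u m).1 := by
  induction m with
  | zero => intro x _ _ y hy; simp [SS, st0] at hy
  | succ m ih =>
    have : SS G u (m + 1) = mv G u (SS G u m) := by
      unfold SS; rw [pow_succ', Equiv.Perm.mul_apply]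
    rw [this]; exact ih.act (Or.inl rfl) 1

lemma pp'_SS (u : V) {m : ℕ} (hm : 1 ≤ m) : pp' (SS G u m) = u := by
  have h1 : SS G u m ≠ st0 := ne_st0_of_ht (by rw [ht_SS]; exact_mod_cast hm)
  rcases (only_SS (G := G) u u m).bt (pp'_spec h1) with h | h <;> exact h

lemma run_SS {u v : V} (h : G.Adj u v) {m : ℕ} (hm : 2 ≤ m) (b : B) :
    WW L (lam ((FreeGroup.of (v, u)) ^ m)) (SS G u m, b) = (SS G v m, L.c v u b) := by
  have h1 := run_pow L (Or.inr h) m (SS G u m) b (only_SS u v m)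
    (by rw [ht_SS]; exact_mod_cast hm)
  rw [pp'_SS u (by omega), L.self u, Equiv.Perm.one_apply] at h1
  rw [h1]
  have h2 : ((mv G v * (mv G u)⁻¹) ^ m) (SS G u m) = SS G v m := by
    have hc : Commute (mv G v) (mv G u)⁻¹ := (show Commute (mv G v) (mv G u) from
      mv_comm G h.symm).inv_right
    unfold SS
    rw [hc.mul_pow, ← Equiv.Perm.mul_apply, mul_assoc, inv_pow, inv_mul_cancel, mul_one]
  rw [h2, pp'_SS v (by omega)]

/-- holonomy of a walk -/
def holW {a b : V} : G.Walk a b → Equiv.Perm B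
  | .nil => 1
  | .cons (u := u) (v := v) _ p => holW p * L.c v u

/-- word of a walk -/
def wdW (m : ℕ) {a b : V} : G.Walk a b → FreeGroup (V × V)
  | .nil => 1
  | .cons (u := u) (v := v) _ p => wdW m p * (FreeGroup.of (v, u)) ^ m

lemma run_walk {m : ℕ} (hm : 2 ≤ m) {a b : V} (p : G.Walk a b) : ∀ x : B,
    WW L (lam (wdW m p)) (SS G a m, x) = (SS G b m, holW L p x) := by
  induction p with
  | nil => intro x; simp [wdW, holW]
  | cons h p ih =>
    intro x
    simp only [wdW, holW]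
    rw [map_mul, map_mul, Equiv.Perm.mul_apply, run_SS L h hm, ih, Equiv.Perm.mul_apply]

lemma piA_walk (m : ℕ) {a b : V} (p : G.Walk a b) :
    piA G (wdW m p) = gen G b ^ m * (gen G a ^ m)⁻¹ := by
  induction p with
  | nil => simp [wdW]
  | @cons u v w h p ih =>
    simp only [wdW]
    rw [map_mul, ih, map_pow, piA_of]
    have hc : Commute (gen G v) (gen G u)⁻¹ :=
      (show Commute (gen G v) (gen G u) from gen_comm h.symm).inv_right
    rw [hc.mul_pow, inv_pow]
    group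

theorem EE_not_fg {a : V} (p : G.Walk a a) (hp : holW L p ≠ 1) : ¬ (EE G).FG := by
  rintro ⟨S, hS⟩
  -- bounds
  have hb : ∀ q ∈ EE G, ∃ M : ℤ, ∀ x : VS G × B, M ≤ ht x.1.1 →
      WW L (lam q.1) x = WW L (lam q.2) x := by
    intro q hq
    have h1 : piA G q.1 = piA G q.2 := hq
    have h2 : (PresentedGroup.mk (rels G)) (lam q.1 * (lam q.2)⁻¹) = 1 := by
      rw [map_mul, map_inv]
      have h3 : (PresentedGroup.mk (rels G)) (lam q.1) = (PresentedGroup.mk (rels G)) (lam q.2) := h1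
      rw [h3, mul_inv_cancel]
    rw [PresentedGroup.mk_eq_one_iff] at h2
    obtain ⟨M, hM⟩ := rels_le L h2
    refine ⟨M, fun x hx => ?_⟩
    have h4 := hM (WW L (lam q.2) x) (by rw [ht_WW, dg_lam]; simpa using hx)
    rw [map_mul, Equiv.Perm.mul_apply, map_inv] at h4
    have h5 : (WW L (lam q.2))⁻¹ (WW L (lam q.2) x) = x := (WW L (lam q.2)).symm_apply_apply x
    rw [h5] at h4
    exact h4
  choose! M hM using hb
  obtain ⟨M0, hM0⟩ := (S.image M).bddAbove
  set m : ℕ := max 2 M0.toNat with hm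
  have hm2 : 2 ≤ m := le_max_left _ _
  have hmM : M0 ≤ m := by
    have h1 := Int.self_le_toNat M0
    have h2 : M0.toNat ≤ m := le_max_right _ _
    omega
  let H : Subgroup (FreeGroup (V × V) × FreeGroup (V × V)) :=
    { carrier := {q | ∀ x : VS G × B, ht x.1.1 = m → WW L (lam q.1) x = WW L (lam q.2) x}
      one_mem' := fun x _ => by simp
      mul_mem' := by
        intro q r hq hr x hx
        rw [Prod.fst_mul, Prod.snd_mul, map_mul, map_mul, map_mul, map_mul, Equiv.Perm.mul_apply,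
          Equiv.Perm.mul_apply, hr x hx]
        apply hq
        rw [ht_WW, dg_lam]; simpa using hx
      inv_mem' := by
        intro q hq x hx
        rw [Prod.fst_inv, Prod.snd_inv, map_inv, map_inv, map_inv, map_inv,
          Equiv.Perm.inv_eq_iff_eq]
        have h1 := hq ((WW L (lam q.2))⁻¹ x) (by
          rw [← map_inv, ← map_inv, ht_WW, map_inv lam, map_inv dg, dg_lam]; simpa using hx)
        rw [h1]
        exact ((WW L (lam q.2)).apply_symm_apply x).symm }
  have hle : EE G ≤ H := by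
    rw [← hS, Subgroup.closure_le]
    intro q hq x hx
    apply hM q (by rw [← hS]; exact Subgroup.subset_closure hq) x
    have h1 : M q ≤ M0 := hM0 (by exact_mod_cast Finset.mem_image_of_mem M hq)
    rw [hx]; omega
  have hmem : (wdW m p, (1 : FreeGroup (V × V))) ∈ EE G := by
    change piA G (wdW m p) = piA G 1
    rw [piA_walk, mul_inv_cancel, map_one]
  apply hp
  ext x
  have h1 := hle hmem (SS G a m, x) (ht_SS a m)
  simp only at h1
  rw [run_walk L hm2] at h1
  have h2 := congrArg Prod.snd h1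
  simpa using h2

end Pool.Agent.H653R3
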