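import Mathlib

set_option autoImplicit false

/-! Pilings: an explicit model of right-angled Artin groups. -/

set_option linter.unusedSectionVars false
set_option linter.unusedVariables false

namespace Pool.Agent.H653R3

variable {V : Type} [DecidableEq V] (G : SimpleGraph V) [DecidableRel G.Adj]

/-- top entry of the stack at `u` (0 if empty) -/
def hd (s : V → List ℤ) (u : V) : ℤ := (s u).headD 0

/-- push letter `u` with sign `e` -/
def psh (u : V) (e : ℤ) (s : V → List ℤ) : V → List ℤ := fun v =>
  if G.Adj u v then s v else (if v = u then e else 0) :: s v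

/-- pop the top letter `u` -/
def pp (u : V) (s : V → List ℤ) : V → List ℤ := fun v =>
  if G.Adj u v then s v else (s v).tail

inductive Valid : (V → List ℤ) → Prop
  | nil : Valid (fun _ => [])
  | push (s : V → List ℤ) (u : V) (e : ℤ) : Valid s → (e = 1 ∨ e = -1) → hd s u ≠ -e →
      Valid (psh G u e s)

variable {G}

lemma pop_push (u : V) (e : ℤ) (s : V → List ℤ) : pp G u (psh G u e s) = s := by
  funext v
  unfold pp psh
  by_cases h : G.Adj u v <;> simp [h]

lemma hd_push_self (u : V) (e : ℤ) (s : V → List ℤ) : hd (psh G u e s) u = e := by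
  simp [hd, psh]

lemma hd_push_adj {u v : V} (h : G.Adj u v) (e : ℤ) (s : V → List ℤ) :
    hd (psh G u e s) v = hd s v := by
  simp [hd, psh, h]

lemma hd_push_nonadj {u v : V} (h : ¬ G.Adj u v) (hne : v ≠ u) (e : ℤ) (s : V → List ℤ) :
    hd (psh G u e s) v = 0 := by
  simp [hd, psh, h, hne]

lemma push_comm {u v : V} (h : G.Adj u v) (e d : ℤ) (s : V → List ℤ) :
    psh G u e (psh G v d s) = psh G v d (psh G u e s) := by
  have h' := h.symm
  funext x
  unfold psh
  by_cases h1 : G.Adj u x <;> by_cases h2 : G.Adj v x
  · simp [h1, h2]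
  · simp [h1, h2]
  · simp [h1, h2]
  · have hx1 : x ≠ u := by rintro rfl; exact h2 h'
    have hx2 : x ≠ v := by rintro rfl; exact h1 h
    simp [h1, h2, hx1, hx2]

lemma push_inj (u : V) {e e' : ℤ} {s s' : V → List ℤ} (h : psh G u e s = psh G u e' s') :
    e = e' ∧ s = s' := by
  constructor
  · have := congrArg (fun t => hd t u) h
    simpa [hd_push_self] using this
  · have := congrArg (pp G u) h
    simpa [pop_push] using this

/-- structure of a valid state with nonzero head at `u` -/
lemma Valid.top {s : V → List ℤ} (hs : Valid G s) {u : V} (hu : hd s u ≠ 0) :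
    (hd s u = 1 ∨ hd s u = -1) ∧ Valid G (pp G u s) ∧ hd (pp G u s) u ≠ -hd s u ∧
      s = psh G u (hd s u) (pp G u s) := by
  induction hs with
  | nil => simp [hd] at hu
  | push s w d hs hd1 hd2 ih =>
    by_cases hwu : w = u
    · subst hwu
      rw [hd_push_self, pop_push]
      exact ⟨hd1, hs, hd2, rfl⟩
    · by_cases hadj : G.Adj w u
      · rw [hd_push_adj hadj] at hu ⊢
        obtain ⟨i1, i2, i3, i4⟩ := ih hu
        have key : pp G u (psh G w d s) = psh G w d (pp G u s) := by
          conv_lhs => rw [i4, push_comm hadj, pop_push]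
        rw [key]
        refine ⟨i1, ?_, ?_, ?_⟩
        · apply Valid.push _ _ _ i2 hd1
          have : hd (pp G u s) w = hd s w := by
            conv_rhs => rw [i4, hd_push_adj hadj.symm]
          rw [this]; exact hd2
        · rw [hd_push_adj hadj]; exact i3
        · rw [push_comm hadj.symm, ← i4]
      · exact absurd (hd_push_nonadj hadj (Ne.symm hwu) d s) hu

lemma Valid.hd_cases {s : V → List ℤ} (hs : Valid G s) (u : V) :
    hd s u = 0 ∨ hd s u = 1 ∨ hd s u = -1 := by
  by_cases h : hd s u = 0
  · exact Or.inl h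
  · exact Or.inr (hs.top h).1

lemma Valid.adj_of_hd {s : V → List ℤ} (hs : Valid G s) {u v : V} (hu : hd s u ≠ 0)
    (hv : hd s v ≠ 0) (huv : u ≠ v) : G.Adj u v := by
  by_contra h
  apply hv
  rw [(hs.top hu).2.2.2]
  exact hd_push_nonadj h (Ne.symm huv) _ _

/-- the action of the letter `u` with sign `e` -/
def act (G : SimpleGraph V) [DecidableRel G.Adj] (u : V) (e : ℤ) (s : V → List ℤ) : V → List ℤ :=
  if hd s u = -e then pp G u s else psh G u e s

lemma act_valid {s : V → List ℤ} (hs : Valid G s) (u : V) {e : ℤ} (he : e = 1 ∨ e = -1) :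
    Valid G (act G u e s) := by
  unfold act
  split_ifs with h
  · exact (hs.top (by rw [h]; rcases he with rfl | rfl <;> decide)).2.1
  · exact Valid.push _ _ _ hs he h

lemma act_act {s : V → List ℤ} (hs : Valid G s) (u : V) {e : ℤ} (he : e = 1 ∨ e = -1) :
    act G u (-e) (act G u e s) = s := by
  by_cases h : hd s u = -e
  · have h0 : hd s u ≠ 0 := by rw [h]; rcases he with rfl | rfl <;> decide
    obtain ⟨_, _, h3, h4⟩ := hs.top h0
    have : act G u e s = pp G u s := by simp [act, h]
    rw [this]
    unfold act
    rw [if_neg (by rw [neg_neg]; rw [h, neg_neg] at h3; exact h3)]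
    rw [← h]; exact h4.symm
  · have : act G u e s = psh G u e s := by simp [act, h]
    rw [this]
    unfold act
    rw [if_pos (by rw [hd_push_self, neg_neg]), pop_push]

lemma hd_act_adj {u v : V} (h : G.Adj u v) (e : ℤ) (s : V → List ℤ) :
    hd (act G u e s) v = hd s v := by
  unfold act
  split_ifs
  · simp [hd, pp, h]
  · exact hd_push_adj h _ _

lemma act_comm {s : V → List ℤ} (hs : Valid G s) {u v : V} (h : G.Adj u v) {e d : ℤ}
    (he : e = 1 ∨ e = -1) (hd' : d = 1 ∨ d = -1) :
    act G u e (act G v d s) = act G v d (act G u e s) := by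
  have hne : ∀ {x : ℤ}, (x = 1 ∨ x = -1) → -x ≠ 0 := by
    rintro x (rfl | rfl) <;> decide
  by_cases h1 : hd s u = -e <;> by_cases h2 : hd s v = -d
  · -- both pop
    obtain ⟨_, v1, _, e1⟩ := hs.top (u := u) (by rw [h1]; exact hne he)
    have h2' : hd (pp G u s) v = -d := by
      have := h2; rw [e1, hd_push_adj h] at this; exact this
    obtain ⟨_, v2, _, e2⟩ := v1.top (u := v) (by rw [h2']; exact hne hd')
    have hA : act G u e s = pp G u s := by simp [act, h1]
    have hB : act G v d (pp G u s) = pp G v (pp G u s) := by simp [act, h2']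
    have hC : act G v d s = pp G v s := by simp [act, h2]
    have hD : pp G v s = psh G u (-e) (pp G v (pp G u s)) := by
      have e3 : s = psh G v (-d) (psh G u (-e) (pp G v (pp G u s))) := by
        rw [push_comm h.symm]
        rw [h1] at e1; rw [h2'] at e2
        rw [← e2]; exact e1
      conv_lhs => rw [e3, pop_push]
    rw [hA, hB, hC, hD]
    unfold act
    rw [if_pos (hd_push_self _ _ _), pop_push]
  · -- u pops, v pushes
    obtain ⟨_, v1, _, e1⟩ := hs.top (u := u) (by rw [h1]; exact hne he)
    have h2' : hd (pp G u s) v ≠ -d := by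
      intro h3; apply h2; rw [e1, hd_push_adj h]; exact h3
    have hA : act G u e s = pp G u s := by simp [act, h1]
    have hB : act G v d (pp G u s) = psh G v d (pp G u s) := by simp [act, h2']
    have hC : act G v d s = psh G v d s := by simp [act, h2]
    rw [hA, hB, hC]
    rw [h1] at e1
    have : psh G v d s = psh G u (-e) (psh G v d (pp G u s)) := by
      rw [push_comm h, ← e1]
    rw [this]
    unfold act
    rw [if_pos (hd_push_self _ _ _), pop_push]
  · -- u pushes, v pops
    obtain ⟨_, v1, _, e1⟩ := hs.top (u := v) (by rw [h2]; exact hne hd')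
    have h1' : hd (pp G v s) u ≠ -e := by
      intro h3; apply h1; rw [e1, hd_push_adj h.symm]; exact h3
    have hA : act G v d s = pp G v s := by simp [act, h2]
    have hB : act G u e (pp G v s) = psh G u e (pp G v s) := by simp [act, h1']
    have hC : act G u e s = psh G u e s := by simp [act, h1]
    rw [hA, hB, hC]
    rw [h2] at e1
    have : psh G u e s = psh G v (-d) (psh G u e (pp G v s)) := by
      rw [push_comm h.symm, ← e1]
    rw [this]
    unfold act
    rw [if_pos (hd_push_self _ _ _), pop_push]
  · have hA : act G v d s = psh G v d s := by simp [act, h2]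
    have hC : act G u e s = psh G u e s := by simp [act, h1]
    rw [hA, hC]
    unfold act
    rw [hd_push_adj h.symm, hd_push_adj h, if_neg h1, if_neg h2, push_comm h]

variable (G)

/-- valid states -/
abbrev VS := {s : V → List ℤ // Valid G s}

/-- the permutation given by the letter `u` -/
def mv (u : V) : Equiv.Perm (VS G) where
  toFun s := ⟨act G u 1 s.1, act_valid s.2 u (Or.inl rfl)⟩
  invFun s := ⟨act G u (-1) s.1, act_valid s.2 u (Or.inr rfl)⟩
  left_inv s := Subtype.ext (act_act s.2 u (Or.inl rfl))
  right_inv s := Subtype.ext (by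
    have := act_act s.2 u (e := -1) (Or.inr rfl)
    simpa using this)

lemma mv_comm {u v : V} (h : G.Adj u v) : mv G u * mv G v = mv G v * mv G u := by
  ext1 s
  exact Subtype.ext (act_comm s.2 h (Or.inl rfl) (Or.inl rfl))

/-- relators of the right-angled Artin group -/
def rels : Set (FreeGroup V) :=
  {r | ∃ u v, G.Adj u v ∧ r = FreeGroup.of u * FreeGroup.of v * (FreeGroup.of u)⁻¹ * (FreeGroup.of v)⁻¹}

/-- the right-angled Artin group -/
abbrev RA := PresentedGroup (rels G)

/-- generator -/
def gen (v : V) : RA G := PresentedGroup.of v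

variable {G}

lemma gen_comm {u v : V} (h : G.Adj u v) : gen G u * gen G v = gen G v * gen G u := by
  have h1 : (PresentedGroup.mk (rels G))
      (FreeGroup.of u * FreeGroup.of v * (FreeGroup.of u)⁻¹ * (FreeGroup.of v)⁻¹) = 1 := by
    apply (PresentedGroup.mk_eq_one_iff).2
    exact Subgroup.subset_normalClosure ⟨u, v, h, rfl⟩
  rw [map_mul, map_mul, map_mul, map_inv, map_inv, mul_inv_eq_one, mul_inv_eq_iff_eq_mul] at h1
  exact h1

lemma gen_range : Subgroup.closure (Set.range (gen G)) = ⊤ :=
  PresentedGroup.closure_range_of (rels G)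

/-- lift -/
def liftRA {H : Type} [Group H] (f : V → H) (hf : ∀ u v, G.Adj u v → f u * f v = f v * f u) :
    RA G →* H :=
  PresentedGroup.toGroup (f := f) (by
    rintro r ⟨u, v, h, rfl⟩
    rw [map_mul, map_mul, map_mul, map_inv, map_inv, FreeGroup.lift_apply_of,
      FreeGroup.lift_apply_of, mul_inv_eq_one, mul_inv_eq_iff_eq_mul]
    exact hf u v h)

@[simp] lemma liftRA_gen {H : Type} [Group H] (f : V → H)
    (hf : ∀ u v, G.Adj u v → f u * f v = f v * f u) (v : V) :
    liftRA f hf (gen G v) = f v := by
  simp [liftRA, gen]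

/-- height -/
def chi : RA G →* Multiplicative ℤ := liftRA (fun _ => Multiplicative.ofAdd 1) (fun _ _ _ => rfl)

/-- the action on states: the generator `v` acts by `(mv v)⁻¹` -/
def rho : RA G →* Equiv.Perm (VS G) := liftRA (fun v => (mv G v)⁻¹) (fun u v h => by
  rw [← mul_inv_rev, ← mul_inv_rev, mv_comm G h])

/-- the empty state -/
def st0 : VS G := ⟨fun _ => [], Valid.nil⟩

/-- the state of a group element -/
def stt (g : RA G) : VS G := (rho g)⁻¹ st0

lemma stt_one : stt (1 : RA G) = st0 := by simp [stt]

lemma stt_mul_gen (g : RA G) (v : V) : stt (g * gen G v) = mv G v (stt g) := by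
  simp [stt, rho, mul_inv_rev]

lemma stt_mul_gen_inv (g : RA G) (v : V) : stt (g * (gen G v)⁻¹) = (mv G v)⁻¹ (stt g) := by
  have := stt_mul_gen (g * (gen G v)⁻¹) v
  rw [inv_mul_cancel_right] at this
  rw [this]; simp

/-! ### Freeness -/

/-- derivations of group elements representing states -/
inductive RelN : ℕ → (V → List ℤ) → RA G → Prop
  | nil : RelN 0 (fun _ => []) 1
  | push (n : ℕ) (s : V → List ℤ) (g : RA G) (u : V) (e : ℤ) : RelN n s g → (e = 1 ∨ e = -1) →
      hd s u ≠ -e → RelN (n + 1) (psh G u e s) (g * gen G u ^ e)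

lemma RelN.valid {n : ℕ} {s : V → List ℤ} {g : RA G} (h : RelN n s g) : Valid G s := by
  induction h with
  | nil => exact Valid.nil
  | push n s g u e _ he hne ih => exact Valid.push _ _ _ ih he hne

lemma Valid.exists_rel {s : V → List ℤ} (hs : Valid G s) : ∃ n, ∃ g : RA G, RelN n s g := by
  induction hs with
  | nil => exact ⟨0, 1, RelN.nil⟩
  | push s u e hs he hne ih =>
    obtain ⟨n, g, h⟩ := ih
    exact ⟨n + 1, _, RelN.push n s g u e h he hne⟩

lemma push_ne_nil (u : V) (e : ℤ) (s : V → List ℤ) : psh G u e s ≠ fun _ => [] := by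
  intro h
  have := congrFun h u
  simp [psh] at this

lemma RelN.unique (N : ℕ) : ∀ {n n' : ℕ} {s : V → List ℤ} {g g' : RA G}, n ≤ N → RelN n s g →
    RelN n' s g' → n = n' ∧ g = g' := by
  induction N with
  | zero =>
    intro n n' s g g' hn h h'
    have hn0 : n = 0 := by omega
    subst hn0
    cases h
    generalize hs : (fun _ : V => ([] : List ℤ)) = s at h'
    cases h' with
    | nil => exact ⟨rfl, rfl⟩
    | push n s g u e h he hne => exact absurd hs.symm (push_ne_nil _ _ _)
  | succ N ih =>
    intro n n' s g g' hn h h'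
    cases h with
    | nil =>
      generalize hs : (fun _ : V => ([] : List ℤ)) = s at h'
      cases h' with
      | nil => exact ⟨rfl, rfl⟩
      | push n s g u e h he hne => exact absurd hs.symm (push_ne_nil _ _ _)
    | push n s1 g1 u e h1 he hne =>
      generalize hs : psh G u e s1 = s at h'
      cases h' with
      | nil => exact absurd hs (push_ne_nil _ _ _)
      | push n' s2 g2 w d h2 hd' hne' =>
        by_cases huw : u = w
        · subst huw
          obtain ⟨rfl, rfl⟩ := push_inj u hs
          obtain ⟨r1, r2⟩ := ih (by omega) h1 h2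
          exact ⟨by omega, by rw [r2]⟩
        · have hadj : G.Adj u w := by
            by_contra hna
            have h3 := hd_push_nonadj hna (Ne.symm huw) e s1
            rw [hs, hd_push_self] at h3
            rcases hd' with rfl | rfl <;> omega
          have hh : hd s1 w = d := by
            rw [← hd_push_adj hadj e s1, hs, hd_push_self]
          obtain ⟨_, v3, n3, e3⟩ := h1.valid.top (u := w) (by
            rw [hh]; rcases hd' with rfl | rfl <;> decide)
          rw [hh] at n3 e3
          obtain ⟨k, g3, h3⟩ := v3.exists_rel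
          have h1' : RelN (k + 1) s1 (g3 * gen G w ^ d) := by
            have := RelN.push k _ g3 w d h3 hd' n3
            rw [← e3] at this; exact this
          obtain ⟨r1, r2⟩ := ih (by omega) h1 h1'
          have e4 : s2 = psh G u e (pp G w s1) := by
            rw [e3, push_comm hadj] at hs
            exact (push_inj w hs).2.symm
          have h5 : hd (pp G w s1) u ≠ -e := by
            have h6 : hd s1 u = hd (pp G w s1) u := by
              conv_lhs => rw [e3, hd_push_adj hadj.symm]
            rw [← h6]; exact hne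
          have h2' : RelN (k + 1) s2 (g3 * gen G u ^ e) := by
            rw [e4]; exact RelN.push k _ g3 u e h3 he h5
          obtain ⟨r3, r4⟩ := ih (by omega) h2' h2
          refine ⟨by omega, ?_⟩
          rw [r2, ← r4, mul_assoc, mul_assoc]
          congr 1
          exact ((show Commute (gen G w) (gen G u) from gen_comm hadj.symm).zpow_zpow d e)

/-- the section -/
noncomputable def sec (s : VS G) : RA G := Classical.choose (Classical.choose_spec s.2.exists_rel)

lemma sec_rel (s : VS G) : ∃ n, RelN n s.1 (sec s) :=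
  ⟨_, Classical.choose_spec (Classical.choose_spec s.2.exists_rel)⟩

lemma sec_eq {s : VS G} {n : ℕ} {g : RA G} (h : RelN n s.1 g) : sec s = g := by
  obtain ⟨m, hm⟩ := sec_rel s
  exact (RelN.unique m le_rfl hm h).2

lemma sec_st0 : sec (st0 : VS G) = 1 := sec_eq RelN.nil

lemma sec_act (s : VS G) (v : V) {e : ℤ} (he : e = 1 ∨ e = -1) (h : Valid G (act G v e s.1)) :
    sec ⟨act G v e s.1, h⟩ = sec s * gen G v ^ e := by
  by_cases h1 : hd s.1 v = -e
  · have h0 : hd s.1 v ≠ 0 := by rw [h1]; rcases he with rfl | rfl <;> decide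
    obtain ⟨_, v2, n3, e3⟩ := s.2.top h0
    rw [h1] at n3 e3
    obtain ⟨k, g3, h3⟩ := v2.exists_rel
    have h4 : sec s = g3 * gen G v ^ (-e) := by
      refine sec_eq (n := k + 1) ?_
      have := RelN.push k _ g3 v (-e) h3 (by omega) n3
      rw [← e3] at this; exact this
    have h5 : sec ⟨act G v e s.1, h⟩ = g3 := by
      refine sec_eq (n := k) ?_
      have : act G v e s.1 = pp G v s.1 := by simp [act, h1]
      change RelN k (act G v e s.1) g3
      rw [this]; exact h3
    rw [h4, h5, mul_assoc, ← zpow_add]; simp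
  · obtain ⟨k, hk⟩ := sec_rel s
    refine sec_eq (n := k + 1) ?_
    have : act G v e s.1 = psh G v e s.1 := by simp [act, h1]
    change RelN (k + 1) (act G v e s.1) _
    rw [this]
    exact RelN.push k _ _ v e hk he h1

lemma sec_mv (s : VS G) (v : V) : sec (mv G v s) = sec s * gen G v := by
  have := sec_act s v (e := 1) (Or.inl rfl) (act_valid s.2 v (Or.inl rfl))
  rw [zpow_one] at this; exact this

lemma sec_stt (g : RA G) : sec (stt g) = g := by
  have hg : g ∈ Subgroup.closure (Set.range (gen G)) := by rw [gen_range]; trivial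
  induction hg using Subgroup.closure_induction_right with
  | one => rw [stt_one, sec_st0]
  | mul_right x hx y hy ih =>
    obtain ⟨v, rfl⟩ := hy
    rw [stt_mul_gen, sec_mv, ih]
  | mul_inv_cancel x hx y hy ih =>
    obtain ⟨v, rfl⟩ := hy
    rw [stt_mul_gen_inv]
    have := sec_mv ((mv G v)⁻¹ (stt x)) v
    have h2 : mv G v ((mv G v)⁻¹ (stt x)) = stt x := (mv G v).apply_symm_apply (stt x)
    rw [h2, ih] at this
    exact eq_mul_inv_of_mul_eq this.symm

lemma eq_one_of_stt {g : RA G} (h : stt g = st0) : g = 1 := by
  rw [← sec_stt g, h, sec_st0]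

end Pool.Agent.H653R3
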