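import Pool.Agent.H653R3.Pile

set_option autoImplicit false
set_option linter.unusedSectionVars false
set_option linter.unusedVariables false

/-! Sizes, heights and bottoms of pilings. -/

namespace Pool.Agent.H653R3

variable {V : Type} [DecidableEq V] [Fintype V] {G : SimpleGraph V} [DecidableRel G.Adj]

/-- number of letters -/
def sz (s : V → List ℤ) : ℤ := ∑ v, (((s v).countP (fun x => x ≠ 0) : ℕ) : ℤ)

/-- height -/
def ht (s : V → List ℤ) : ℤ := ∑ v, (s v).sum

lemma sz_psh (u : V) {e : ℤ} (he : e ≠ 0) (s : V → List ℤ) : sz (psh G u e s) = sz s + 1 := by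
  have h : ∀ v, ((((psh G u e s) v).countP (fun x => x ≠ 0) : ℕ) : ℤ) =
      (((s v).countP (fun x => x ≠ 0) : ℕ) : ℤ) + if v = u then 1 else 0 := by
    intro v
    unfold psh
    by_cases h1 : G.Adj u v
    · have : v ≠ u := by rintro rfl; exact G.irrefl h1
      simp [h1, this]
    · by_cases h2 : v = u
      · subst h2; simp [he]
      · simp [h1, h2]
  unfold sz
  rw [Finset.sum_congr rfl (fun v _ => h v), Finset.sum_add_distrib, Finset.sum_ite_eq']
  simp

lemma ht_psh (u : V) (e : ℤ) (s : V → List ℤ) : ht (psh G u e s) = ht s + e := by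
  have h : ∀ v, ((psh G u e s) v).sum = (s v).sum + if v = u then e else 0 := by
    intro v
    unfold psh
    by_cases h1 : G.Adj u v
    · have : v ≠ u := by rintro rfl; exact G.irrefl h1
      simp [h1, this]
    · by_cases h2 : v = u
      · subst h2; simp [add_comm]
      · simp [h1, h2]
  unfold ht
  rw [Finset.sum_congr rfl (fun v _ => h v), Finset.sum_add_distrib, Finset.sum_ite_eq']
  simp

lemma sz_nonneg (s : V → List ℤ) : 0 ≤ sz s := Finset.sum_nonneg (fun _ _ => Int.natCast_nonneg _)

lemma Valid.eq_nil_of_sz {s : V → List ℤ} (hs : Valid G s) (h : sz s = 0) : s = fun _ => [] := by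
  cases hs with
  | nil => rfl
  | push s u e hs he hne =>
    rw [sz_psh u (by rcases he with rfl | rfl <;> decide)] at h
    have := sz_nonneg s
    omega

lemma mv_push {s : VS G} {u : V} (h : hd s.1 u ≠ -1) : (mv G u s).1 = psh G u 1 s.1 := by
  change act G u 1 s.1 = _
  unfold act; rw [if_neg h]

lemma mv_pop {s : VS G} {u : V} (h : hd s.1 u = -1) : (mv G u s).1 = pp G u s.1 := by
  change act G u 1 s.1 = _
  unfold act; rw [if_pos h]

lemma mv_pop' {s : VS G} {u : V} (h : hd s.1 u = -1) : s.1 = psh G u (-1) (mv G u s).1 := by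
  rw [mv_pop h]
  have := (s.2.top (u := u) (by rw [h]; decide)).2.2.2
  rwa [h] at this

lemma sz_mv_push {s : VS G} {u : V} (h : hd s.1 u ≠ -1) : sz (mv G u s).1 = sz s.1 + 1 := by
  rw [mv_push h, sz_psh u one_ne_zero]

lemma sz_mv_pop {s : VS G} {u : V} (h : hd s.1 u = -1) : sz (mv G u s).1 = sz s.1 - 1 := by
  have := sz_psh (G := G) u (e := -1) (by decide) (mv G u s).1
  rw [← mv_pop' h] at this
  omega

lemma ht_mv (s : VS G) (u : V) : ht (mv G u s).1 = ht s.1 + 1 := by
  by_cases h : hd s.1 u = -1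
  · have := ht_psh (G := G) u (-1) (mv G u s).1
    rw [← mv_pop' h] at this
    omega
  · rw [mv_push h, ht_psh]

lemma ht_mv_inv (s : VS G) (u : V) : ht ((mv G u)⁻¹ s).1 = ht s.1 - 1 := by
  have h1 := ht_mv ((mv G u)⁻¹ s) u
  have h2 : mv G u ((mv G u)⁻¹ s) = s := (mv G u).apply_symm_apply s
  rw [h2] at h1
  omega

lemma hd_mv_self {s : VS G} {u : V} (h : hd s.1 u ≠ -1) : hd (mv G u s).1 u = 1 := by
  rw [mv_push h, hd_push_self]

lemma hd_mv_adj {s : VS G} {u v : V} (h : G.Adj u v) : hd (mv G u s).1 v = hd s.1 v :=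
  hd_act_adj h 1 s.1

lemma hd_mv_nonadj {s : VS G} {u v : V} (hu : hd s.1 u ≠ -1) (h : ¬ G.Adj u v) (hne : v ≠ u) :
    hd (mv G u s).1 v = 0 := by
  rw [mv_push hu, hd_push_nonadj h hne]

lemma hd_mv_inv_adj {s : VS G} {u v : V} (h : G.Adj u v) :
    hd ((mv G u)⁻¹ s).1 v = hd s.1 v := by
  have h2 : mv G u ((mv G u)⁻¹ s) = s := (mv G u).apply_symm_apply s
  conv_rhs => rw [← h2]
  rw [hd_mv_adj h]

lemma hd_mv_inv_self {s : VS G} {u : V} (h : hd s.1 u = 1) : hd ((mv G u)⁻¹ s).1 u ≠ -1 := by
  intro h1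
  have h2 : mv G u ((mv G u)⁻¹ s) = s := (mv G u).apply_symm_apply s
  have h3 := mv_pop' h1
  rw [h2] at h3
  obtain ⟨_, v2, n3, e3⟩ := s.2.top (u := u) (by rw [h]; decide)
  have h5 : hd s.1 u ≠ 1 := by
    have h4 := ((mv G u)⁻¹ s).2.top (u := u) (by rw [h1]; decide)
    have h6 := h4.2.2.1
    rw [h1] at h6
    have h7 : pp G u ((mv G u)⁻¹ s).1 = s.1 := by
      conv_lhs => rw [h3]
      rw [pop_push]
    rw [h7] at h6
    simpa using h6
  exact h5 h

/-! ### Bottoms -/

/-- bottom entry -/
def bt (s : V → List ℤ) (u : V) : ℤ := (s u).getLastD 0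

lemma bt_psh_of_ne {s : V → List ℤ} {v : V} (h : s v ≠ []) (u : V) (e : ℤ) :
    bt (psh G u e s) v = bt s v := by
  unfold bt psh
  split_ifs
  · rfl
  · cases hs : s v with
    | nil => exact absurd hs h
    | cons a l => rfl
  · cases hs : s v with
    | nil => exact absurd hs h
    | cons a l => rfl

lemma ne_nil_of_bt {s : V → List ℤ} {v : V} (h : bt s v ≠ 0) : s v ≠ [] := by
  intro h1; apply h; simp [bt, h1]

lemma bt_psh_mono {s : V → List ℤ} {v : V} (h : bt s v ≠ 0) (u : V) (e : ℤ) :
    bt (psh G u e s) v ≠ 0 := by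
  rw [bt_psh_of_ne (ne_nil_of_bt h)]; exact h

lemma Valid.exists_bt {s : V → List ℤ} (hs : Valid G s) : s ≠ (fun _ => []) → ∃ u, bt s u ≠ 0 := by
  induction hs with
  | nil => intro h; exact absurd rfl h
  | push s u e hs he hne ih =>
    intro _
    by_cases h : s = fun _ => []
    · subst h
      refine ⟨u, ?_⟩
      have : e ≠ 0 := by rcases he with rfl | rfl <;> decide
      simp [bt, psh, this]
    · obtain ⟨v, hv⟩ := ih h
      exact ⟨v, bt_psh_mono hv u e⟩

lemma Valid.adj_of_occ {s : V → List ℤ} (hs : Valid G s) {u v : V} (hu : s u = [])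
    (hv : ∃ x ∈ s v, x ≠ 0) : G.Adj u v := by
  induction hs with
  | nil => simp at hv
  | push s w d hs he hne ih =>
    have h1 : G.Adj w u := by
      by_contra h
      simp [psh, h] at hu
    have h2 : s u = [] := by simpa [psh, h1] using hu
    by_cases hwv : v = w
    · subst hwv; exact h1.symm
    · obtain ⟨x, hx, hx0⟩ := hv
      apply ih h2
      refine ⟨x, ?_, hx0⟩
      unfold psh at hx
      split_ifs at hx with h3
      · exact hx
      · rcases List.mem_cons.1 hx with h4 | h4
        · exact absurd h4 hx0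
        · exact h4

lemma occ_of_bt {s : V → List ℤ} {v : V} (h : bt s v ≠ 0) : ∃ x ∈ s v, x ≠ 0 := by
  refine ⟨bt s v, ?_, h⟩
  unfold bt
  cases hs : s v with
  | nil => simp [bt, hs] at h
  | cons a l =>
    rw [List.getLastD_cons, List.getLastD_eq_getLast?]
    cases l with
    | nil => simp
    | cons b l => simp [List.getLast?_eq_some_getLast]

lemma Valid.adj_of_bt {s : V → List ℤ} (hs : Valid G s) {u v : V} (hu : bt s u ≠ 0)
    (hv : bt s v ≠ 0) (huv : u ≠ v) : G.Adj u v := by
  induction hs with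
  | nil => simp [bt] at hu
  | push s w d hs he hne ih =>
    -- cases according to emptiness
    by_cases h1 : s u = []
    · by_cases h2 : s v = []
      · -- both new: impossible
        exfalso
        have hu' : u = w := by
          by_contra h3
          apply hu
          unfold bt psh
          by_cases h4 : G.Adj w u <;> simp [h4, h1, h3]
        have hv' : v = w := by
          by_contra h3
          apply hv
          unfold bt psh
          by_cases h4 : G.Adj w v <;> simp [h4, h2, h3]
        exact huv (hu'.trans hv'.symm)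
      · rw [bt_psh_of_ne h2] at hv
        exact hs.adj_of_occ h1 (occ_of_bt hv)
    · rw [bt_psh_of_ne h1] at hu
      by_cases h2 : s v = []
      · exact (hs.adj_of_occ h2 (occ_of_bt hu)).symm
      · rw [bt_psh_of_ne h2] at hv
        exact ih hu hv

end Pool.Agent.H653R3
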