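import Mathlib

set_option autoImplicit false
set_option linter.unusedSectionVars false
set_option linter.unusedVariables false

/-! Projective resolutions in `Rep ℤ G` from explicit data. -/

namespace Pool.Agent.H653R3

open CategoryTheory

universe u

section res

variable {k : Type} [CommRing k] {G : Type} [Group G]

lemma rep_exact (S : ShortComplex (Rep.{0} k G))
    (h : ∀ x : S.X₂, S.g.hom x = 0 → ∃ y : S.X₁, S.f.hom y = x) : S.Exact := by
  rw [← ShortComplex.exact_map_iff_of_faithful S (forget₂ (Rep.{0} k G) (ModuleCat.{0} k))]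
  rw [ShortComplex.moduleCat_exact_iff]
  exact h

set_option backward.defeqAttrib.useBackward true in
set_option backward.isDefEq.respectTransparency false in
theorem rep_res (X : ℕ → Rep.{0} k G) (d : ∀ n, X (n + 1) ⟶ X n)
    (sq : ∀ n, d (n + 1) ≫ d n = 0) (Z : Rep.{0} k G) (e : X 0 ⟶ Z)
    (hproj : ∀ n, Projective (X n)) (hde : d 0 ≫ e = 0)
    (he : Function.Surjective e.hom)
    (h0 : ∀ v : X 0, e.hom v = 0 → ∃ w, (d 0).hom w = v)
    (h1 : ∀ n (v : X (n + 1)), (d n).hom v = 0 → ∃ w, (d (n + 1)).hom w = v) :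
    ∃ P : ProjectiveResolution Z, P.complex = ChainComplex.of X d sq := by
  have hd10 : (ChainComplex.of X d sq).d 1 0 = d 0 :=
    ChainComplex.of_d (V := Rep.{0} k G) (X := X) (d := d) (j := 0)
  have hde' : (ChainComplex.of X d sq).d 1 0 ≫ e = 0 := by rw [hd10]; exact hde
  have hf0 : (((ChainComplex.of X d sq).toSingle₀Equiv Z).symm ⟨e, hde'⟩).f 0 = e :=
    ChainComplex.toSingle₀Equiv_symm_apply_f_zero _ _
  refine ⟨{ complex := ChainComplex.of X d sq
            projective := fun n => hproj n
            π := (ChainComplex.toSingle₀Equiv _ _).symm ⟨e, hde'⟩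
            quasiIso := ⟨fun n => ?_⟩ }, rfl⟩
  cases n with
  | zero =>
    rw [ChainComplex.quasiIsoAt₀_iff, ShortComplex.quasiIso_iff_of_zeros']
    · dsimp
      refine (ShortComplex.exact_and_epi_g_iff_of_iso ?_).2
        ⟨rep_exact (ShortComplex.mk (d 0) e hde) h0, (Rep.epi_iff_surjective e).2 he⟩
      refine ShortComplex.isoMk (Iso.refl _) (Iso.refl _) (Iso.refl _) ?_ ?_
      · exact (Category.id_comp _).trans (hd10.symm.trans (Category.comp_id _).symm)
      · exact (Category.id_comp _).trans (hf0.symm.trans (Category.comp_id _).symm)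
    all_goals rfl
  | succ n =>
    rw [quasiIsoAt_iff_exactAt']
    · rw [HomologicalComplex.exactAt_iff' _ (n + 1 + 1) (n + 1) n (by simp) (by simp)]
      apply rep_exact
      intro x hx
      have e1 : (ChainComplex.of X d sq).d (n + 1) n = d n := ChainComplex.of_d _ _ _
      have e2 : (ChainComplex.of X d sq).d (n + 1 + 1) (n + 1) = d (n + 1) :=
        ChainComplex.of_d _ _ _
      have hx' : (d n).hom x = 0 := by
        rw [← e1]
        exact hx
      obtain ⟨w, hw⟩ := h1 n x hx'
      refine ⟨w, ?_⟩
      have hw2 : ((ChainComplex.of X d sq).d (n + 1 + 1) (n + 1)).hom w = x := by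
        rw [e2]
        exact hw
      exact hw2
    · apply ChainComplex.exactAt_succ_single_obj

/-- permutation representation -/
noncomputable def pm (k G Y : Type) [CommRing k] [Group G] [MulAction G Y] :
    Representation k G (Y →₀ k) where
  toFun g := Finsupp.lmapDomain k k (g • ·)
  map_one' := by
    ext y : 2
    simp
  map_mul' x y := by
    ext z : 2
    simp [mul_smul]

lemma pm_single {Y : Type} [MulAction G Y] (g : G) (y : Y) (a : k) :
    pm k G Y g (Finsupp.single y a) = Finsupp.single (g • y) a := by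
  change Finsupp.lmapDomain k k (g • ·) (Finsupp.single y a) = _
  rw [Finsupp.lmapDomain_apply, Finsupp.mapDomain_single]

theorem pm_projective {Y : Type} [MulAction G Y] (r : Y → Y) (q : Y → G)
    (hq : ∀ y, q y • r y = y) (hr : ∀ (g : G) y, r (g • y) = r y)
    (hqq : ∀ (g : G) y, q (g • y) = g * q y) : Projective (Rep.of (pm k G Y)) where
  factors := by
    intro E X f e he
    have hs : Function.Surjective e.hom := (Rep.epi_iff_surjective e).1 he
    choose l0 hl0 using fun y : Y => hs (f.hom (Finsupp.single y 1 : Y →₀ k))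
    let lift : Y → E.V := fun y => E.ρ (q y) (l0 (r y))
    let L : (Y →₀ k) →ₗ[k] E.V := Finsupp.linearCombination k lift
    have hL : ∀ y, L (Finsupp.single y 1) = lift y := by
      intro y
      rw [Finsupp.linearCombination_single, one_smul]
    refine ⟨Rep.ofHom (ρ := pm k G Y) (σ := E.ρ) ⟨L, fun g => ?_⟩, ?_⟩
    · apply Finsupp.lhom_ext'
      intro y
      apply LinearMap.ext_ring
      change L (pm k G Y g (Finsupp.single y 1)) = E.ρ g (L (Finsupp.single y 1))
      rw [pm_single, hL, hL]
      change E.ρ (q (g • y)) (l0 (r (g • y))) = E.ρ g (E.ρ (q y) (l0 (r y)))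
      rw [hr, hqq, Rep.ρ_mul]; rfl
    · apply Rep.hom_ext
      apply Representation.IntertwiningMap.ext
      apply LinearMap.ext
      intro x
      have key : (e.hom.toLinearMap ∘ₗ L) = f.hom.toLinearMap := by
        apply Finsupp.lhom_ext'
        intro y
        apply LinearMap.ext_ring
        change e.hom (L (Finsupp.single y 1)) = f.hom (Finsupp.single y 1 : Y →₀ k)
        rw [hL]
        change e.hom (E.ρ (q y) (l0 (r y))) = _
        rw [Rep.hom_comm_apply, hl0, ← Rep.hom_comm_apply]
        congr 1
        change pm k G Y (q y) (Finsupp.single (r y) 1) = _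
        rw [pm_single, hq]
      exact LinearMap.congr_fun key x

/-- finitely generated representation -/
def FGR (X : Rep.{0} ℤ G) : Prop := ∃ s : Finset X.V, ∀ x : X.V,
  x ∈ Submodule.span ℤ (Set.range (fun p : G × s => X.ρ p.1 (p.2 : X.V)))

variable (G) in
/-- type FP_n -/
def FP (n : ℕ) : Prop := ∃ R : ProjectiveResolution (Rep.trivial ℤ G ℤ), ∀ k ≤ n,
  FGR (R.complex.X k)

theorem pm_fg {Y : Type} [MulAction G Y] (T : Set Y) (hT : T.Finite)
    (h : ∀ y : Y, ∃ g : G, ∃ t ∈ T, g • t = y) : FGR (Rep.of (pm ℤ G Y)) := by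
  classical
  refine ⟨hT.toFinset.image (fun t => (Finsupp.single t 1 : Y →₀ ℤ)), fun x => ?_⟩
  change (x : Y →₀ ℤ) ∈ _
  induction x using Finsupp.induction_linear with
  | zero => exact Submodule.zero_mem _
  | add a b ha hb => exact Submodule.add_mem _ ha hb
  | single y a =>
    obtain ⟨g, t, ht, rfl⟩ := h y
    have h1 : (Finsupp.single (g • t) a : Y →₀ ℤ) = a • Finsupp.single (g • t) 1 := by
      rw [Finsupp.smul_single, smul_eq_mul, mul_one]
    rw [h1]
    apply Submodule.smul_mem
    apply Submodule.subset_span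
    refine ⟨(g, ⟨(Finsupp.single t 1 : Y →₀ ℤ), ?_⟩), ?_⟩
    · exact Finset.mem_image.2 ⟨t, hT.mem_toFinset.2 ht, rfl⟩
    · change pm ℤ G Y g (Finsupp.single t 1) = _
      rw [pm_single]

end res

end Pool.Agent.H653R3
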