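import Pool.Agent.H653R3.Slab
import Pool.Agent.H653R3.Res

set_option autoImplicit false
set_option linter.unusedSectionVars false
set_option linter.unusedVariables false

/-! Bestvina-Brady groups of flag complexes with a contraction are of type FP_n for all n. -/

namespace Pool.Agent.H653R3

open Finsupp (single supported)
open CategoryTheory

variable {V : Type} [Fintype V] [LinearOrder V] (G : SimpleGraph V) [DecidableRel G.Adj]

/-- the Bestvina-Brady group -/
abbrev BB : Type := ↥(chi (G := G)).ker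

variable {G}

lemma ch_BB (q : BB G) : ch G q.1 = 0 := by
  have : chi q.1 = 1 := q.2
  unfold ch; rw [this]; rfl

/-- cells of the slab of dimension `k` -/
def SlK (G : SimpleGraph V) (N k : ℕ) : Set (RA G × Finset V) := {c | c ∈ Slab G N ∧ c.2.card = k}

instance (N k : ℕ) : MulAction (BB G) ↥(SlK G N k) where
  smul q c := ⟨(q.1 * c.1.1, c.1.2), by
    obtain ⟨⟨⟨h1, h2⟩, h3⟩, h4⟩ := c.2
    refine ⟨⟨⟨h1, ?_⟩, ?_⟩, h4⟩
    · change 0 ≤ ch G (q.1 * c.1.1)
      rw [ch_mul, ch_BB, zero_add]; exact h2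
    · change ch G (q.1 * c.1.1) + _ ≤ _
      rw [ch_mul, ch_BB, zero_add]; exact h3⟩
  one_smul c := Subtype.ext (Prod.ext (one_mul _) rfl)
  mul_smul p q c := Subtype.ext (Prod.ext (mul_assoc _ _ _) rfl)

lemma smul_val {N k : ℕ} (q : BB G) (c : ↥(SlK G N k)) : (q • c).1 = (q.1 * c.1.1, c.1.2) := rfl

/-- inclusion of chains -/
noncomputable def inc (G : SimpleGraph V) (N k : ℕ) : (↥(SlK G N k) →₀ ℤ) →ₗ[ℤ] Ch G :=
  Finsupp.lmapDomain ℤ ℤ Subtype.val

lemma inc_single {N k : ℕ} (c : ↥(SlK G N k)) (a : ℤ) : inc G N k (single c a) = single c.1 a := by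
  simp [inc, Finsupp.lmapDomain_apply, Finsupp.mapDomain_single]

lemma inc_inj (N k : ℕ) : Function.Injective (inc G N k) :=
  Finsupp.mapDomain_injective Subtype.val_injective

lemma inc_supp {N k : ℕ} (x : ↥(SlK G N k) →₀ ℤ) : inc G N k x ∈ supported ℤ ℤ (SlK G N k) := by
  apply lin_supp (inc G N k) Set.univ _ _ x (by simp)
  intro c _
  rw [inc_single]; exact single_mem c.2

lemma exists_inc {N k : ℕ} {z : Ch G} (hz : z ∈ supported ℤ ℤ (SlK G N k)) :
    ∃ x, inc G N k x = z := by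
  have : supported ℤ ℤ (SlK G N k) ≤ LinearMap.range (inc G N k) := by
    rw [Finsupp.supported_eq_span_single, Submodule.span_le]
    rintro _ ⟨c, hc, rfl⟩
    exact ⟨single ⟨c, hc⟩ 1, inc_single _ _⟩
  exact this hz

lemma bd_SlK {N k : ℕ} {z : Ch G} (hz : z ∈ supported ℤ ℤ (SlK G N (k + 1))) :
    bd G z ∈ supported ℤ ℤ (SlK G N k) := by
  apply lin_supp (bd G) _ _ _ z hz
  rintro ⟨g, σ⟩ ⟨⟨⟨h1, h2⟩, h3⟩, h4⟩
  simp only at h1 h2 h3 h4
  rw [bd_single]
  apply Submodule.sum_mem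
  intro v hv
  apply Submodule.smul_mem
  have h5 : (σ.erase v).card + 1 = σ.card := Finset.card_erase_add_one hv
  have h6 : (σ.erase v).card = k := by omega
  refine Submodule.sub_mem _ (single_mem ⟨⟨⟨clq_erase h1 v, h2⟩, ?_⟩, h6⟩)
    (single_mem ⟨⟨⟨clq_erase h1 v, ?_⟩, ?_⟩, h6⟩)
  · simp only; omega
  · simp only; rw [ch_mul, ch_gen]; omega
  · simp only; rw [ch_mul, ch_gen]; omega

/-- translation -/
noncomputable def Lt (h : RA G) : Ch G →ₗ[ℤ] Ch G :=
  Finsupp.lmapDomain ℤ ℤ (fun c : RA G × Finset V => (h * c.1, c.2))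

lemma Lt_single (h g : RA G) (σ : Finset V) : Lt h (single (g, σ) 1) = single (h * g, σ) 1 := by
  simp [Lt, Finsupp.lmapDomain_apply, Finsupp.mapDomain_single]

lemma bd_Lt (h : RA G) (z : Ch G) : bd G (Lt h z) = Lt h (bd G z) := by
  have := lin_eq (bd G ∘ₗ Lt h) (Lt h ∘ₗ bd G) Set.univ (fun c _ => by
    obtain ⟨g, σ⟩ := c
    simp only [LinearMap.comp_apply]
    rw [Lt_single, bd_single, bd_single, map_sum]
    apply Finset.sum_congr rfl
    intro v hv
    rw [map_smul, map_sub, Lt_single, Lt_single, mul_assoc]) z (by simp)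
  simpa using this

lemma augC_Lt (h : RA G) (z : Ch G) : augC G (Lt h z) = augC G z := by
  have := lin_eq (augC G ∘ₗ Lt h) (augC G) Set.univ (fun c _ => by
    obtain ⟨g, σ⟩ := c
    simp only [LinearMap.comp_apply]
    rw [Lt_single, augC_single, augC_single]) z (by simp)
  simpa using this

lemma inc_pm {N k : ℕ} (q : BB G) (x : ↥(SlK G N k) →₀ ℤ) :
    inc G N k (pm ℤ (BB G) _ q x) = Lt q.1 (inc G N k x) := by
  have := lin_eq (inc G N k ∘ₗ pm ℤ (BB G) _ q) (Lt q.1 ∘ₗ inc G N k) Set.univ (fun c _ => by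
    simp only [LinearMap.comp_apply]
    rw [pm_single, inc_single, inc_single]
    obtain ⟨⟨g, σ⟩, hc⟩ := c
    rw [Lt_single]; rfl) x (by simp)
  simpa using this

/-- the differential -/
noncomputable def dK (G : SimpleGraph V) [DecidableRel G.Adj] (N k : ℕ) :
    (↥(SlK G N (k + 1)) →₀ ℤ) →ₗ[ℤ] (↥(SlK G N k) →₀ ℤ) where
  toFun x := (exists_inc (bd_SlK (inc_supp x))).choose
  map_add' x y := by
    apply inc_inj
    rw [(exists_inc (bd_SlK (inc_supp (x + y)))).choose_spec, map_add, map_add, map_add,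
      (exists_inc (bd_SlK (inc_supp x))).choose_spec, (exists_inc (bd_SlK (inc_supp y))).choose_spec]
  map_smul' a x := by
    apply inc_inj
    rw [(exists_inc (bd_SlK (inc_supp (a • x)))).choose_spec, map_smul, map_smul, RingHom.id_apply,
      map_smul, (exists_inc (bd_SlK (inc_supp x))).choose_spec]

lemma inc_dK {N k : ℕ} (x : ↥(SlK G N (k + 1)) →₀ ℤ) :
    inc G N k (dK G N k x) = bd G (inc G N (k + 1) x) :=
  (exists_inc (bd_SlK (inc_supp x))).choose_spec

/-- the modules -/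
noncomputable abbrev XK (G : SimpleGraph V) [DecidableRel G.Adj] (N k : ℕ) : Rep.{0} ℤ (BB G) :=
  Rep.of (pm ℤ (BB G) ↥(SlK G N k))

noncomputable def dKr (G : SimpleGraph V) [DecidableRel G.Adj] (N k : ℕ) : XK G N (k + 1) ⟶ XK G N k :=
  Rep.ofHom (ρ := pm ℤ (BB G) ↥(SlK G N (k + 1))) (σ := pm ℤ (BB G) ↥(SlK G N k))
    ⟨dK G N k, fun q => by
      apply LinearMap.ext
      intro x
      apply inc_inj
      change inc G N k (dK G N k (pm ℤ (BB G) _ q x)) = inc G N k (pm ℤ (BB G) _ q (dK G N k x))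
      rw [inc_dK, inc_pm, inc_pm, bd_Lt, inc_dK]⟩

noncomputable def eK (G : SimpleGraph V) [DecidableRel G.Adj] (N : ℕ) : XK G N 0 ⟶ Rep.trivial ℤ (BB G) ℤ :=
  Rep.ofHom (ρ := pm ℤ (BB G) ↥(SlK G N 0)) (σ := Representation.trivial ℤ (BB G) ℤ)
    ⟨augC G ∘ₗ inc G N 0, fun q => by
      apply LinearMap.ext
      intro x
      change augC G (inc G N 0 (pm ℤ (BB G) _ q x)) = augC G (inc G N 0 x)
      rw [inc_pm, augC_Lt]⟩

lemma bd_bd_supp {z : Ch G} (hz : z ∈ supported ℤ ℤ (KK G)) : bd G (bd G z) = 0 := by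
  have := lin_eq (bd G ∘ₗ bd G) 0 (KK G) (fun c hc => bd_bd hc) z hz
  simpa using this

lemma SlK_sub {N k : ℕ} : SlK G N k ⊆ KK G := fun c hc => hc.1.1.1

/-- degree selection -/
lemma select {N k : ℕ} {w z : Ch G} (hw : w ∈ supported ℤ ℤ (Slab G N))
    (hz : z ∈ supported ℤ ℤ (SlK G N k)) (h : bd G w = z) :
    ∃ w' ∈ supported ℤ ℤ (SlK G N (k + 1)), bd G w' = z := by
  classical
  set wa : Ch G := w.filter (fun c => c.2.card = k + 1) with hwa
  set wb : Ch G := w.filter (fun c => ¬ c.2.card = k + 1) with hwb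
  have hsum : wa + wb = w := Finsupp.filter_add_filter_not w _
  have h1 : wa ∈ supported ℤ ℤ (SlK G N (k + 1)) := by
    rw [Finsupp.mem_supported]
    intro c hc
    rw [hwa, Finset.mem_coe, Finsupp.support_filter, Finset.mem_filter] at hc
    exact ⟨(Finsupp.mem_supported _ _).1 hw hc.1, hc.2⟩
  have h2 : wb ∈ supported ℤ ℤ {c : RA G × Finset V | ¬ c.2.card = k + 1} := by
    rw [Finsupp.mem_supported]
    intro c hc
    rw [hwb, Finset.mem_coe, Finsupp.support_filter, Finset.mem_filter] at hc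
    exact hc.2
  have h3 : bd G wb ∈ supported ℤ ℤ {c : RA G × Finset V | ¬ c.2.card = k} := by
    apply lin_supp (bd G) _ _ _ wb h2
    rintro ⟨g, σ⟩ hc
    have hc' : ¬ σ.card = k + 1 := hc
    rw [bd_single]
    apply Submodule.sum_mem
    intro v hv
    apply Submodule.smul_mem
    have h5 : (σ.erase v).card + 1 = σ.card := Finset.card_erase_add_one hv
    have h6 : ¬ (σ.erase v).card = k := by omega
    exact Submodule.sub_mem _ (single_mem h6) (single_mem h6)
  have h4 : bd G wb ∈ supported ℤ ℤ {c : RA G × Finset V | c.2.card = k} := by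
    have e : bd G wb = z - bd G wa := by rw [← h, ← hsum, map_add]; abel
    rw [e]
    refine Submodule.sub_mem _ ?_ ?_
    · exact Finsupp.supported_mono (fun c hc => hc.2) hz
    · exact Finsupp.supported_mono (fun c hc => hc.2) (bd_SlK h1)
  have h5 : bd G wb ∈ supported ℤ ℤ ({c : RA G × Finset V | ¬ c.2.card = k} ∩
      {c : RA G × Finset V | c.2.card = k}) := by
    rw [Finsupp.supported_inter]; exact ⟨h3, h4⟩
  have h6 : ({c : RA G × Finset V | ¬ c.2.card = k} ∩
      {c : RA G × Finset V | c.2.card = k}) = ∅ := by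
    ext c; simp only [Set.mem_inter_iff, Set.mem_ofPred_eq, Set.mem_empty_iff_false, iff_false]
    tauto
  rw [h6, Finsupp.supported_empty, Submodule.mem_bot] at h5
  refine ⟨wa, h1, ?_⟩
  rw [← h, ← hsum, map_add, h5, add_zero]

variable [Nonempty V]

/-- a transversal element -/
noncomputable def tt (G : SimpleGraph V) : RA G := gen G (Classical.arbitrary V)

lemma ch_tt_zpow (n : ℤ) : ch G (tt G ^ n) = n := by
  have : chi (tt G ^ n) = Multiplicative.ofAdd n := by
    rw [map_zpow]; unfold tt chi; rw [liftRA_gen, ← ofAdd_zsmul]; simp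
  unfold ch; rw [this]; rfl

lemma XK_proj (N k : ℕ) : Projective (XK G N k) := by
  refine pm_projective (k := ℤ) (G := BB G) (Y := ↥(SlK G N k))
    (fun c => ⟨(tt G ^ (ch G c.1.1), c.1.2), ?_⟩)
    (fun c => ⟨c.1.1 * (tt G ^ (ch G c.1.1))⁻¹, ?_⟩) ?_ ?_ ?_
  · obtain ⟨⟨⟨h1, h2⟩, h3⟩, h4⟩ := c.2
    refine ⟨⟨⟨h1, ?_⟩, ?_⟩, h4⟩
    · change 0 ≤ ch G (tt G ^ (ch G c.1.1))
      rw [ch_tt_zpow]; exact h2
    · change ch G (tt G ^ (ch G c.1.1)) + _ ≤ _
      rw [ch_tt_zpow]; exact h3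
  · have h : ch G (c.1.1 * (tt G ^ (ch G c.1.1))⁻¹) = 0 := by
      rw [ch_mul, ch_inv, ch_tt_zpow]; ring
    exact h
  · intro y
    apply Subtype.ext
    rw [smul_val]
    exact Prod.ext (inv_mul_cancel_right _ _) rfl
  · intro g y
    apply Subtype.ext
    have : ch G (g.1 * y.1.1) = ch G y.1.1 := by rw [ch_mul, ch_BB, zero_add]
    change (tt G ^ (ch G (g.1 * y.1.1)), y.1.2) = (tt G ^ (ch G y.1.1), y.1.2)
    rw [this]
  · intro g y
    apply Subtype.ext
    have : ch G (g.1 * y.1.1) = ch G y.1.1 := by rw [ch_mul, ch_BB, zero_add]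
    change g.1 * y.1.1 * (tt G ^ (ch G (g.1 * y.1.1)))⁻¹ = g.1 * (y.1.1 * (tt G ^ (ch G y.1.1))⁻¹)
    rw [this, mul_assoc]

lemma XK_fg (N k : ℕ) : FGR (XK G N k) := by
  refine pm_fg (G := BB G) (Y := ↥(SlK G N k)) {c | c.1.1 = tt G ^ (ch G c.1.1)} ?_ ?_
  · apply Set.Finite.of_injOn (f := fun c : ↥(SlK G N k) => (ch G c.1.1, c.1.2))
      (t := Set.Icc (0 : ℤ) N ×ˢ (Set.univ : Set (Finset V)))
    · intro c _
      obtain ⟨⟨⟨h1, h2⟩, h3⟩, h4⟩ := c.2
      refine ⟨⟨h2, ?_⟩, trivial⟩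
      change ch G c.1.1 ≤ N
      omega
    · intro c hc c' hc' h
      simp only [Prod.mk.injEq] at h
      apply Subtype.ext
      apply Prod.ext
      · have e1 : c.1.1 = tt G ^ (ch G c.1.1) := hc
        have e2 : c'.1.1 = tt G ^ (ch G c'.1.1) := hc'
        rw [e1, e2, h.1]
      · exact h.2
    · exact (Set.finite_Icc _ _).prod Set.finite_univ
  · intro y
    refine ⟨⟨y.1.1 * (tt G ^ (ch G y.1.1))⁻¹, ?_⟩, ⟨(tt G ^ (ch G y.1.1), y.1.2), ?_⟩, ?_, ?_⟩
    · have h : ch G (y.1.1 * (tt G ^ (ch G y.1.1))⁻¹) = 0 := by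
        rw [ch_mul, ch_inv, ch_tt_zpow]; ring
      exact h
    · obtain ⟨⟨⟨h1, h2⟩, h3⟩, h4⟩ := y.2
      refine ⟨⟨⟨h1, ?_⟩, ?_⟩, h4⟩
      · change 0 ≤ ch G (tt G ^ (ch G y.1.1))
        rw [ch_tt_zpow]; exact h2
      · change ch G (tt G ^ (ch G y.1.1)) + _ ≤ _
        rw [ch_tt_zpow]; exact h3
    · change tt G ^ (ch G y.1.1) = tt G ^ (ch G (tt G ^ (ch G y.1.1)))
      rw [ch_tt_zpow]
    · apply Subtype.ext
      rw [smul_val]
      exact Prod.ext (inv_mul_cancel_right _ _) rfl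

omit [Nonempty V] in
lemma dd_aux {N : ℕ} (n : ℕ) (x : ↥(SlK G N (n + 1 + 1)) →₀ ℤ) :
    inc G N n (dK G N n (dK G N (n + 1) x)) = inc G N n 0 := by
  rw [inc_dK, inc_dK, bd_bd_supp (Finsupp.supported_mono SlK_sub (inc_supp x)), map_zero]

omit [Nonempty V] in
lemma de_aux {N : ℕ} (x : ↥(SlK G N (0 + 1)) →₀ ℤ) :
    augC G (inc G N 0 (dK G N 0 x)) = 0 := by
  rw [inc_dK, augC_bd]

omit [Nonempty V] in
lemma bz_aux {N m : ℕ} (x : ↥(SlK G N (m + 1)) →₀ ℤ) (hx : dK G N m x = 0) :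
    bd G (inc G N (m + 1) x) = 0 := by
  rw [← inc_dK, hx, map_zero]

theorem BB_FP (C : Contr G) (N : ℕ) (hN : ∀ σ, clq G σ → σ.card ≤ N + 1) (n : ℕ) :
    FP (BB G) n := by
  obtain ⟨P, hP⟩ := rep_res (XK G N) (dKr G N)
    (fun n => by
      apply Rep.hom_ext
      apply Representation.IntertwiningMap.ext
      apply LinearMap.ext
      intro x
      apply inc_inj
      exact dd_aux n x)
    (Rep.trivial ℤ (BB G) ℤ) (eK G N) (XK_proj N)
    (by
      apply Rep.hom_ext
      apply Representation.IntertwiningMap.ext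
      apply LinearMap.ext
      intro x
      exact de_aux x)
    (by
      intro a
      refine ⟨(single (⟨((1 : RA G), (∅ : Finset V)), ?_⟩ : ↥(SlK G N 0)) a :
        ↥(SlK G N 0) →₀ ℤ), ?_⟩
      · refine ⟨⟨⟨?_, ?_⟩, ?_⟩, rfl⟩
        · intro u hu; simp at hu
        · change 0 ≤ ch G (1 : RA G); rw [ch_one]
        · change ch G (1 : RA G) + ((∅ : Finset V).card : ℤ) ≤ N; rw [ch_one]; simp
      · change augC G (inc G N 0 (single _ a)) = a
        rw [inc_single]
        have e : (single ((1 : RA G), (∅ : Finset V)) a : Ch G) = a • single (1, ∅) 1 := by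
          rw [Finsupp.smul_single, smul_eq_mul, mul_one]
        rw [e, map_smul, augC_single, if_pos rfl, smul_eq_mul, mul_one])
    (by
      intro x hx
      have hx' : augC G (inc G N 0 x) = 0 := hx
      have hb : bd G (inc G N 0 x) = 0 := by
        have := lin_supp (bd G) (SlK G N 0) ⊥ (by
          rintro ⟨g, σ⟩ ⟨_, h⟩
          have h' : σ.card = 0 := h
          rw [Finset.card_eq_zero] at h'
          subst h'
          rw [bd_single]; simp) _ (inc_supp x)
        exact (Submodule.mem_bot ℤ).1 this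
      obtain ⟨w, hw, hw'⟩ := slab C N hN (inc G N 0 x)
        (Finsupp.supported_mono (fun c hc => hc.1) (inc_supp x)) hb hx'
      obtain ⟨w', h1, h2⟩ := select hw (inc_supp x) hw'
      obtain ⟨y, hy⟩ := exists_inc h1
      refine ⟨y, ?_⟩
      apply inc_inj
      change inc G N 0 (dK G N 0 y) = inc G N 0 x
      rw [inc_dK, hy, h2])
    (by
      intro m x hx
      have hx' : dK G N m x = 0 := hx
      have hb : bd G (inc G N (m + 1) x) = 0 := bz_aux x hx'
      have ha : augC G (inc G N (m + 1) x) = 0 := by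
        have := lin_supp (augC G) (SlK G N (m + 1)) ⊥ (by
          rintro ⟨g, σ⟩ ⟨_, h⟩
          have h' : σ.card = m + 1 := h
          rw [augC_single, if_neg]
          · exact Submodule.zero_mem _
          · rintro rfl; simp at h') _ (inc_supp x)
        exact (Submodule.mem_bot ℤ).1 this
      obtain ⟨w, hw, hw'⟩ := slab C N hN (inc G N (m + 1) x)
        (Finsupp.supported_mono (fun c hc => hc.1) (inc_supp x)) hb ha
      obtain ⟨w', h1, h2⟩ := select hw (inc_supp x) hw'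
      obtain ⟨y, hy⟩ := exists_inc h1
      refine ⟨y, ?_⟩
      apply inc_inj
      change inc G N (m + 1) (dK G N (m + 1) y) = inc G N (m + 1) x
      rw [inc_dK, hy, h2])
  refine ⟨P, fun k _ => ?_⟩
  rw [hP]
  exact XK_fg N k

end Pool.Agent.H653R3
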