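import Pool.Agent.H653R3.Fib
import Pool.Agent.H653R3.QFP
import Pool.Agent.H653R3.Hol

set_option autoImplicit false
set_option linter.unusedSectionVars false
set_option linter.unusedVariables false

/-! Reduction of the negation of the homological 1-2-3 statement to combinatorial data. -/

namespace Pool.Agent.H653R3

open CategoryTheory

/-- the statement that is refuted -/
def Stm : Prop := ∀ (G₁ G₂ Q : Type) [Group G₁] [Group G₂] [Group Q] (π₁ : G₁ →* Q) (π₂ : G₂ →* Q),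
      Function.Surjective π₁ → Function.Surjective π₂ → Group.FG π₁.ker →
      FP G₁ 2 → FP G₂ 2 → FP Q 3 →
      FP ↥((π₁.comp (MonoidHom.fst G₁ G₂)).eqLocus (π₂.comp (MonoidHom.snd G₁ G₂))) 2

theorem main_red {ι Q : Type} [Finite ι] [Group Q] (π : FreeGroup ι →* Q)
    (hπ : Function.Surjective π) (hQ : FP Q 3)
    (hE : ¬ ((π.comp (MonoidHom.fst (FreeGroup ι) (FreeGroup ι))).eqLocus
      (π.comp (MonoidHom.snd (FreeGroup ι) (FreeGroup ι)))).FG) : ¬ Stm := by
  intro h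
  obtain ⟨p, h1, h2, h3⟩ := exists_p1 hπ
  have hQ2 : FP Q 2 := by
    obtain ⟨R, hR⟩ := hQ
    exact ⟨R, fun k hk => hR k (by omega)⟩
  apply hE
  apply fib_FG hπ p h1 h2 h3
  apply h (G1 π) (FreeGroup ι) Q p π (fun q => ⟨jQ π q, h2 q⟩) hπ ?_ (G1_FP2 π hπ hQ2)
    (free_FP2 ι) hQ
  rw [ker_p1 hπ p h1 h2 h3]
  exact (Group.fg_iff_subgroup_fg _).2 (KS_fg π)

variable {V : Type} [Fintype V] [LinearOrder V] {G : SimpleGraph V} [DecidableRel G.Adj]

variable [Nonempty V]

lemma chi_piA (f : FreeGroup (V × V)) : chi (piA G f) = 1 := by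
  have : (chi (G := G)).comp (piA G) = 1 := by
    apply FreeGroup.ext_hom
    rintro ⟨u, v⟩
    rw [MonoidHom.comp_apply, piA_of, map_mul, map_inv]
    unfold chi
    rw [liftRA_gen, liftRA_gen, mul_inv_cancel]; rfl
  exact DFunLike.congr_fun this f

/-- the surjection onto the Bestvina-Brady group -/
def piQ (G : SimpleGraph V) [DecidableRel G.Adj] : FreeGroup (V × V) →* BB G :=
  (piA G).codRestrict (chi (G := G)).ker (fun f => chi_piA f)

lemma piQ_val (f : FreeGroup (V × V)) : (piQ G f : RA G) = piA G f := rfl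

lemma pow_mem (hc : G.Preconnected) (u v : V) (n : ℤ) :
    gen G u ^ n * (gen G v ^ n)⁻¹ ∈ (piA G).range := by
  obtain ⟨w⟩ := hc u v
  induction w with
  | nil => rw [mul_inv_cancel]; exact Subgroup.one_mem _
  | @cons a b c h p ih =>
    have h1 : gen G a ^ n * (gen G b ^ n)⁻¹ ∈ (piA G).range := by
      refine ⟨(FreeGroup.of (a, b)) ^ n, ?_⟩
      have hcm : Commute (gen G a) (gen G b)⁻¹ :=
        (show Commute (gen G a) (gen G b) from gen_comm h).inv_right
      rw [map_zpow, piA_of, hcm.mul_zpow, inv_zpow]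
    have h2 := Subgroup.mul_mem _ h1 ih
    have h3 : gen G a ^ n * (gen G b ^ n)⁻¹ * (gen G b ^ n * (gen G c ^ n)⁻¹) =
      gen G a ^ n * (gen G c ^ n)⁻¹ := by group
    rwa [h3] at h2

lemma dec_RA (hc : G.Preconnected) (v0 : V) (g : RA G) :
    ∃ n : ℤ, g * (gen G v0 ^ n)⁻¹ ∈ (piA G).range := by
  have hg : g ∈ Subgroup.closure (Set.range (gen G)) := by rw [gen_range]; trivial
  induction hg using Subgroup.closure_induction_right with
  | one => exact ⟨0, by simp⟩
  | mul_right x hx y hy ih =>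
    obtain ⟨v, rfl⟩ := hy
    obtain ⟨n, hn⟩ := ih
    refine ⟨n + 1, ?_⟩
    have h1 := Subgroup.mul_mem _ (Subgroup.mul_mem _ hn (pow_mem hc v0 v n))
      (pow_mem hc v v0 (n + 1))
    have h2 : x * (gen G v0 ^ n)⁻¹ * (gen G v0 ^ n * (gen G v ^ n)⁻¹) *
        (gen G v ^ (n + 1) * (gen G v0 ^ (n + 1))⁻¹) =
        x * gen G v * (gen G v0 ^ (n + 1))⁻¹ := by
      rw [zpow_add_one (gen G v)]
      group
    rwa [h2] at h1
  | mul_inv_cancel x hx y hy ih =>
    obtain ⟨v, rfl⟩ := hy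
    obtain ⟨n, hn⟩ := ih
    refine ⟨n - 1, ?_⟩
    have h1 := Subgroup.mul_mem _ (Subgroup.mul_mem _ hn (pow_mem hc v0 v n))
      (pow_mem hc v v0 (n - 1))
    have h2 : x * (gen G v0 ^ n)⁻¹ * (gen G v0 ^ n * (gen G v ^ n)⁻¹) *
        (gen G v ^ (n - 1) * (gen G v0 ^ (n - 1))⁻¹) =
        x * (gen G v)⁻¹ * (gen G v0 ^ (n - 1))⁻¹ := by
      rw [zpow_sub_one (gen G v)]
      group
    rwa [h2] at h1

lemma piQ_surj (hc : G.Preconnected) : Function.Surjective (piQ G) := by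
  intro q
  obtain ⟨n, f, hf⟩ := dec_RA hc (Classical.arbitrary V) q.1
  have h1 : chi (piA G f) = 1 := chi_piA f
  rw [hf, map_mul, map_inv, map_zpow] at h1
  have h2 : chi q.1 = 1 := q.2
  have h3 : chi (gen G (Classical.arbitrary V)) = Multiplicative.ofAdd 1 := by
    unfold chi; rw [liftRA_gen]
  rw [h2, h3, one_mul, inv_eq_one, ← ofAdd_zsmul] at h1
  have h4 : n = 0 := by
    have h5 : n • (1 : ℤ) = 0 := h1
    simpa using h5
  subst h4
  refine ⟨f, ?_⟩
  apply Subtype.ext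
  rw [piQ_val, hf]; simp

lemma EE_eq : ((piQ G).comp (MonoidHom.fst (FreeGroup (V × V)) (FreeGroup (V × V)))).eqLocus
      ((piQ G).comp (MonoidHom.snd (FreeGroup (V × V)) (FreeGroup (V × V)))) = EE G := by
  ext ⟨f, f'⟩
  exact Subtype.ext_iff

theorem final_red (hc : G.Preconnected) (C : Contr G) (N : ℕ)
    (hN : ∀ σ, clq G σ → σ.card ≤ N + 1) {B : Type} (L : LocSys G B) {a : V} (p : G.Walk a a)
    (hp : holW L p ≠ 1) : ¬ Stm := by
  apply main_red (piQ G) (piQ_surj hc) (BB_FP C N hN 3)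
  rw [EE_eq]
  exact EE_not_fg L p hp

end Pool.Agent.H653R3
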