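import Pool.Agent.H653R3.Cel

set_option autoImplicit false
set_option linter.unusedSectionVars false
set_option linter.unusedVariables false

/-! From FP_2 to finitely generated relation modules. -/

namespace Pool.Agent.H653R3

open CategoryTheory
open Finsupp (single)

variable {k G κ : Type} [CommRing k] [Group G]

lemma rep_exact' (S : ShortComplex (Rep.{0} k G)) (hS : S.Exact) :
    ∀ x : S.X₂, S.g.hom x = 0 → ∃ y : S.X₁, S.f.hom y = x := by
  rw [← ShortComplex.exact_map_iff_of_faithful S (forget₂ (Rep.{0} k G) (ModuleCat.{0} k))] at hS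
  rw [ShortComplex.moduleCat_exact_iff] at hS
  exact hS

/-- `Phi` as a morphism -/
noncomputable abbrev Phr (x : κ → G) : FR k G κ ⟶ FR k G Unit := dm (fun i => bs (x i) () - bs 1 ())

lemma Phr_aur (x : κ → G) : Phr (k := k) x ≫ aur = 0 := by
  apply Rep.hom_ext
  apply Representation.IntertwiningMap.ext
  apply LinearMap.ext
  intro z
  exact au_Phi x z

lemma Phr_exact (x : κ → G) (hx : Subgroup.closure (Set.range x) = ⊤) :
    (ShortComplex.mk (Phr (k := k) x) aur (Phr_aur x)).Exact :=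
  rep_exact _ (fun z hz => Phi_surj x hx z hz)

instance : Epi (aur (k := k) (G := G)) := by
  rw [Rep.epi_iff_surjective]
  intro a
  refine ⟨(a • bs 1 () : CC k G Unit), ?_⟩
  change au (a • bs 1 () : CC k G Unit) = a
  rw [map_smul, au_bs, smul_eq_mul, mul_one]

lemma sch (x : κ → G) (hx : Subgroup.closure (Set.range x) = ⊤)
    (P : ProjectiveResolution (Rep.trivial k G k)) :
    ∃ (f : P.complex.X 2 ⟶ FR k G κ) (e : FR k G κ ⟶ FR k G κ),
      f ≫ Phr x = 0 ∧ e ≫ Phr x = 0 ∧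
      (∀ z : CC k G κ, Phi x z = 0 → ∃ (r : P.complex.X 2) (w : CC k G κ),
        z = e.hom w + f.hom r) := by
  haveI := FR_proj (k := k) (G := G) Unit
  haveI := FR_proj (k := k) (G := G) κ
  let S0 : ShortComplex (Rep.{0} k G) := ShortComplex.mk (Phr (k := k) x) aur (Phr_aur x)
  have hS0 : S0.Exact := Phr_exact x hx
  let η : P.complex.X 0 ⟶ Rep.trivial k G k := P.π.f 0
  haveI : Epi η := inferInstanceAs (Epi (P.π.f 0))
  have hη : P.complex.d 1 0 ≫ η = 0 := P.complex_d_comp_π_f_zero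
  let S1 : ShortComplex (Rep.{0} k G) := ShortComplex.mk (P.complex.d 1 0) η hη
  have hS1 : S1.Exact := P.exact₀
  have hS2 := P.exact_succ 0
  let α0 : FR k G Unit ⟶ P.complex.X 0 := Projective.factorThru aur η
  have hα0 : α0 ≫ η = aur := Projective.factorThru_comp _ _
  let β0 : P.complex.X 0 ⟶ FR k G Unit := Projective.factorThru η aur
  have hβ0 : β0 ≫ aur = η := Projective.factorThru_comp _ _
  have a1 : (Phr x ≫ α0) ≫ η = 0 := by rw [Category.assoc, hα0, Phr_aur]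
  obtain ⟨α1, hα1⟩ : ∃ α1 : FR k G κ ⟶ P.complex.X 1, α1 ≫ P.complex.d 1 0 = Phr x ≫ α0 :=
    ⟨hS1.liftFromProjective (Phr x ≫ α0) a1, hS1.liftFromProjective_comp _ _⟩
  have b1 : (P.complex.d 1 0 ≫ β0) ≫ aur = 0 := by rw [Category.assoc, hβ0, hη]
  obtain ⟨β1, hβ1⟩ : ∃ β1 : P.complex.X 1 ⟶ FR k G κ, β1 ≫ Phr x = P.complex.d 1 0 ≫ β0 :=
    ⟨hS0.liftFromProjective (P.complex.d 1 0 ≫ β0) b1, hS0.liftFromProjective_comp _ _⟩
  have c1 : (α0 ≫ β0 - 𝟙 _) ≫ aur = 0 := by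
    rw [Preadditive.sub_comp, Category.assoc, hβ0, hα0, Category.id_comp, sub_self]
  obtain ⟨h0, hh0⟩ : ∃ h0 : FR k G Unit ⟶ FR k G κ, h0 ≫ Phr x = α0 ≫ β0 - 𝟙 _ :=
    ⟨hS0.liftFromProjective (α0 ≫ β0 - 𝟙 _) c1, hS0.liftFromProjective_comp _ _⟩
  refine ⟨P.complex.d 2 1 ≫ β1, 𝟙 _ + Phr x ≫ h0 - α1 ≫ β1, ?_, ?_, ?_⟩
  · rw [Category.assoc, hβ1, ← Category.assoc, P.complex.d_comp_d, Limits.zero_comp]
  · rw [Preadditive.sub_comp, Preadditive.add_comp, Category.assoc, Category.assoc, hh0, hβ1,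
      ← Category.assoc α1, hα1, Preadditive.comp_sub, Category.id_comp, Category.comp_id,
      Category.assoc]
    abel
  · intro z hz
    have hz' : (Phr (k := k) x).hom z = 0 := hz
    have e1 : (P.complex.d 1 0).hom (α1.hom z) = 0 := by
      have h1 : (P.complex.d 1 0).hom (α1.hom z) = (α1 ≫ P.complex.d 1 0).hom z := rfl
      rw [h1, hα1]
      have h2 : (Phr x ≫ α0).hom z = α0.hom ((Phr (k := k) x).hom z) := rfl
      rw [h2, hz', map_zero]
    obtain ⟨r, hr⟩ := rep_exact' _ hS2 (α1.hom z) e1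
    have hr' : (P.complex.d 2 1).hom r = α1.hom z := hr
    refine ⟨r, z, ?_⟩
    have h3 : (𝟙 (FR k G κ) + Phr x ≫ h0 - α1 ≫ β1).hom z =
      z + h0.hom ((Phr (k := k) x).hom z) - β1.hom (α1.hom z) := rfl
    have h4 : (P.complex.d 2 1 ≫ β1).hom r = β1.hom ((P.complex.d 2 1).hom r) := rfl
    rw [h3, h4, hr', hz', map_zero]
    abel

lemma push_fg {X Y : Rep.{0} ℤ G} (f : X ⟶ Y) (hX : FGR X) : ∃ t : Finset X.V, ∀ x : X.V,
    f.hom x ∈ Submodule.span ℤ {w : Y.V | ∃ g : G, ∃ r ∈ t, w = Y.ρ g (f.hom r)} := by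
  obtain ⟨s, hs⟩ := hX
  refine ⟨s, fun x => ?_⟩
  have := hs x
  induction this using Submodule.span_induction with
  | mem y hy =>
    obtain ⟨⟨g, r⟩, rfl⟩ := hy
    apply Submodule.subset_span
    refine ⟨g, r, r.2, ?_⟩
    exact Rep.hom_comm_apply f g (r : X.V)
  | zero => rw [map_zero]; exact Submodule.zero_mem _
  | add a b _ _ ha hb => rw [map_add]; exact Submodule.add_mem _ ha hb
  | smul n a _ ha =>
    rw [map_zsmul]
    exact Submodule.smul_mem _ n ha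

theorem FP2_to [Finite κ] (x : κ → G) (hx : Subgroup.closure (Set.range x) = ⊤) (h : FP G 2) :
    ∃ R : Set (CC ℤ G κ), R.Finite ∧ (∀ r ∈ R, Phi x r = 0) ∧ ∀ z, Phi x z = 0 → z ∈ gsp R := by
  obtain ⟨P, hP⟩ := h
  obtain ⟨f, e, hf, he, hh⟩ := sch (k := ℤ) x hx P
  obtain ⟨t, ht⟩ := push_fg f (hP 2 le_rfl)
  obtain ⟨t', ht'⟩ := push_fg e (FR_fg κ)
  refine ⟨((fun r => f.hom r) '' (t : Set (P.complex.X 2).V)) ∪
    ((fun r => e.hom r) '' (t' : Set (CC ℤ G κ))), ?_, ?_, ?_⟩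
  · exact (t.finite_toSet.image _).union (t'.finite_toSet.image _)
  · rintro r (⟨a, ha, rfl⟩ | ⟨a, ha, rfl⟩)
    · have : (f ≫ Phr x).hom a = 0 := by rw [hf]; rfl
      exact this
    · have : (e ≫ Phr x).hom a = 0 := by rw [he]; rfl
      exact this
  · intro z hz
    obtain ⟨r, w, rfl⟩ := hh z hz
    apply Submodule.add_mem
    · have h1 := ht' w
      refine Submodule.span_mono ?_ h1
      rintro y ⟨g, a, ha, rfl⟩
      exact ⟨g, e.hom a, Or.inr ⟨a, ha, rfl⟩, rfl⟩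
    · have h1 := ht r
      refine Submodule.span_mono ?_ h1
      rintro y ⟨g, a, ha, rfl⟩
      exact ⟨g, f.hom a, Or.inl ⟨a, ha, rfl⟩, rfl⟩

end Pool.Agent.H653R3
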