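import Pool.Agent.H653R3.Exact

set_option autoImplicit false
set_option linter.unusedSectionVars false
set_option linter.unusedVariables false

/-! Exactness of slabs. -/

namespace Pool.Agent.H653R3

open Finsupp (single supported)

variable {V : Type} [Fintype V] [LinearOrder V] {G : SimpleGraph V} [DecidableRel G.Adj]

/-- simplicial boundary -/
noncomputable def dl : (Finset V →₀ ℤ) →ₗ[ℤ] (Finset V →₀ ℤ) :=
  Finsupp.linearCombination ℤ (fun σ : Finset V =>
    ∑ v ∈ σ, sgn v σ • (single (σ.erase v) 1 : Finset V →₀ ℤ))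

lemma dl_single (σ : Finset V) : dl (single σ 1) =
    ∑ v ∈ σ, sgn v σ • (single (σ.erase v) 1 : Finset V →₀ ℤ) := by
  unfold dl
  rw [Finsupp.linearCombination_single, one_smul]

variable (G)

/-- A contraction of the augmented chain complex of the flag complex. -/
structure Contr where
  S : (Finset V →₀ ℤ) →ₗ[ℤ] (Finset V →₀ ℤ)
  cl : ∀ σ, clq G σ → S (single σ 1) ∈ supported ℤ ℤ {σ' | clq G σ'}
  eq : ∀ σ, clq G σ → dl (S (single σ 1)) + S (dl (single σ 1)) = single σ 1

/-- height of a group element -/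
def ch (g : RA G) : ℤ := Multiplicative.toAdd (chi g)

variable {G}

lemma ch_mul (g h : RA G) : ch G (g * h) = ch G g + ch G h := by
  unfold ch; rw [map_mul]; rfl

lemma ch_gen (v : V) : ch G (gen G v) = 1 := by
  unfold ch chi; rw [liftRA_gen]; rfl

lemma ch_inv (g : RA G) : ch G g⁻¹ = -ch G g := by
  unfold ch; rw [map_inv]; rfl

lemma ch_one : ch G (1 : RA G) = 0 := by
  unfold ch; rw [map_one]; rfl

/-! ### bottoms -/

noncomputable def io (g : RA G) : (Finset V →₀ ℤ) →ₗ[ℤ] Ch G :=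
  Finsupp.lmapDomain ℤ ℤ (fun σ => (g, σ))

lemma io_single (g : RA G) (σ : Finset V) : io g (single σ 1) = single (g, σ) 1 := by
  simp [io, Finsupp.lmapDomain_apply, Finsupp.mapDomain_single]

lemma io_supp (g : RA G) {T : Set (Finset V)} {x : Finset V →₀ ℤ} (hx : x ∈ supported ℤ ℤ T) :
    io g x ∈ supported ℤ ℤ {c : RA G × Finset V | c.1 = g ∧ c.2 ∈ T} := by
  apply lin_supp (io g) T _ _ x hx
  intro σ hσ
  rw [io_single]
  exact single_mem ⟨rfl, hσ⟩

noncomputable def Db : Ch G →ₗ[ℤ] Ch G :=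
  Finsupp.linearCombination ℤ (fun c : RA G × Finset V => io c.1 (dl (single c.2 1)))

noncomputable def hb (C : Contr G) : Ch G →ₗ[ℤ] Ch G :=
  Finsupp.linearCombination ℤ (fun c : RA G × Finset V => io c.1 (C.S (single c.2 1)))

lemma Db_single (g : RA G) (σ : Finset V) : Db (single (g, σ) 1) = io g (dl (single σ 1)) := by
  unfold Db
  rw [Finsupp.linearCombination_single, one_smul]

lemma hb_single (C : Contr G) (g : RA G) (σ : Finset V) :
    hb C (single (g, σ) 1) = io g (C.S (single σ 1)) := by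
  unfold hb
  rw [Finsupp.linearCombination_single, one_smul]

lemma Db_io (g : RA G) (x : Finset V →₀ ℤ) : Db (io g x) = io g (dl x) := by
  have := lin_eq (Db ∘ₗ io g) (io g ∘ₗ dl) Set.univ (fun σ _ => by
    simp only [LinearMap.comp_apply]
    rw [io_single, Db_single]) x (by simp)
  simpa using this

lemma hb_io (C : Contr G) (g : RA G) (x : Finset V →₀ ℤ) : hb C (io g x) = io g (C.S x) := by
  have := lin_eq (hb C ∘ₗ io g) (io g ∘ₗ C.S) Set.univ (fun σ _ => by
    simp only [LinearMap.comp_apply]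
    rw [io_single, hb_single]) x (by simp)
  simpa using this

lemma bd_sub_Db (g : RA G) (σ : Finset V) :
    bd G (single (g, σ) 1) - Db (single (g, σ) 1) =
      ∑ v ∈ σ, (-sgn v σ) • (single (g * gen G v, σ.erase v) 1 : Ch G) := by
  rw [bd_single, Db_single, dl_single, map_sum, ← Finset.sum_sub_distrib]
  apply Finset.sum_congr rfl
  intro v hv
  rw [map_smul, io_single, smul_sub, neg_smul]; abel

theorem bottom (C : Contr G) (N : ℕ) (hN : ∀ σ, clq G σ → σ.card ≤ N + 1) (b : ℤ) (hbN : (N : ℤ) ≤ b)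
    (w : Ch G) (hw : w ∈ supported ℤ ℤ {c : RA G × Finset V | clq G c.2 ∧ ch G c.1 + c.2.card ≤ b})
    (hbw : bd G w ∈ supported ℤ ℤ {c : RA G × Finset V | 0 ≤ ch G c.1}) :
    ∃ u : Ch G, u ∈ supported ℤ ℤ (KK G) ∧ w - bd G u ∈ supported ℤ ℤ
      {c : RA G × Finset V | (clq G c.2 ∧ ch G c.1 + c.2.card ≤ b) ∧ 0 ≤ ch G c.1} := by
  obtain ⟨u, hu, hu'⟩ := push_down (bd G) Db (hb C) (fun c => -ch G c.1)
    {c : RA G × Finset V | clq G c.2 ∧ ch G c.1 + c.2.card ≤ b} 0
    (fun c hc => bd_bd hc.1)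
    (fun c hc => by
      obtain ⟨g, σ⟩ := c
      obtain ⟨h1, h2⟩ := hc
      simp only at h1 h2
      rw [bd_single]
      apply Submodule.sum_mem
      intro v hv
      apply Submodule.smul_mem
      have h3 : (σ.erase v).card + 1 = σ.card := Finset.card_erase_add_one hv
      refine Submodule.sub_mem _ (single_mem ⟨clq_erase h1 v, ?_⟩) (single_mem ⟨clq_erase h1 v, ?_⟩)
      · simp only; omega
      · simp only; rw [ch_mul, ch_gen]; omega)
    (fun c hc => by
      obtain ⟨g, σ⟩ := c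
      rw [bd_sub_Db]
      apply Submodule.sum_mem
      intro v hv
      apply Submodule.smul_mem
      apply single_mem
      change -ch G (g * gen G v) < -ch G g
      rw [ch_mul, ch_gen]; omega)
    (fun c hc => by
      obtain ⟨g, σ⟩ := c
      rw [Db_single]
      refine Finsupp.supported_mono ?_ (io_supp g (T := Set.univ) (by simp))
      rintro c ⟨h1, _⟩
      change -ch G c.1 = -ch G g
      rw [h1])
    (fun c hc h0 => by
      obtain ⟨g, σ⟩ := c
      rw [hb_single]
      refine Finsupp.supported_mono ?_ (io_supp g (C.cl σ hc.1))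
      rintro ⟨g', σ'⟩ ⟨h1, h2⟩
      have h1' : g' = g := h1
      have h2' : clq G σ' := h2
      have h0' : 0 < -ch G g := h0
      subst h1'
      have := hN σ' h2'
      refine ⟨⟨h2', ?_⟩, rfl⟩
      change ch G g' + (σ'.card : ℤ) ≤ b
      omega)
    (fun c hc h0 => by
      obtain ⟨g, σ⟩ := c
      rw [hb_single, Db_io, Db_single, hb_io, ← map_add, C.eq σ hc.1, io_single])
    w hw (Finsupp.supported_mono (fun c hc => by
      have : 0 ≤ ch G c.1 := hc
      change -ch G c.1 ≤ 0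
      omega) hbw)
  refine ⟨u, Finsupp.supported_mono (fun c hc => hc.1) hu, Finsupp.supported_mono ?_ hu'⟩
  rintro c ⟨h1, h2⟩
  refine ⟨h1, ?_⟩
  have : -ch G c.1 ≤ 0 := h2
  omega

/-! ### tops -/

/-- product of the generators of a clique -/
noncomputable def pr (G : SimpleGraph V) (σ : Finset V) : RA G := ((σ.sort (· ≤ ·)).map (gen G)).prod

lemma ch_list (l : List V) : ch G ((l.map (gen G)).prod) = l.length := by
  induction l with
  | nil => simp [ch_one]
  | cons a l ih => rw [List.map_cons, List.prod_cons, ch_mul, ch_gen, ih]; simp; ring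

lemma ch_pr (σ : Finset V) : ch G (pr G σ) = σ.card := by
  unfold pr; rw [ch_list]; simp

lemma pr_erase {σ : Finset V} (hσ : clq G σ) {v : V} (hv : v ∈ σ) :
    pr G σ = gen G v * pr G (σ.erase v) := by
  unfold pr
  rw [← List.prod_cons, ← List.map_cons]
  have hp : (σ.sort (· ≤ ·)).Perm (v :: (σ.erase v).sort (· ≤ ·)) := by
    rw [← Multiset.coe_eq_coe, ← Multiset.cons_coe, Finset.sort_eq, Finset.sort_eq,
      Finset.erase_val, Multiset.cons_erase hv]
  apply (hp.map (gen G)).prod_eq'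
  rw [List.pairwise_map]
  apply List.Pairwise.imp_of_mem (R := fun a b => a ≠ b)
  · intro a b ha hb hab
    rw [Finset.mem_sort] at ha hb
    exact gen_comm (hσ a ha b hb hab)
  · exact Finset.sort_nodup _ _

noncomputable def it (x : RA G) : (Finset V →₀ ℤ) →ₗ[ℤ] Ch G :=
  Finsupp.lmapDomain ℤ ℤ (fun σ => (x * (pr G σ)⁻¹, σ))

lemma it_single (x : RA G) (σ : Finset V) : it x (single σ 1) = single (x * (pr G σ)⁻¹, σ) 1 := by
  simp [it, Finsupp.lmapDomain_apply, Finsupp.mapDomain_single]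

lemma it_supp (x : RA G) {T : Set (Finset V)} {y : Finset V →₀ ℤ} (hy : y ∈ supported ℤ ℤ T) :
    it x y ∈ supported ℤ ℤ {c : RA G × Finset V | c.1 = x * (pr G c.2)⁻¹ ∧ c.2 ∈ T} := by
  apply lin_supp (it x) T _ _ y hy
  intro σ hσ
  rw [it_single]
  exact single_mem ⟨rfl, hσ⟩

noncomputable def Dt : Ch G →ₗ[ℤ] Ch G :=
  Finsupp.linearCombination ℤ (fun c : RA G × Finset V => -it (c.1 * pr G c.2) (dl (single c.2 1)))

noncomputable def htp (C : Contr G) : Ch G →ₗ[ℤ] Ch G :=
  Finsupp.linearCombination ℤ (fun c : RA G × Finset V => -it (c.1 * pr G c.2) (C.S (single c.2 1)))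

lemma Dt_single (g : RA G) (σ : Finset V) :
    Dt (single (g, σ) 1) = -it (g * pr G σ) (dl (single σ 1)) := by
  unfold Dt
  rw [Finsupp.linearCombination_single, one_smul]

lemma htp_single (C : Contr G) (g : RA G) (σ : Finset V) :
    htp C (single (g, σ) 1) = -it (g * pr G σ) (C.S (single σ 1)) := by
  unfold htp
  rw [Finsupp.linearCombination_single, one_smul]

lemma Dt_it (x : RA G) (y : Finset V →₀ ℤ) : Dt (it x y) = -it x (dl y) := by
  have := lin_eq (Dt ∘ₗ it x) (-(it x ∘ₗ dl)) Set.univ (fun σ _ => by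
    simp only [LinearMap.comp_apply, LinearMap.neg_apply]
    rw [it_single, Dt_single, inv_mul_cancel_right]) y (by simp)
  simpa using this

lemma htp_it (C : Contr G) (x : RA G) (y : Finset V →₀ ℤ) : htp C (it x y) = -it x (C.S y) := by
  have := lin_eq (htp C ∘ₗ it x) (-(it x ∘ₗ C.S)) Set.univ (fun σ _ => by
    simp only [LinearMap.comp_apply, LinearMap.neg_apply]
    rw [it_single, htp_single, inv_mul_cancel_right]) y (by simp)
  simpa using this

lemma bd_sub_Dt {g : RA G} {σ : Finset V} (hσ : clq G σ) :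
    bd G (single (g, σ) 1) - Dt (single (g, σ) 1) =
      ∑ v ∈ σ, (sgn v σ) • (single (g, σ.erase v) 1 : Ch G) := by
  rw [bd_single, Dt_single, dl_single, map_sum, sub_neg_eq_add, ← Finset.sum_add_distrib]
  apply Finset.sum_congr rfl
  intro v hv
  rw [map_smul, it_single, smul_sub, pr_erase hσ hv, ← mul_assoc, mul_inv_cancel_right]; abel

theorem top (C : Contr G) (N : ℕ) (hN : ∀ σ, clq G σ → σ.card ≤ N + 1)
    (w : Ch G) (hw : w ∈ supported ℤ ℤ {c : RA G × Finset V | clq G c.2 ∧ 0 ≤ ch G c.1})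
    (hbw : bd G w ∈ supported ℤ ℤ {c : RA G × Finset V | ch G c.1 + c.2.card ≤ N}) :
    ∃ u : Ch G, u ∈ supported ℤ ℤ (KK G) ∧ w - bd G u ∈ supported ℤ ℤ
      {c : RA G × Finset V | (clq G c.2 ∧ 0 ≤ ch G c.1) ∧ ch G c.1 + c.2.card ≤ N} := by
  obtain ⟨u, hu, hu'⟩ := push_down (bd G) Dt (htp C) (fun c => ch G c.1 + c.2.card)
    {c : RA G × Finset V | clq G c.2 ∧ 0 ≤ ch G c.1} N
    (fun c hc => bd_bd hc.1)
    (fun c hc => by
      obtain ⟨g, σ⟩ := c
      obtain ⟨h1, h2⟩ := hc
      simp only at h1 h2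
      rw [bd_single]
      apply Submodule.sum_mem
      intro v hv
      apply Submodule.smul_mem
      refine Submodule.sub_mem _ (single_mem ⟨clq_erase h1 v, h2⟩) (single_mem ⟨clq_erase h1 v, ?_⟩)
      simp only; rw [ch_mul, ch_gen]; omega)
    (fun c hc => by
      obtain ⟨g, σ⟩ := c
      rw [bd_sub_Dt hc.1]
      apply Submodule.sum_mem
      intro v hv
      apply Submodule.smul_mem
      apply single_mem
      change ch G g + ((σ.erase v).card : ℤ) < ch G g + (σ.card : ℤ)
      have h3 : (σ.erase v).card + 1 = σ.card := Finset.card_erase_add_one hv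
      omega)
    (fun c hc => by
      obtain ⟨g, σ⟩ := c
      rw [Dt_single]
      apply Submodule.neg_mem
      refine Finsupp.supported_mono ?_ (it_supp _ (T := Set.univ) (by simp))
      rintro ⟨g', σ'⟩ ⟨h1, _⟩
      have h1' : g' = g * pr G σ * (pr G σ')⁻¹ := h1
      change ch G g' + (σ'.card : ℤ) = ch G g + (σ.card : ℤ)
      rw [h1', ch_mul, ch_mul, ch_inv, ch_pr, ch_pr]; omega)
    (fun c hc h0 => by
      obtain ⟨g, σ⟩ := c
      rw [htp_single]
      apply Submodule.neg_mem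
      refine Finsupp.supported_mono ?_ (it_supp _ (C.cl σ hc.1))
      rintro ⟨g', σ'⟩ ⟨h1, h2⟩
      have h1' : g' = g * pr G σ * (pr G σ')⁻¹ := h1
      have h2' : clq G σ' := h2
      have h0' : (N : ℤ) < ch G g + σ.card := h0
      have h3 := hN σ' h2'
      have h4 : ch G g' + (σ'.card : ℤ) = ch G g + (σ.card : ℤ) := by
        rw [h1', ch_mul, ch_mul, ch_inv, ch_pr, ch_pr]; omega
      refine ⟨⟨h2', ?_⟩, h4⟩
      change 0 ≤ ch G g'
      omega)
    (fun c hc h0 => by
      obtain ⟨g, σ⟩ := c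
      rw [htp_single, map_neg, Dt_it, Dt_single, map_neg, htp_it, neg_neg, neg_neg, ← map_add,
        C.eq σ hc.1, it_single, mul_inv_cancel_right])
    w hw hbw
  refine ⟨u, Finsupp.supported_mono (fun c hc => hc.1) hu, Finsupp.supported_mono ?_ hu'⟩
  rintro c ⟨h1, h2⟩
  exact ⟨h1, h2⟩

/-- the cells of the slab -/
def Slab (G : SimpleGraph V) (N : ℕ) : Set (RA G × Finset V) :=
  {c | (clq G c.2 ∧ 0 ≤ ch G c.1) ∧ ch G c.1 + c.2.card ≤ N}

theorem slab (C : Contr G) (N : ℕ) (hN : ∀ σ, clq G σ → σ.card ≤ N + 1) (z : Ch G)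
    (hz : z ∈ supported ℤ ℤ (Slab G N)) (hb : bd G z = 0) (ha : augC G z = 0) :
    ∃ w ∈ supported ℤ ℤ (Slab G N), bd G w = z := by
  classical
  obtain ⟨w, hw, hwz⟩ := exact_C z (Finsupp.supported_mono (fun c hc => hc.1.1) hz) hb ha
  obtain ⟨b, hb1, hb2⟩ : ∃ b : ℤ, (N : ℤ) ≤ b ∧ ∀ c ∈ w.support, ch G c.1 + c.2.card ≤ b := by
    obtain ⟨B, hB⟩ := (w.support.image (fun c : RA G × Finset V => ch G c.1 + (c.2.card : ℤ))).bddAbove
    refine ⟨max B N, le_max_right _ _, fun c hc => le_trans (hB ?_) (le_max_left _ _)⟩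
    exact_mod_cast Finset.mem_image_of_mem _ hc
  obtain ⟨u1, hu1, hw1⟩ := bottom C N hN b hb1 w
    (by
      rw [Finsupp.mem_supported]
      intro c hc
      exact ⟨(Finsupp.mem_supported _ _).1 hw hc, hb2 c hc⟩)
    (by rw [hwz]; exact Finsupp.supported_mono (fun c hc => hc.1.2) hz)
  have hbb : ∀ u ∈ supported ℤ ℤ (KK G), bd G (bd G u) = 0 := by
    intro u hu
    have := lin_eq (bd G ∘ₗ bd G) 0 (KK G) (fun c hc => bd_bd hc) u hu
    simpa using this
  have h1 : bd G (w - bd G u1) = z := by rw [map_sub, hbb u1 hu1, sub_zero, hwz]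
  obtain ⟨u2, hu2, hw2⟩ := top C N hN (w - bd G u1)
    (by
      refine Finsupp.supported_mono ?_ hw1
      intro c hc
      exact ⟨hc.1.1, hc.2⟩)
    (by
      rw [h1]
      refine Finsupp.supported_mono ?_ hz
      intro c hc
      exact hc.2)
  exact ⟨w - bd G u1 - bd G u2, hw2, by rw [map_sub, hbb u2 hu2, sub_zero, h1]⟩

end Pool.Agent.H653R3
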